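import Pool.Agent.KBU.Alg

/-! Every character of the center of the group algebra modulo `𝔪` is a central character. -/

namespace Pool.Agent.KBU

open Pool.Agent.KB Pool.Agent.KB.ContrAux Pool.Agent.KBL

theorem Sep_list {H : Type} [Group H] [Fintype H] (l : List (MonoidAlgebra AInt H))
    (hl : ∀ α ∈ l, Ctr α) : Ctr l.prod ∧
      ∀ ζ ∈ Irr H, omg ζ l.prod = (l.map (omg ζ)).prod := by
  induction l with
  | nil =>
    have h1 : ([] : List (MonoidAlgebra AInt H)).prod
        = algebraMap AInt (MonoidAlgebra AInt H) 1 := by rw [List.prod_nil, map_one]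
    constructor
    · rw [h1]
      exact Alg_ctr_const 1
    · intro ζ hζ
      rw [h1, Alg_const ζ hζ]
      simp
  | cons α l ih =>
    obtain ⟨ih1, ih2⟩ := ih (fun β hβ => hl β (List.mem_cons_of_mem _ hβ))
    have hα := hl α List.mem_cons_self
    constructor
    · rw [List.prod_cons]
      exact Alg_ctr_mul _ _ hα ih1
    · intro ζ hζ
      rw [List.prod_cons, List.map_cons, List.prod_cons, Alg_mul ζ hζ _ _ hα, ih2 ζ hζ]

/-- a product of central elements which contains for every character one factor with value `0`. -/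
theorem Sep_prod_zero {H : Type} [Group H] [Fintype H] {K : ℕ} (X : Fin K → H → ℂ)
    (hX : Set.range X = Irr H) (f : Fin K → MonoidAlgebra AInt H) (hf : ∀ i, Ctr (f i))
    (h0 : ∀ i, omg (X i) (f i) = 0) : (List.ofFn f).prod = 0 := by
  obtain ⟨h1, h2⟩ := Sep_list (List.ofFn f) (fun α hα => by
    rw [List.mem_ofFn] at hα
    obtain ⟨i, rfl⟩ := hα
    exact hf i)
  apply Alg_zero _ h1
  intro ζ hζ
  rw [h2 ζ hζ]
  rw [← hX] at hζ
  obtain ⟨i, rfl⟩ := hζ
  apply List.prod_eq_zero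
  rw [List.mem_map]
  exact ⟨f i, by rw [List.mem_ofFn]; exact ⟨i, rfl⟩, h0 i⟩

/-- Cayley-Hamilton. `X` enumerates `Irr H`, the list of the integral numbers `w i = omg (X i) δ`;
the product of the `δ - w i` vanishes. HINT: all `omg (X j)` of the product vanish (`Alg_mul`), `Alg_zero`. -/
theorem Sep_cayley {H : Type} [Group H] [Fintype H] {K : ℕ} (X : Fin K → H → ℂ)
    (hX : Set.range X = Irr H) (δ : MonoidAlgebra AInt H) (hδ : Ctr δ) (w : Fin K → AInt)
    (hw : ∀ i, (w i : ℂ) = omg (X i) δ) :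
    (List.ofFn fun i => δ - algebraMap AInt (MonoidAlgebra AInt H) (w i)).prod = 0 := by
  refine Sep_prod_zero X hX _ (fun i => Alg_ctr_sub _ _ hδ (Alg_ctr_const _)) (fun i => ?_)
  have hXi : X i ∈ Irr H := by rw [← hX]; exact ⟨i, rfl⟩
  rw [Alg_sub, Alg_const _ hXi, hw, sub_self]

/-- If all the values of the central characters at `δ` are in `𝔪` then some power of `δ` has all its
coefficients in `𝔪`. HINT: `Sep_cayley`; apply the ring homomorphism to `MonoidAlgebra (AInt ⧸ 𝔪) H`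
(`MonoidAlgebra.mapRangeRingHom`), the product becomes the power. -/
theorem Sep_nil {H : Type} [Group H] [Fintype H] (𝔪 : Ideal AInt) (δ : MonoidAlgebra AInt H)
    (hδ : Ctr δ) (h0 : ∀ ζ ∈ Irr H, InM 𝔪 (omg ζ δ)) :
    ∃ n : ℕ, 0 < n ∧ ∀ x, (δ ^ n).coeff x ∈ 𝔪 := by
  obtain ⟨K, X, -, hX, -, -⟩ := Col_main H
  have hXI : ∀ i, X i ∈ Irr H := fun i => by rw [← hX]; exact ⟨i, rfl⟩
  choose w hw1 hw2 using fun i => h0 (X i) (hXI i)
  have h1 := Sep_cayley X hX δ hδ w hw2
  let φ : MonoidAlgebra AInt H →+* MonoidAlgebra (AInt ⧸ 𝔪) H :=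
    MonoidAlgebra.mapRingHom H (Ideal.Quotient.mk 𝔪)
  have h2 : φ δ ^ K = 0 := by
    have h3 := congrArg φ h1
    rw [map_zero, map_list_prod, List.map_ofFn] at h3
    have h4 : (φ ∘ fun i => δ - algebraMap AInt (MonoidAlgebra AInt H) (w i))
        = fun _ : Fin K => φ δ := by
      funext i
      have h5 : φ (algebraMap AInt (MonoidAlgebra AInt H) (w i)) = 0 := by
        have h6 : algebraMap AInt (MonoidAlgebra AInt H) (w i)
            = MonoidAlgebra.single 1 (w i) := rfl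
        rw [h6]
        change MonoidAlgebra.mapRingHom H (Ideal.Quotient.mk 𝔪) (MonoidAlgebra.single 1 (w i)) = 0
        rw [MonoidAlgebra.mapRingHom_single, Ideal.Quotient.eq_zero_iff_mem.mpr (hw1 i)]
        simp
      show φ (δ - algebraMap AInt (MonoidAlgebra AInt H) (w i)) = φ δ
      rw [map_sub, h5, sub_zero]
    rw [h4, List.ofFn_const, List.prod_replicate] at h3
    exact h3
  refine ⟨K + 1, Nat.succ_pos K, fun x => ?_⟩
  rw [← Ideal.Quotient.eq_zero_iff_mem]
  have h3 : φ (δ ^ (K + 1)) = 0 := by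
    rw [map_pow, pow_succ, h2, zero_mul]
  have h4 : (φ (δ ^ (K + 1))).coeff x = Ideal.Quotient.mk 𝔪 ((δ ^ (K + 1)).coeff x) := by
    change (MonoidAlgebra.mapRingHom H (Ideal.Quotient.mk 𝔪) (δ ^ (K + 1))).coeff x = _
    rw [MonoidAlgebra.coeff_mapRingHom]
  rw [← h4, h3]
  rfl

theorem Sep_Lam {H : Type} [Group H] [Fintype H] (𝔪 : Ideal AInt) (h𝔪 : 𝔪.IsMaximal)
    (Λ : MonoidAlgebra AInt H → AInt ⧸ 𝔪)
    (hc : ∀ c : AInt, Λ (algebraMap AInt (MonoidAlgebra AInt H) c) = Ideal.Quotient.mk 𝔪 c)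
    (hmul : ∀ α β, Ctr α → Ctr β → Λ (α * β) = Λ α * Λ β)
    (l : List (MonoidAlgebra AInt H)) (hl : ∀ α ∈ l, Ctr α) (h0 : ∀ α ∈ l, Λ α ≠ 0) :
    Λ l.prod ≠ 0 := by
  have hdom : IsDomain (AInt ⧸ 𝔪) := by
    have := h𝔪.isPrime
    infer_instance
  induction l with
  | nil =>
    have h1 : ([] : List (MonoidAlgebra AInt H)).prod
        = algebraMap AInt (MonoidAlgebra AInt H) 1 := by rw [List.prod_nil, map_one]
    rw [h1, hc, map_one]
    exact one_ne_zero
  | cons α l ih =>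
    have ih1 := ih (fun β hβ => hl β (List.mem_cons_of_mem _ hβ))
      (fun β hβ => h0 β (List.mem_cons_of_mem _ hβ))
    rw [List.prod_cons, hmul _ _ (hl α List.mem_cons_self)
      (Sep_list l (fun β hβ => hl β (List.mem_cons_of_mem _ hβ))).1]
    exact mul_ne_zero (h0 α List.mem_cons_self) ih1

/-- A map `Λ` with the properties of a homomorphism from the center to `AInt ⧸ 𝔪` is the reduction of
some central character. HINT: otherwise for every `i` there is a central `β i` with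
`Λ (β i) ≠ mk (w i)`, `(w i : ℂ) = omg (X i) (β i)`. Induction over a `Finset` of indices `s`: there is a
central `γ` with `omg (X i) γ = 0` for `i ∈ s` and `Λ γ ≠ 0`. For `s = univ` `Alg_zero` gives `γ = 0`. -/
theorem Sep_main {H : Type} [Group H] [Fintype H] (𝔪 : Ideal AInt) (h𝔪 : 𝔪.IsMaximal)
    (Λ : MonoidAlgebra AInt H → AInt ⧸ 𝔪)
    (hc : ∀ c : AInt, Λ (algebraMap AInt (MonoidAlgebra AInt H) c) = Ideal.Quotient.mk 𝔪 c)
    (hadd : ∀ α β, Ctr α → Ctr β → Λ (α + β) = Λ α + Λ β)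
    (hmul : ∀ α β, Ctr α → Ctr β → Λ (α * β) = Λ α * Λ β) :
    ∃ ζ ∈ Irr H, ∀ α, Ctr α → ∀ w : AInt, (w : ℂ) = omg ζ α → Λ α = Ideal.Quotient.mk 𝔪 w := by
  by_contra hcon
  push Not at hcon
  obtain ⟨K, X, -, hX, -, -⟩ := Col_main H
  have hXI : ∀ i, X i ∈ Irr H := fun i => by rw [← hX]; exact ⟨i, rfl⟩
  choose β hβ w hw hne using fun i => hcon (X i) (hXI i)
  set f : Fin K → MonoidAlgebra AInt H :=
    fun i => β i - algebraMap AInt (MonoidAlgebra AInt H) (w i) with hf
  have hfc : ∀ i, Ctr (f i) := fun i => Alg_ctr_sub _ _ (hβ i) (Alg_ctr_const _)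
  have h1 : (List.ofFn f).prod = 0 := by
    refine Sep_prod_zero X hX f hfc (fun i => ?_)
    simp only [hf]
    rw [Alg_sub, Alg_const _ (hXI i), hw, sub_self]
  have h2 : Λ (List.ofFn f).prod ≠ 0 := by
    refine Sep_Lam 𝔪 h𝔪 Λ hc hmul _ ?_ ?_
    · intro α hα
      rw [List.mem_ofFn] at hα
      obtain ⟨i, rfl⟩ := hα
      exact hfc i
    · intro α hα
      rw [List.mem_ofFn] at hα
      obtain ⟨i, rfl⟩ := hα
      intro h3
      have h4 := hadd (f i) (algebraMap AInt (MonoidAlgebra AInt H) (w i)) (hfc i)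
        (Alg_ctr_const _)
      rw [h3, zero_add, hc] at h4
      have h5 : f i + algebraMap AInt (MonoidAlgebra AInt H) (w i) = β i := by
        simp only [hf]
        exact sub_add_cancel _ _
      rw [h5] at h4
      exact hne i h4
  apply h2
  rw [h1]
  have h3 := hc 0
  rw [map_zero, map_zero] at h3
  exact h3

end Pool.Agent.KBU
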