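import Pool.Agent.KBL.Orth
import Pool.Agent.KBZ.Res
import Pool.Agent.KBZ.Cdeg

/-! `l(B) < k(B)` for blocks of positive defect. -/

namespace Pool.Agent.KBU

open Pool.Agent.KB Pool.Agent.KB.ContrAux Pool.Agent.KBL Pool.Agent.KBZ

theorem Gam_fin {G : Type} [Group G] [Fintype G] (𝔪 : Ideal AInt) (χ₀ : G → ℂ) :
    (block 𝔪 χ₀).Finite := by
  obtain ⟨K, X, -, hXr, -, -⟩ := Col_main G
  refine Set.Finite.subset (Set.finite_range X) ?_
  intro χ hχ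
  rw [hXr]
  exact hχ.1

/-- HINT: the span of the image of a finite set. -/
theorem Gam_le {G : Type} [Group G] [Fintype G] (p : ℕ) (𝔪 : Ideal AInt) (χ₀ : G → ℂ) :
    (block 𝔪 χ₀).Finite ∧ ell p (block 𝔪 χ₀) ≤ (block 𝔪 χ₀).ncard := by
  classical
  have hf := Gam_fin 𝔪 χ₀
  refine ⟨hf, ?_⟩
  have e1 : (preg p '' block 𝔪 χ₀) = ((hf.toFinset.image (preg p) : Finset (G → ℂ)) : Set (G → ℂ)) := by
    rw [Finset.coe_image, Set.Finite.coe_toFinset]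
  unfold ell
  rw [e1, Set.ncard_eq_toFinset_card _ hf]
  exact (finrank_span_finset_le_card _).trans Finset.card_image_le

theorem Gam_same {G : Type} [Group G] (𝔪 : Ideal AInt) (χ₀ χ ψ : G → ℂ)
    (h : SameBlock 𝔪 χ₀ χ) (h' : SameBlock 𝔪 χ ψ) : SameBlock 𝔪 χ₀ ψ := by
  intro g
  obtain ⟨c, hc, hc'⟩ := h g
  obtain ⟨d, hd, hd'⟩ := h' g
  refine ⟨c + d, 𝔪.add_mem hc hd, ?_⟩
  push_cast
  rw [hc', hd']
  ring

theorem Gam_T {G : Type} [Group G] [Fintype G] (p : ℕ) (χ ψ : G → ℂ) :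
    ∑ z : G, preg p χ z * ψ z⁻¹ = T p χ ψ := by
  classical
  unfold T preg
  rw [Finset.sum_filter]
  refine Finset.sum_congr rfl fun z _ => ?_
  by_cases h : p ∣ orderOf z
  · simp [h]
  · simp [h]

open Classical in
theorem Gam_expand {G : Type} [Group G] [Fintype G] (p : ℕ) (hp : p.Prime) (𝔪 : Ideal AInt)
    (h𝔪 : 𝔪.IsMaximal) (hp𝔪 : (p : AInt) ∈ 𝔪) (χ₀ : G → ℂ) (χ : G → ℂ)
    (hχ : χ ∈ block 𝔪 χ₀) :
    (Nat.card G : ℂ) • preg p χ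
      = ∑ ψ ∈ (Gam_fin 𝔪 χ₀).toFinset, T p χ ψ • preg p ψ := by
  obtain ⟨K, X, hXinj, hXr, h1, h2⟩ := Col_main G
  have hclass : ∀ y z : G, IsConj y z → preg p χ y = preg p χ z := by
    intro y z hyz
    unfold preg
    rw [orderOf_conj hyz, irr_conj hχ.1 hyz]
  funext y
  have e1 := Res_expand (preg p χ) hclass X h1 h2 y
  have e2 : ∀ i, (∑ z : G, preg p χ z * X i z⁻¹) = T p χ (X i) := fun i => Gam_T p χ (X i)
  simp only [e2] at e1
  have hsum : (∑ ψ ∈ (Gam_fin 𝔪 χ₀).toFinset, T p χ ψ • preg p ψ) y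
      = ∑ ψ ∈ (Gam_fin 𝔪 χ₀).toFinset, T p χ ψ * preg p ψ y := by
    rw [Finset.sum_apply]
    rfl
  rw [hsum]
  have e3 : ∑ i, T p χ (X i) * X i y = ∑ ψ ∈ (Gam_fin 𝔪 χ₀).toFinset, T p χ ψ * ψ y := by
    have e4 : ∑ i, T p χ (X i) * X i y = ∑ ψ ∈ Finset.univ.image X, T p χ ψ * ψ y := by
      rw [Finset.sum_image (fun i _ j _ hij => hXinj hij)]
    rw [e4]
    symm
    apply Finset.sum_subset
    · intro ψ hψ
      rw [Set.Finite.mem_toFinset] at hψ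
      have h5 : ψ ∈ Set.range X := by
        rw [hXr]
        exact hψ.1
      obtain ⟨i, rfl⟩ := h5
      exact Finset.mem_image_of_mem _ (Finset.mem_univ _)
    · intro ψ hψ hψ'
      rw [Set.Finite.mem_toFinset] at hψ'
      rw [Finset.mem_image] at hψ
      obtain ⟨i, _, rfl⟩ := hψ
      have h5 : X i ∈ Irr G := by rw [← hXr]; exact ⟨i, rfl⟩
      rw [Orth_main p hp 𝔪 h𝔪 hp𝔪 χ (X i) hχ.1 h5
        (fun h6 => hψ' ⟨h5, Gam_same 𝔪 χ₀ χ (X i) hχ.2 h6.2⟩), zero_mul]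
  by_cases hy : p ∣ orderOf y
  · have h3 : ∀ ψ : G → ℂ, preg p ψ y = 0 := by
      intro ψ
      unfold preg
      rw [if_pos hy]
    show (Nat.card G : ℂ) * preg p χ y = _
    rw [h3]
    simp [h3]
  · have h3 : ∀ ψ : G → ℂ, preg p ψ y = ψ y := by
      intro ψ
      unfold preg
      rw [if_neg hy]
    show (Nat.card G : ℂ) * preg p χ y = _
    rw [e1, e3]
    exact Finset.sum_congr rfl fun ψ _ => by rw [h3]

/-- HINT: otherwise the functions `preg p χ`, `χ` in the block, are linearly independent. By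
`Res_expand`/`Col_main` and `Orth_main`: `|G| preg p χ = ∑ ψ in the block, T p χ ψ * ψ`, so
`|G| preg p χ = ∑ T p χ ψ * preg p ψ`, and `T p χ χ = |G|`. With `Cdeg_main`: the integer
`p^d / |G| * T p χ χ = p^d` is congruent to `c₀ (c χ)^2` modulo `p`; take `χ` with `p ∤ c χ`. -/
theorem Gam_main {G : Type} [Group G] [Fintype G] (p : ℕ) (hp : p.Prime) (𝔪 : Ideal AInt)
    (h𝔪 : 𝔪.IsMaximal) (hp𝔪 : (p : AInt) ∈ 𝔪) (χ₀ : G → ℂ) (hχ₀ : χ₀ ∈ Irr G)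
    (hd : 0 < defect p (block 𝔪 χ₀)) :
    ell p (block 𝔪 χ₀) + 1 ≤ (block 𝔪 χ₀).ncard := by
  classical
  by_contra hcon
  obtain ⟨hf, hle⟩ := Gam_le p 𝔪 χ₀
  have heq : ell p (block 𝔪 χ₀) = (block 𝔪 χ₀).ncard := by omega
  set S := (Gam_fin 𝔪 χ₀).toFinset with hS
  have hmemS : ∀ ψ, ψ ∈ S ↔ ψ ∈ block 𝔪 χ₀ := fun ψ => by
    rw [hS, Set.Finite.mem_toFinset]
  have hli : LinearIndependent ℂ (fun ψ : S => preg p ψ.1) := by
    rw [linearIndependent_iff_card_eq_finrank_span]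
    have e1 : Set.range (fun ψ : S => preg p ψ.1) = preg p '' block 𝔪 χ₀ := by
      ext f
      constructor
      · rintro ⟨ψ, rfl⟩
        exact ⟨ψ.1, (hmemS _).mp ψ.2, rfl⟩
      · rintro ⟨ψ, hψ, rfl⟩
        exact ⟨⟨ψ, (hmemS _).mpr hψ⟩, rfl⟩
    rw [e1]
    unfold Set.finrank
    change _ = ell p (block 𝔪 χ₀)
    rw [heq, Set.ncard_eq_toFinset_card _ hf, Fintype.card_coe]
  obtain ⟨n', c, c₀, hn', hc₀, -, -, ⟨χ, hχ, hcχ⟩, -, hmod⟩ := Cdeg_main p hp 𝔪 h𝔪 hp𝔪 χ₀ hχ₀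
  have hexp := Gam_expand p hp 𝔪 h𝔪 hp𝔪 χ₀ χ hχ
  have hGC : (Nat.card G : ℂ) ≠ 0 := by
    have : 0 < Nat.card G := Nat.card_pos
    exact_mod_cast this.ne'
  have hT : T p χ χ = (Nat.card G : ℂ) := by
    have hz : ∑ ψ : S, (T p χ ψ.1 - (if ψ.1 = χ then (Nat.card G : ℂ) else 0)) • preg p ψ.1 = 0 := by
      have e2 : ∑ ψ : S, (T p χ ψ.1 - (if ψ.1 = χ then (Nat.card G : ℂ) else 0)) • preg p ψ.1
          = ∑ ψ ∈ S, (T p χ ψ - (if ψ = χ then (Nat.card G : ℂ) else 0)) • preg p ψ :=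
        Finset.sum_coe_sort S
          (fun ψ => (T p χ ψ - (if ψ = χ then (Nat.card G : ℂ) else 0)) • preg p ψ)
      rw [e2]
      simp only [sub_smul, Finset.sum_sub_distrib, ite_smul, zero_smul]
      rw [Finset.sum_ite_eq' S χ, if_pos ((hmemS _).mpr hχ), ← hexp, sub_self]
    have h3 := (Fintype.linearIndependent_iff.mp hli) _ hz ⟨χ, (hmemS _).mpr hχ⟩
    rw [if_pos rfl] at h3
    exact sub_eq_zero.mp h3
  have h4 := hmod χ hχ χ hχ ((p : ℤ) ^ defect p (block 𝔪 χ₀)) (by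
    rw [hT]
    push_cast
    field_simp)
  have hpP : Prime (p : ℤ) := Nat.prime_iff_prime_int.mp hp
  have h5 : (p : ℤ) ∣ (p : ℤ) ^ defect p (block 𝔪 χ₀) := dvd_pow_self _ hd.ne'
  have h6 : (p : ℤ) ∣ c₀ * c χ * c χ := (dvd_sub_right h5).mp h4
  rcases hpP.dvd_or_dvd h6 with h7 | h7
  · rcases hpP.dvd_or_dvd h7 with h8 | h8
    · exact hc₀ h8
    · exact hcχ (by exact_mod_cast h8)
  · exact hcχ (by exact_mod_cast h7)

end Pool.Agent.KBU
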