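import Pool.Agent.KBL.NZ
import Pool.Agent.KBL.CD

/-! A block is determined by the values of its central character on the `p`-regular elements. -/

namespace Pool.Agent.KBU

open Pool.Agent.KB Pool.Agent.KB.ContrAux Pool.Agent.KBL

/-- The coefficients `A` of two characters whose central characters agree on the `p`-regular elements. -/
theorem Reg_sub {G : Type} [Group G] [Fintype G] (p : ℕ) (𝔪 : Ideal AInt)
    (ξ χ ψ : G → ℂ) (hξ : ξ ∈ Irr G)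
    (h : ∀ g : G, ¬ p ∣ orderOf g → InM 𝔪 (omega χ g - omega ψ g)) :
    InM 𝔪 (A p ξ χ - A p ξ ψ) := by
  unfold A
  rw [← Finset.sum_sub_distrib]
  refine InM_sum _ _ fun K _ => ?_
  split_ifs with hK
  · simpa using InM_zero 𝔪
  · rw [← mul_sub]
    refine InM_mul (irr_integral hξ _) (h _ ?_)
    rw [orderOf_inv]
    exact hK

/-- HINT: `NZ_main`: `ξ` in the block of `χ` with `A p ξ χ ∉ 𝔪`. `A p ξ χ - A p ξ ψ ∈ 𝔪` since `A` only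
involves the values `omega χ` at `p`-regular elements. So `A p ξ ψ ∉ 𝔪`, and `T p ξ ψ ≠ 0` (`T_eq`), so `ψ`
is in the block of `ξ` by `Orth_main`, which is the block of `χ`. -/
theorem Reg_main {G : Type} [Group G] [Fintype G] (p : ℕ) (hp : p.Prime) (𝔪 : Ideal AInt)
    (h𝔪 : 𝔪.IsMaximal) (hp𝔪 : (p : AInt) ∈ 𝔪) (χ ψ : G → ℂ) (hχ : χ ∈ Irr G) (hψ : ψ ∈ Irr G)
    (h : ∀ g : G, ¬ p ∣ orderOf g → InM 𝔪 (omega χ g - omega ψ g)) : ψ ∈ block 𝔪 χ := by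
  obtain ⟨ξ, hξ, hA⟩ := NZ_main p hp 𝔪 h𝔪 hp𝔪 χ hχ
  have h1 := Reg_sub p 𝔪 ξ χ ψ hξ.1 h
  have h2 : A p ξ ψ ≠ 0 := by
    intro h3
    rw [h3, sub_zero] at h1
    exact hA h1
  have hψ1 : ψ 1 ≠ 0 := by
    obtain ⟨n, hn, hn1⟩ := irr_deg hψ
    rw [hn1]
    exact_mod_cast hn.ne'
  have h3 : ψ ∈ block 𝔪 ξ := by
    by_contra hcon
    have h4 := Orth_main p hp 𝔪 h𝔪 hp𝔪 ξ ψ hξ.1 hψ hcon
    rw [T_eq hξ.1 hψ] at h4
    rcases mul_eq_zero.1 h4 with h5 | h5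
    · exact hψ1 h5
    · exact h2 h5
  refine ⟨hψ, fun g => ?_⟩
  obtain ⟨c, hc, hc'⟩ := hξ.2 g
  obtain ⟨c', hd, hd'⟩ := h3.2 g
  refine ⟨c + c', 𝔪.add_mem hc hd, ?_⟩
  push_cast
  rw [hc', hd']
  ring

end Pool.Agent.KBU
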