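import Pool.Agent.KBU.Gam
import Mathlib.LinearAlgebra.Trace
import Mathlib.LinearAlgebra.Projection

/-! The number `l(B)` as a trace. -/

namespace Pool.Agent.KBU

open Pool.Agent.KB Pool.Agent.KB.ContrAux Pool.Agent.KBL Pool.Agent.KBZ

theorem TrE_main {G : Type} [Group G] [Fintype G] (p : ℕ) (hp : p.Prime) (𝔪 : Ideal AInt)
    (h𝔪 : 𝔪.IsMaximal) (hp𝔪 : (p : AInt) ∈ 𝔪) (χ₀ : G → ℂ)
    {k : ℕ} (χ : Fin k → G → ℂ) (hinj : Function.Injective χ) (hχ : ∀ i, χ i ∈ block 𝔪 χ₀)
    (hsurj : ∀ ψ ∈ block 𝔪 χ₀, ∃ i, χ i = ψ) :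
    ∑ i, T p (χ i) (χ i) = (Nat.card G : ℂ) * ell p (block 𝔪 χ₀) := by
  classical
  have hGC : (Nat.card G : ℂ) ≠ 0 := by
    have : 0 < Nat.card G := Nat.card_pos
    exact_mod_cast this.ne'
  have hexp : ∀ i, (Nat.card G : ℂ) • preg p (χ i) = ∑ j, T p (χ i) (χ j) • preg p (χ j) := by
    intro i
    rw [Gam_expand p hp 𝔪 h𝔪 hp𝔪 χ₀ (χ i) (hχ i)]
    symm
    refine Finset.sum_bij (fun j _ => χ j) ?_ ?_ ?_ ?_
    · intro j _
      rw [Set.Finite.mem_toFinset]
      exact hχ j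
    · intro a _ b _ hab
      exact hinj hab
    · intro ψ hψ
      rw [Set.Finite.mem_toFinset] at hψ
      obtain ⟨j, hj⟩ := hsurj ψ hψ
      exact ⟨j, Finset.mem_univ _, hj⟩
    · intro j _
      rfl
  have hTT : ∀ i j, (Nat.card G : ℂ) * T p (χ i) (χ j) =
      ∑ a, T p (χ i) (χ a) * T p (χ a) (χ j) := by
    intro i j
    have h := hexp i
    have h2 : ∑ z : G, ((Nat.card G : ℂ) • preg p (χ i)) z * χ j z⁻¹ =
        ∑ z : G, (∑ a, T p (χ i) (χ a) • preg p (χ a)) z * χ j z⁻¹ := by rw [h]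
    have e1 : ∑ z : G, ((Nat.card G : ℂ) • preg p (χ i)) z * χ j z⁻¹ =
        (Nat.card G : ℂ) * T p (χ i) (χ j) := by
      rw [← Gam_T, Finset.mul_sum]
      refine Finset.sum_congr rfl fun z _ => ?_
      simp only [Pi.smul_apply, smul_eq_mul]
      ring
    have e2 : ∑ z : G, (∑ a, T p (χ i) (χ a) • preg p (χ a)) z * χ j z⁻¹ =
        ∑ a, T p (χ i) (χ a) * T p (χ a) (χ j) := by
      simp only [Finset.sum_apply, Pi.smul_apply, smul_eq_mul, Finset.sum_mul]
      rw [Finset.sum_comm]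
      refine Finset.sum_congr rfl fun a _ => ?_
      rw [← Gam_T p (χ a) (χ j), Finset.mul_sum]
      refine Finset.sum_congr rfl fun z _ => ?_
      ring
    rw [← e1, h2, e2]
  set E : Matrix (Fin k) (Fin k) ℂ := fun i j => T p (χ i) (χ j) / (Nat.card G : ℂ) with hE
  have hEE : E * E = E := by
    ext i j
    rw [Matrix.mul_apply, hE]
    have : ∑ a, T p (χ i) (χ a) / (Nat.card G : ℂ) * (T p (χ a) (χ j) / (Nat.card G : ℂ)) =
        (∑ a, T p (χ i) (χ a) * T p (χ a) (χ j)) / ((Nat.card G : ℂ) * (Nat.card G : ℂ)) := by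
      rw [Finset.sum_div]
      refine Finset.sum_congr rfl fun a _ => ?_
      field_simp
    rw [this, ← hTT]
    field_simp
  set f : (Fin k → ℂ) →ₗ[ℂ] (Fin k → ℂ) := E.toLin' with hf
  have hid : IsIdempotentElem f := by
    change f * f = f
    rw [hf, Module.End.mul_eq_comp, ← Matrix.toLin'_mul, hEE]
  have htr : LinearMap.trace ℂ (Fin k → ℂ) f = (Module.finrank ℂ (LinearMap.range f) : ℂ) :=
    (LinearMap.IsIdempotentElem.isProj_range f hid).trace
  have htr2 : LinearMap.trace ℂ (Fin k → ℂ) f = ∑ i, E i i := by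
    rw [hf, Matrix.trace_toLin'_eq]
    rfl
  -- the rank
  have hrank : Module.finrank ℂ (LinearMap.range f) = ell p (block 𝔪 χ₀) := by
    have h1 : Module.finrank ℂ (LinearMap.range f) = E.rank := rfl
    set W : Matrix (Fin k) G ℂ := fun i g => preg p (χ i) g with hW
    have h2 : ell p (block 𝔪 χ₀) = W.rank := by
      have : preg p '' block 𝔪 χ₀ = Set.range W.row := by
        ext g
        constructor
        · rintro ⟨ψ, hψ, rfl⟩
          obtain ⟨i, rfl⟩ := hsurj ψ hψ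
          exact ⟨i, rfl⟩
        · rintro ⟨i, rfl⟩
          exact ⟨χ i, hχ i, rfl⟩
      rw [Matrix.rank_eq_finrank_span_row]
      unfold ell
      rw [this]
    have h3 : E * W = W := by
      ext i g
      rw [Matrix.mul_apply]
      have h := congrFun (hexp i) g
      simp only [Pi.smul_apply, smul_eq_mul, Finset.sum_apply] at h
      have : ∑ j, E i j * W j g = (∑ j, T p (χ i) (χ j) * preg p (χ j) g) / (Nat.card G : ℂ) := by
        rw [Finset.sum_div]
        refine Finset.sum_congr rfl fun j _ => ?_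
        rw [hE, hW]
        ring
      rw [this, ← h, hW]
      field_simp
    have h4 : ∃ V : Matrix G (Fin k) ℂ, E = W * V := by
      refine ⟨Matrix.of fun g j => χ j g⁻¹ / (Nat.card G : ℂ), ?_⟩
      ext i j
      rw [Matrix.mul_apply]
      simp only [Matrix.of_apply]
      change T p (χ i) (χ j) / (Nat.card G : ℂ) =
        ∑ z, preg p (χ i) z * (χ j z⁻¹ / (Nat.card G : ℂ))
      rw [← Gam_T, Finset.sum_div]
      refine Finset.sum_congr rfl fun z _ => ?_
      ring
    rw [h1, h2]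
    apply le_antisymm
    · obtain ⟨V, hV⟩ := h4
      rw [hV]
      exact Matrix.rank_mul_le_left W V
    · conv_lhs => rw [← h3]
      exact Matrix.rank_mul_le_left E W
  rw [hrank, htr2] at htr
  have : ∑ i, E i i = (∑ i, T p (χ i) (χ i)) / (Nat.card G : ℂ) := by
    rw [Finset.sum_div]
  rw [this] at htr
  field_simp at htr
  rw [htr]

end Pool.Agent.KBU
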