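import Pool.Agent.KBZ.Cdeg

/-! The defect and the orders of the centralizers. -/

namespace Pool.Agent.KBU

open Pool.Agent.KB Pool.Agent.KB.ContrAux Pool.Agent.KBL Pool.Agent.KBZ

/-- class size times order of the centralizer -/
theorem Dfc_orbit {G : Type} [Group G] [Fintype G] (x : G) :
    Nat.card {h : G // IsConj x h} * Nat.card (Subgroup.centralizer {x} : Subgroup G) =
      Nat.card G := by
  classical
  rw [Subgroup.nat_card_centralizer_nat_card_stabilizer]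
  have h1 : Nat.card {h : G // IsConj x h} = Nat.card (MulAction.orbit (ConjAct G) x) := by
    refine Nat.card_congr (Equiv.subtypeEquivRight fun h => ?_)
    rw [ConjAct.mem_orbit_conjAct]
    exact isConj_comm
  rw [h1, ← Nat.card_prod]
  exact (Nat.card_congr (MulAction.orbitProdStabilizerEquivGroup (ConjAct G) x)).trans
    (Nat.card_congr ConjAct.ofConjAct.toEquiv)

theorem Dfc_formula {G : Type} [Group G] [Fintype G] (p d n' cψ : ℕ) (ψ : G → ℂ) (hψ : ψ ∈ Irr G)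
    (h : (p : ℂ) ^ d * ψ 1 * n' = (Nat.card G : ℂ) * cψ) (x : G) :
    (p : ℂ) ^ d * n' * ψ x =
      (Nat.card (Subgroup.centralizer {x} : Subgroup G) : ℂ) * cψ * omega ψ x := by
  obtain ⟨n, hn, hn1⟩ := irr_deg hψ
  have hψ1 : ψ 1 ≠ 0 := by
    rw [hn1]
    exact_mod_cast hn.ne'
  have h1 : (Nat.card {h : G // IsConj x h} : ℂ) *
      (Nat.card (Subgroup.centralizer {x} : Subgroup G) : ℂ) = (Nat.card G : ℂ) := by
    exact_mod_cast Dfc_orbit x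
  unfold omega
  rw [← h1] at h
  rw [mul_div_assoc', eq_div_iff hψ1]
  linear_combination ψ x * h

/-- the `p`-part of a natural number -/
theorem Dfc_split (p : ℕ) (hp : p.Prime) (c : ℕ) (hc : c ≠ 0) :
    ∃ w : ℕ, ¬ p ∣ w ∧ c = p ^ padicValNat p c * w := by
  have : Fact p.Prime := ⟨hp⟩
  obtain ⟨w, hw⟩ := pow_padicValNat_dvd (p := p) (n := c)
  refine ⟨w, ?_, hw⟩
  intro h
  obtain ⟨t, ht⟩ := h
  apply pow_succ_padicValNat_not_dvd (p := p) hc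
  refine ⟨t, ?_⟩
  conv_lhs => rw [hw]
  rw [ht, pow_succ]
  ring

theorem Dfc_le {G : Type} [Group G] [Fintype G] (p : ℕ) (hp : p.Prime) (𝔪 : Ideal AInt)
    (h𝔪 : 𝔪.IsMaximal) (hp𝔪 : (p : AInt) ∈ 𝔪) (χ₀ : G → ℂ) (hχ₀ : χ₀ ∈ Irr G) (x : G)
    (hx : ¬ InM 𝔪 (omega χ₀ x)) :
    defect p (block 𝔪 χ₀) ≤ padicValNat p (Nat.card (Subgroup.centralizer {x} : Subgroup G)) := by
  obtain ⟨n', c, c₀, hn', -, -, hdeg, ⟨ψ, hψ, hcψ⟩, -, -⟩ := Cdeg_main p hp 𝔪 h𝔪 hp𝔪 χ₀ hχ₀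
  have hψI : ψ ∈ Irr G := hψ.1
  have hx' : ¬ InM 𝔪 (omega ψ x) := by
    intro h
    apply hx
    have h1 : InM 𝔪 (omega χ₀ x - omega ψ x) := hψ.2 x
    have h2 := InM_add h1 h
    rwa [sub_add_cancel] at h2
  by_contra hcon
  rw [not_le] at hcon
  have hf := Dfc_formula p _ n' (c ψ) ψ hψI (hdeg ψ hψ) x
  obtain ⟨w, hw, hcw⟩ := Dfc_split p hp (Nat.card (Subgroup.centralizer {x} : Subgroup G))
    Nat.card_pos.ne'
  set e := padicValNat p (Nat.card (Subgroup.centralizer {x} : Subgroup G)) with he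
  set d := defect p (block 𝔪 χ₀) with hd
  obtain ⟨k, hk⟩ := Nat.exists_eq_add_of_lt hcon
  rw [hcw] at hf
  have hp0 : (p : ℂ) ^ e ≠ 0 := pow_ne_zero _ (by exact_mod_cast hp.ne_zero)
  have h1 : ((w * c ψ : ℕ) : ℂ) * omega ψ x = (p : ℂ) ^ (k + 1) * n' * ψ x := by
    apply mul_left_cancel₀ hp0
    push_cast
    push_cast at hf
    rw [hk] at hf
    rw [show e + k + 1 = e + (k + 1) by ring, pow_add] at hf
    linear_combination (-1 : ℂ) * hf
  apply hx'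
  refine KBL.CDAux.InM_cancel hp hp𝔪 (n := ((w * c ψ : ℕ) : ℤ)) ?_ (irr_omega hψI x) ?_
  · intro h2
    have h3 : p ∣ w * c ψ := by exact_mod_cast h2
    rcases (Nat.Prime.dvd_mul hp).1 h3 with h4 | h4
    · exact hw h4
    · exact hcψ h4
  · have h2 : (((w * c ψ : ℕ) : ℤ) : ℂ) = ((w * c ψ : ℕ) : ℂ) := by push_cast; ring
    rw [h2, h1]
    have h3 : (p : ℂ) ^ (k + 1) * n' * ψ x = ((p : ℂ) ^ k * n' * ψ x) * (p : ℂ) := by ring
    rw [h3]
    exact InM_mul (((((isIntegral_nat p).pow k).mul (isIntegral_nat n'))).mul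
      (irr_integral hψI x)) ⟨(p : AInt), hp𝔪, by simp⟩

theorem Dfc_cent_inv {G : Type} [Group G] (y : G) :
    (Subgroup.centralizer {y⁻¹} : Subgroup G) = Subgroup.centralizer {y} := by
  ext g
  simp only [Subgroup.mem_centralizer_singleton_iff]
  constructor
  · intro h
    have h1 : g * y⁻¹ = y⁻¹ * g := h
    calc g * y = y * (y⁻¹ * g) * y := by group
      _ = y * (g * y⁻¹) * y := by rw [h1]
      _ = y * g := by group
  · intro h
    have h1 : g * y = y * g := h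
    calc g * y⁻¹ = y⁻¹ * (y * g) * y⁻¹ := by group
      _ = y⁻¹ * (g * y) * y⁻¹ := by rw [h1]
      _ = y⁻¹ * g := by group

theorem Dfc_ex {G : Type} [Group G] [Fintype G] (p : ℕ) (hp : p.Prime) (𝔪 : Ideal AInt)
    (h𝔪 : 𝔪.IsMaximal) (hp𝔪 : (p : AInt) ∈ 𝔪) (χ₀ : G → ℂ) (hχ₀ : χ₀ ∈ Irr G) :
    ∃ x : G, ¬ p ∣ orderOf x ∧ ¬ InM 𝔪 (omega χ₀ x) ∧
      padicValNat p (Nat.card (Subgroup.centralizer {x} : Subgroup G)) ≤
        defect p (block 𝔪 χ₀) := by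
  classical
  obtain ⟨n', c, c₀, hn', -, -, hdeg, -, -, -⟩ := Cdeg_main p hp 𝔪 h𝔪 hp𝔪 χ₀ hχ₀
  obtain ⟨ψ, hψ, hA⟩ := KBL.NZ_main p hp 𝔪 h𝔪 hp𝔪 χ₀ hχ₀
  have hψI : ψ ∈ Irr G := hψ.1
  have h1 : ∃ y : G, ¬ p ∣ orderOf y ∧ ¬ InM 𝔪 (ψ y * omega χ₀ y⁻¹) := by
    by_contra hcon
    push Not at hcon
    apply hA
    unfold A
    refine InM_sum _ _ fun K _ => ?_
    split_ifs with h
    · exact InM_zero 𝔪
    · exact hcon _ h
  obtain ⟨y, hy, hy2⟩ := h1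
  have hom : ¬ InM 𝔪 (omega χ₀ y⁻¹) := fun h => hy2 (InM_mul (irr_integral hψI y) h)
  have hψy : ¬ InM 𝔪 (ψ y) := by
    intro h
    apply hy2
    rw [mul_comm]
    exact InM_mul (irr_omega hχ₀ y⁻¹) h
  refine ⟨y⁻¹, by rwa [orderOf_inv], hom, ?_⟩
  rw [Dfc_cent_inv]
  by_contra hcon
  rw [not_le] at hcon
  have hf := Dfc_formula p _ n' (c ψ) ψ hψI (hdeg ψ hψ) y
  obtain ⟨w, hw, hcw⟩ := Dfc_split p hp (Nat.card (Subgroup.centralizer {y} : Subgroup G))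
    Nat.card_pos.ne'
  set e := padicValNat p (Nat.card (Subgroup.centralizer {y} : Subgroup G)) with he
  set d := defect p (block 𝔪 χ₀) with hd
  obtain ⟨k, hk⟩ := Nat.exists_eq_add_of_lt hcon
  rw [hcw] at hf
  have hp0 : (p : ℂ) ^ d ≠ 0 := pow_ne_zero _ (by exact_mod_cast hp.ne_zero)
  have h2 : (n' : ℂ) * ψ y = ((p : ℂ) ^ k * w * c ψ * omega ψ y) * (p : ℂ) := by
    apply mul_left_cancel₀ hp0
    push_cast at hf
    rw [hk] at hf
    rw [show d + k + 1 = d + (k + 1) by ring, pow_add] at hf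
    linear_combination hf
  apply hψy
  refine KBL.CDAux.InM_cancel hp hp𝔪 (n := (n' : ℤ)) ?_ (irr_integral hψI y) ?_
  · intro h3
    exact hn' (by exact_mod_cast h3)
  · have h3 : ((n' : ℤ) : ℂ) = (n' : ℂ) := by push_cast; ring
    rw [h3, h2]
    exact InM_mul (((((isIntegral_nat p).pow k).mul (isIntegral_nat w)).mul
      (isIntegral_nat _)).mul (irr_omega hψI y)) ⟨(p : AInt), hp𝔪, by simp⟩

end Pool.Agent.KBU
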