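import Pool.Agent.KBU.Key
import Pool.Agent.KBU.Dfc

/-! A `p`-subgroup of order `p^d` which centralises a conjugate of each element at which the central
character of the block does not vanish. -/

namespace Pool.Agent.KBU

open Pool.Agent.KB Pool.Agent.KB.ContrAux Pool.Agent.KBL

/-- the predicate of the maximal ideal is prime -/
theorem Dgp_prime {𝔪 : Ideal AInt} (h𝔪 : 𝔪.IsMaximal) {a b : ℂ} (ha : IsIntegral ℤ a)
    (hb : IsIntegral ℤ b) (h : InM 𝔪 (a * b)) : InM 𝔪 a ∨ InM 𝔪 b := by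
  obtain ⟨c, hc, hcab⟩ := h
  have h1 : c = (⟨a, ha⟩ : AInt) * ⟨b, hb⟩ := by
    apply Subtype.ext
    rw [hcab]
    rfl
  rw [h1] at hc
  rcases h𝔪.isPrime.mem_or_mem hc with h2 | h2
  · exact Or.inl ⟨_, h2, rfl⟩
  · exact Or.inr ⟨_, h2, rfl⟩

theorem Dgp_one {𝔪 : Ideal AInt} (h𝔪 : 𝔪.IsMaximal) : ¬ InM 𝔪 1 := by
  rintro ⟨c, hc, hc1⟩
  have h1 : c = 1 := Subtype.ext hc1
  rw [h1] at hc
  exact h𝔪.ne_top ((Ideal.eq_top_iff_one 𝔪).2 hc)

theorem Dgp_ctr {G : Type} [Group G] [Fintype G] (l : List G) :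
    Ctr ((l.map fun x => clsum x).prod) := by
  induction l with
  | nil =>
    rw [List.map_nil, List.prod_nil]
    have h1 := Alg_ctr_const (H := G) 1
    rwa [map_one] at h1
  | cons x l ih =>
    rw [List.map_cons, List.prod_cons]
    exact Alg_ctr_mul _ _ (Alg_ctr_clsum x) ih

theorem Dgp_prod {G : Type} [Group G] [Fintype G] {𝔪 : Ideal AInt} (h𝔪 : 𝔪.IsMaximal)
    {χ₀ : G → ℂ} (hχ₀ : χ₀ ∈ Irr G) (l : List G) (hl : ∀ x ∈ l, ¬ InM 𝔪 (omega χ₀ x)) :
    ¬ InM 𝔪 (omg χ₀ ((l.map fun x => clsum x).prod)) := by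
  induction l with
  | nil =>
    rw [List.map_nil, List.prod_nil]
    have h1 := Alg_const χ₀ hχ₀ 1
    rw [map_one] at h1
    rw [h1]
    exact Dgp_one h𝔪
  | cons x l ih =>
    rw [List.map_cons, List.prod_cons, Alg_mul χ₀ hχ₀ _ _ (Alg_ctr_clsum x), Alg_clsum χ₀ hχ₀]
    intro h1
    rcases Dgp_prime h𝔪 (irr_omega hχ₀ x) (Alg_int χ₀ hχ₀ _ (Dgp_ctr l)) h1 with h2 | h2
    · exact hl x (by simp) h2
    · exact ih (fun y hy => hl y (by simp [hy])) h2

theorem Dgp_cent {G : Type} [Group G] {x a : G} (h : IsConj x a) :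
    Nat.card (Subgroup.centralizer {a} : Subgroup G) = Nat.card (Subgroup.centralizer {x} : Subgroup G) := by
  obtain ⟨c, hc⟩ := isConj_iff.1 h
  have h1 : (Subgroup.centralizer {a} : Subgroup G) =
      (Subgroup.centralizer {x} : Subgroup G).map (MulAut.conj c).toMonoidHom := by
    ext y
    rw [Subgroup.mem_map, Subgroup.mem_centralizer_singleton_iff, ← hc]
    constructor
    · intro hy
      refine ⟨c⁻¹ * y * c, ?_, ?_⟩
      · rw [Subgroup.mem_centralizer_singleton_iff]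
        have h2 : c⁻¹ * (y * (c * x * c⁻¹)) * c = c⁻¹ * (c * x * c⁻¹ * y) * c := by rw [hy]
        simpa [mul_assoc] using h2
      · change c * (c⁻¹ * y * c) * c⁻¹ = y
        group
    · rintro ⟨z, hz, rfl⟩
      rw [Subgroup.mem_centralizer_singleton_iff] at hz
      change c * z * c⁻¹ * (c * x * c⁻¹) = c * x * c⁻¹ * (c * z * c⁻¹)
      have h2 : c * (z * x) * c⁻¹ = c * (x * z) * c⁻¹ := by rw [hz]
      simpa [mul_assoc] using h2
  rw [h1]
  exact Subgroup.card_map_of_injective (MulAut.conj c).injective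

/-- HINT: `l` the list of all elements `x` with `omega χ₀ x ∉ 𝔪` (`Finset.toList`), `γ` the product of
the class sums; `omg χ₀ γ = ∏ omega χ₀ x ∉ 𝔪` (`Alg_mul`, `Alg_clsum`; `𝔪` is prime, all factors are
integral: `irr_omega`). By `Alg_sum` there is `g` with `γ.coeff g ∉ 𝔪` and `omega χ₀ g ∉ 𝔪`. Let `P` be
the image in `G` of a Sylow `p`-subgroup of `C_G(g)`; `|P| = p ^ padicValNat p |C_G(g)| ≥ p^d` by
`Dfc_le`. `Key_list` for `P`. For the `x` of `Dfc_ex`: `P` centralises a conjugate `a` of `x`, so `|P|`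
divides `|C_G(a)| = |C_G(x)|`, and `|P| ≤ p^d`. -/
theorem Dgp_main {G : Type} [Group G] [Fintype G] (p : ℕ) (hp : p.Prime) (𝔪 : Ideal AInt)
    (h𝔪 : 𝔪.IsMaximal) (hp𝔪 : (p : AInt) ∈ 𝔪) (χ₀ : G → ℂ) (hχ₀ : χ₀ ∈ Irr G) :
    ∃ D : Subgroup G, IsPGroup p D ∧ Nat.card D = p ^ defect p (block 𝔪 χ₀) ∧
      ∀ x : G, ¬ InM 𝔪 (omega χ₀ x) → ∃ a : G, IsConj x a ∧ ∀ u ∈ D, u * a = a * u := by
  classical
  have := Fact.mk hp
  set s : Finset G := Finset.univ.filter fun x => ¬ InM 𝔪 (omega χ₀ x) with hs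
  set γ : MonoidAlgebra AInt G := (s.toList.map fun x => clsum x).prod with hγ
  have hl : ∀ x ∈ s.toList, ¬ InM 𝔪 (omega χ₀ x) := by
    intro x hx
    exact (Finset.mem_filter.1 (Finset.mem_toList.1 hx)).2
  have h1 := Dgp_prod h𝔪 hχ₀ s.toList hl
  rw [← hγ, Alg_sum χ₀ hχ₀ γ (Dgp_ctr _)] at h1
  have h2 : ∃ K : ConjClasses G, ¬ InM 𝔪 (((γ.coeff (Quotient.out K) : AInt) : ℂ) *
      omega χ₀ (Quotient.out K)) := by
    by_contra hcon
    push Not at hcon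
    exact h1 (InM_sum _ _ fun K _ => hcon K)
  obtain ⟨K, hK⟩ := h2
  set g : G := Quotient.out K with hg
  have hg1 : γ.coeff g ∉ 𝔪 := by
    intro h3
    apply hK
    rw [mul_comm]
    exact InM_mul (irr_omega hχ₀ g) ⟨_, h3, rfl⟩
  have hg2 : ¬ InM 𝔪 (omega χ₀ g) := by
    intro h3
    exact hK (InM_mul (γ.coeff g).2 h3)
  set C : Subgroup G := Subgroup.centralizer {g} with hC
  obtain ⟨S⟩ : Nonempty (Sylow p C) := inferInstance
  set D : Subgroup G := (S : Subgroup C).map C.subtype with hD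
  have hDp : IsPGroup p D := S.isPGroup'.map C.subtype
  have hDcard : Nat.card D = p ^ padicValNat p (Nat.card C) := by
    rw [hD, Subgroup.card_map_of_injective C.subtype_injective, Sylow.card_eq_multiplicity,
      Nat.factorization_def _ hp]
  have hDg : ∀ u ∈ D, u * g = g * u := by
    intro u hu
    obtain ⟨v, -, rfl⟩ := Subgroup.mem_map.1 hu
    have h3 : (v : G) ∈ Subgroup.centralizer {g} := v.2
    exact Subgroup.mem_centralizer_singleton_iff.1 h3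
  have hkey := Key_list p hp 𝔪 hp𝔪 D hDp s.toList g hDg hg1
  have hmem : ∀ x : G, ¬ InM 𝔪 (omega χ₀ x) → ∃ a : G, IsConj x a ∧ ∀ u ∈ D, u * a = a * u := by
    intro x hx
    exact hkey x (Finset.mem_toList.2 (Finset.mem_filter.2 ⟨Finset.mem_univ _, hx⟩))
  refine ⟨D, hDp, ?_, hmem⟩
  have hle := Dfc_le p hp 𝔪 h𝔪 hp𝔪 χ₀ hχ₀ g hg2
  obtain ⟨x, -, hx1, hx2⟩ := Dfc_ex p hp 𝔪 h𝔪 hp𝔪 χ₀ hχ₀
  obtain ⟨a, hxa, ha⟩ := hmem x hx1
  have hDa : D ≤ Subgroup.centralizer {a} := fun u hu => Subgroup.mem_centralizer_singleton_iff.2 (ha u hu)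
  have hdvd : Nat.card D ∣ Nat.card (Subgroup.centralizer {a} : Subgroup G) := Subgroup.card_dvd_of_le hDa
  rw [hDcard, Dgp_cent hxa] at hdvd
  have hge : padicValNat p (Nat.card C) ≤ padicValNat p (Nat.card (Subgroup.centralizer {x} : Subgroup G)) :=
    (padicValNat_dvd_iff_le Nat.card_pos.ne').1 hdvd
  rw [hDcard]
  congr 1
  have hle' : defect p (block 𝔪 χ₀) ≤ padicValNat p (Nat.card C) := hle
  omega

end Pool.Agent.KBU
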