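import Pool.Agent.KBL.Cen
import Pool.Agent.KBL.Col

/-! Central elements of the group algebra over the algebraic integers and the values of the central
characters at them. -/

namespace Pool.Agent.KBU

open Pool.Agent.KB Pool.Agent.KB.ContrAux Pool.Agent.KBL

/-- Central elements. -/
def Ctr {H : Type} [Group H] (α : MonoidAlgebra AInt H) : Prop :=
  ∀ g x : H, α.coeff (g * x * g⁻¹) = α.coeff x

/-- The value of the central character of `ζ` at a central element. -/
noncomputable def omg {H : Type} [Group H] [Fintype H] (ζ : H → ℂ) (α : MonoidAlgebra AInt H) : ℂ :=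
  ev ζ α / ζ 1

theorem Alg_comm_of {H : Type} [Group H] (α : MonoidAlgebra AInt H) (g : H) :
    Commute α (MonoidAlgebra.of AInt H g) ↔ ∀ x : H, α.coeff (g * x * g⁻¹) = α.coeff x := by
  constructor
  · intro h x
    have h1 := congrArg (fun β : MonoidAlgebra AInt H => β.coeff (g * x)) h.eq
    simp only [MonoidAlgebra.of_apply, MonoidAlgebra.coeff_mul_single_apply,
      MonoidAlgebra.coeff_single_mul_apply, mul_one, one_mul, inv_mul_cancel_left] at h1
    exact h1
  · intro h
    refine MonoidAlgebra.ext ?_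
    ext y
    simp only [MonoidAlgebra.of_apply, MonoidAlgebra.coeff_mul_single_apply,
      MonoidAlgebra.coeff_single_mul_apply, mul_one, one_mul]
    have h1 := h (g⁻¹ * y)
    rw [mul_inv_cancel_left] at h1
    rw [h1]

/-- HINT: `α` commutes with `of g` iff the coefficients satisfy this; `MonoidAlgebra.induction_on`. -/
theorem Alg_ctr {H : Type} [Group H] [Fintype H] (α : MonoidAlgebra AInt H) :
    Ctr α ↔ ∀ β, Commute α β := by
  constructor
  · intro h β
    induction β using MonoidAlgebra.induction_on with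
    | of x => exact (Alg_comm_of α x).2 (h x)
    | add f h hf hh => exact hf.add_right hh
    | smul r f hf => exact hf.smul_right r
  · intro h g
    exact (Alg_comm_of α g).1 (h _)

theorem Alg_ctr_mul {H : Type} [Group H] [Fintype H] (α β : MonoidAlgebra AInt H) (hα : Ctr α)
    (hβ : Ctr β) : Ctr (α * β) := by
  rw [Alg_ctr] at hα hβ ⊢
  exact fun γ => (hα γ).mul_left (hβ γ)

theorem Alg_ctr_add {H : Type} [Group H] [Fintype H] (α β : MonoidAlgebra AInt H) (hα : Ctr α)
    (hβ : Ctr β) : Ctr (α + β) := by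
  rw [Alg_ctr] at hα hβ ⊢
  exact fun γ => (hα γ).add_left (hβ γ)

theorem Alg_ctr_sub {H : Type} [Group H] [Fintype H] (α β : MonoidAlgebra AInt H) (hα : Ctr α)
    (hβ : Ctr β) : Ctr (α - β) := by
  rw [Alg_ctr] at hα hβ ⊢
  exact fun γ => (hα γ).sub_left (hβ γ)

theorem Alg_ctr_const {H : Type} [Group H] [Fintype H] (c : AInt) :
    Ctr (algebraMap AInt (MonoidAlgebra AInt H) c) := by
  rw [Alg_ctr]
  exact fun γ => Algebra.commutes c γ

theorem Alg_ctr_clsum {H : Type} [Group H] [Fintype H] (g : H) : Ctr (clsum g) := by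
  rw [Alg_ctr]
  exact fun γ => CenA_comm g γ

open Classical in
theorem Alg_clsum_coeff {H : Type} [Group H] [Fintype H] (g x : H) :
    (clsum g).coeff x = if IsConj g x then (1 : AInt) else 0 := by
  unfold clsum
  rw [MonoidAlgebra.coeff_sum, Finsupp.finsetSum_apply]
  have h1 : ∀ h : H, (MonoidAlgebra.of AInt H h).coeff x = if h = x then (1 : AInt) else 0 := by
    intro h
    rw [MonoidAlgebra.of_apply, MonoidAlgebra.coeff_single_apply]
  simp only [h1]
  rw [Finset.sum_ite_eq']
  simp only [Finset.mem_filter, Finset.mem_univ, true_and]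

theorem Alg_ev_sum {H : Type} [Group H] [Fintype H] {ι : Type*} (ζ : H → ℂ) (s : Finset ι)
    (f : ι → MonoidAlgebra AInt H) : ev ζ (∑ i ∈ s, f i) = ∑ i ∈ s, ev ζ (f i) := by
  classical
  obtain ⟨h1, h2, -⟩ := CenA_basic ζ
  induction s using Finset.induction_on with
  | empty =>
    rw [Finset.sum_empty, Finset.sum_empty]
    have := h2 0 0
    simpa using this
  | insert a s ha ih => rw [Finset.sum_insert ha, Finset.sum_insert ha, h1, ih]

open Classical in
/-- A central element is a combination of class sums. -/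
theorem Alg_decomp {H : Type} [Group H] [Fintype H] (α : MonoidAlgebra AInt H) (hα : Ctr α) :
    α = ∑ K : ConjClasses H, α.coeff (Quotient.out K) • clsum (Quotient.out K) := by
  refine MonoidAlgebra.ext ?_
  ext x
  rw [MonoidAlgebra.coeff_sum, Finsupp.finsetSum_apply]
  have hmk : ∀ K : ConjClasses H, ConjClasses.mk (Quotient.out K) = K := fun K => Quotient.out_eq K
  rw [Finset.sum_eq_single (ConjClasses.mk x)]
  · have hc : IsConj (Quotient.out (ConjClasses.mk x)) x := by
      rw [← ConjClasses.mk_eq_mk_iff_isConj]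
      exact hmk _
    rw [MonoidAlgebra.coeff_smul_apply, Alg_clsum_coeff, if_pos hc, smul_eq_mul, mul_one]
    obtain ⟨c, hc'⟩ := isConj_iff.1 hc
    have h1 := hα c (Quotient.out (ConjClasses.mk x))
    rw [hc'] at h1
    rw [h1]
  · intro K _ hK
    have hc : ¬ IsConj (Quotient.out K) x := by
      intro h
      rw [← ConjClasses.mk_eq_mk_iff_isConj, hmk] at h
      exact hK h
    rw [MonoidAlgebra.coeff_smul_apply, Alg_clsum_coeff, if_neg hc, smul_zero]
  · intro h
    exact absurd (Finset.mem_univ _) h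

theorem Alg_ne {H : Type} [Group H] [Fintype H] {ζ : H → ℂ} (hζ : ζ ∈ Irr H) : ζ 1 ≠ 0 := by
  obtain ⟨n, hn, hn1⟩ := irr_deg hζ
  rw [hn1]
  exact_mod_cast hn.ne'

theorem Alg_ev_one {H : Type} [Group H] [Fintype H] (ζ : H → ℂ) : ev ζ 1 = ζ 1 := by
  have h := (CenA_basic ζ).2.2 1
  rw [map_one] at h
  exact h

theorem Alg_clsum {H : Type} [Group H] [Fintype H] (ζ : H → ℂ) (hζ : ζ ∈ Irr H) (g : H) :
    omg ζ (clsum g) = omega ζ g := by
  have h := CenA_scalar ζ hζ g 1
  rw [mul_one, Alg_ev_one] at h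
  unfold omg
  rw [h, mul_div_assoc, div_self (Alg_ne hζ), mul_one]

open Classical in
/-- HINT: the sum over the group of `α.coeff h * ζ h`, grouped into conjugacy classes; compare
`T_eq` in `KB/Contr.lean` or `CongB_TA` in `KBZ/CongB.lean`. -/
theorem Alg_sum {H : Type} [Group H] [Fintype H] (ζ : H → ℂ) (hζ : ζ ∈ Irr H)
    (α : MonoidAlgebra AInt H) (hα : Ctr α) :
    omg ζ α = ∑ K : ConjClasses H, ((α.coeff (Quotient.out K) : AInt) : ℂ) *
      omega ζ (Quotient.out K) := by
  obtain ⟨-, h2, -⟩ := CenA_basic ζ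
  unfold omg
  conv_lhs => rw [Alg_decomp α hα, Alg_ev_sum, Finset.sum_div]
  refine Finset.sum_congr rfl fun K _ => ?_
  rw [h2, mul_div_assoc, ← Alg_clsum ζ hζ]
  rfl

/-- HINT: `Alg_sum`, `irr_omega`. -/
theorem Alg_int {H : Type} [Group H] [Fintype H] (ζ : H → ℂ) (hζ : ζ ∈ Irr H)
    (α : MonoidAlgebra AInt H) (hα : Ctr α) : IsIntegral ℤ (omg ζ α) := by
  rw [Alg_sum ζ hζ α hα]
  exact IsIntegral.sum _ fun K _ => (α.coeff (Quotient.out K)).2.mul (irr_omega hζ _)

/-- HINT: Schur: a central element acts as a scalar in the representation (compare `CenA_scalar`), or: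
both sides are linear in `β`; `α` is a combination of class sums and `CenA_scalar`. -/
theorem Alg_schur {H : Type} [Group H] [Fintype H] (ζ : H → ℂ) (hζ : ζ ∈ Irr H)
    (α β : MonoidAlgebra AInt H) (hα : Ctr α) : ev ζ (α * β) = omg ζ α * ev ζ β := by
  obtain ⟨-, h2, -⟩ := CenA_basic ζ
  rw [Alg_sum ζ hζ α hα]
  conv_lhs => rw [Alg_decomp α hα, Finset.sum_mul, Alg_ev_sum]
  rw [Finset.sum_mul]
  refine Finset.sum_congr rfl fun K _ => ?_
  rw [smul_mul_assoc, h2, CenA_scalar ζ hζ]
  ring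

theorem Alg_mul {H : Type} [Group H] [Fintype H] (ζ : H → ℂ) (hζ : ζ ∈ Irr H)
    (α β : MonoidAlgebra AInt H) (hα : Ctr α) : omg ζ (α * β) = omg ζ α * omg ζ β := by
  have h := Alg_schur ζ hζ α β hα
  rw [omg, h, mul_div_assoc]
  rfl

theorem Alg_add {H : Type} [Group H] [Fintype H] (ζ : H → ℂ) (α β : MonoidAlgebra AInt H) :
    omg ζ (α + β) = omg ζ α + omg ζ β := by
  unfold omg
  rw [(CenA_basic ζ).1, add_div]

theorem Alg_sub {H : Type} [Group H] [Fintype H] (ζ : H → ℂ) (α β : MonoidAlgebra AInt H) :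
    omg ζ (α - β) = omg ζ α - omg ζ β := by
  have h := Alg_add ζ (α - β) β
  rw [sub_add_cancel] at h
  rw [h, add_sub_cancel_right]

theorem Alg_const {H : Type} [Group H] [Fintype H] (ζ : H → ℂ) (hζ : ζ ∈ Irr H) (c : AInt) :
    omg ζ (algebraMap AInt (MonoidAlgebra AInt H) c) = (c : ℂ) := by
  unfold omg
  rw [Algebra.algebraMap_eq_smul_one, (CenA_basic ζ).2.1, Alg_ev_one, mul_div_assoc,
    div_self (Alg_ne hζ), mul_one]

/-- HINT: for all `x` and all irreducible `ζ`: `∑ g, α.coeff g * ζ (x⁻¹ * g)`-type values vanish: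
`ev ζ (α * of x) = omg ζ α * ζ x = 0`. With `X` the enumeration of `Col_main`:
`∑ i, X i 1⁻¹ * ev (X i) (α * of x) = ∑ g, α.coeff g * ∑ i, X i (g * x) * X i 1⁻¹ = α.coeff x⁻¹ * |H|`. -/
theorem Alg_zero {H : Type} [Group H] [Fintype H] (α : MonoidAlgebra AInt H) (hα : Ctr α)
    (h0 : ∀ ζ ∈ Irr H, omg ζ α = 0) : α = 0 := by
  have h1 : (fun g : H => ((α.coeff g⁻¹ : AInt) : ℂ)) = 0 := by
    refine ColA_main _ ?_ ?_
    · intro g h hgh
      obtain ⟨c, hc⟩ := isConj_iff.1 hgh
      have h2 := hα c g⁻¹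
      have h3 : c * g⁻¹ * c⁻¹ = h⁻¹ := by
        rw [← hc]
        group
      rw [h3] at h2
      change ((α.coeff g⁻¹ : AInt) : ℂ) = ((α.coeff h⁻¹ : AInt) : ℂ)
      rw [h2]
    · intro χ hχ
      have h2 := h0 χ hχ
      unfold omg at h2
      rcases div_eq_zero_iff.1 h2 with h3 | h3
      · simp only [inv_inv]
        exact h3
      · exact absurd h3 (Alg_ne hχ)
  refine MonoidAlgebra.ext ?_
  ext x
  have h2 := congrFun h1 x⁻¹
  simpa using h2

end Pool.Agent.KBU
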