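import Pool.Agent.KBU.Act
import Pool.Agent.KBU.Alg

/-! The Brauer homomorphism. -/

namespace Pool.Agent.KBU

open Pool.Agent.KB Pool.Agent.KB.ContrAux Pool.Agent.KBL

/-- Restriction of the coefficients along an (injective) homomorphism. -/
noncomputable def trc {H H' : Type} [Group H] [Group H'] [Fintype H'] (ι : H' →* H)
    (α : MonoidAlgebra AInt H) : MonoidAlgebra AInt H' :=
  ∑ x : H', MonoidAlgebra.single x (α.coeff (ι x))

theorem Br_coeff {H H' : Type} [Group H] [Group H'] [Fintype H'] (ι : H' →* H)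
    (α : MonoidAlgebra AInt H) (x : H') : (trc ι α).coeff x = α.coeff (ι x) := by
  classical
  unfold trc
  rw [MonoidAlgebra.coeff_sum, Finsupp.finsetSum_apply]
  simp only [MonoidAlgebra.coeff_single, Finsupp.single_apply]
  rw [Finset.sum_ite_eq' Finset.univ x (fun y => α.coeff (ι y)), if_pos (Finset.mem_univ _)]

theorem Br_add {H H' : Type} [Group H] [Group H'] [Fintype H'] (ι : H' →* H)
    (α β : MonoidAlgebra AInt H) : trc ι (α + β) = trc ι α + trc ι β := by
  apply MonoidAlgebra.coeff_injective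
  ext x
  rw [MonoidAlgebra.coeff_add, Finsupp.add_apply, Br_coeff, Br_coeff, Br_coeff,
    MonoidAlgebra.coeff_add, Finsupp.add_apply]

theorem Br_sub {H H' : Type} [Group H] [Group H'] [Fintype H'] (ι : H' →* H)
    (α β : MonoidAlgebra AInt H) : trc ι (α - β) = trc ι α - trc ι β := by
  apply MonoidAlgebra.coeff_injective
  ext x
  rw [MonoidAlgebra.coeff_sub, Finsupp.sub_apply, Br_coeff, Br_coeff, Br_coeff,
    MonoidAlgebra.coeff_sub, Finsupp.sub_apply]

theorem Br_const {H H' : Type} [Group H] [Group H'] [Fintype H'] (ι : H' →* H)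
    (hι : Function.Injective ι) (c : AInt) :
    trc ι (algebraMap AInt (MonoidAlgebra AInt H) c) =
      algebraMap AInt (MonoidAlgebra AInt H') c := by
  classical
  apply MonoidAlgebra.coeff_injective
  ext x
  rw [Br_coeff]
  have h1 : ∀ (K : Type) [Group K] (y : K),
      (algebraMap AInt (MonoidAlgebra AInt K) c).coeff y = if (1 : K) = y then c else 0 := by
    intro K _ y
    rw [MonoidAlgebra.coe_algebraMap, Function.comp_apply, MonoidAlgebra.coeff_single,
      Finsupp.single_apply]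
    rfl
  rw [h1, h1]
  by_cases h : (1 : H') = x
  · rw [if_pos h, if_pos (by rw [← h, map_one])]
  · rw [if_neg h, if_neg]
    intro h2
    apply h
    apply hι
    rw [map_one, h2]

theorem Br_ctr {H H' : Type} [Group H] [Group H'] [Fintype H'] (ι : H' →* H)
    (α : MonoidAlgebra AInt H) (hα : Ctr α) : Ctr (trc ι α) := by
  intro g x
  have h1 : ι (g * x * g⁻¹) = ι g * ι x * (ι g)⁻¹ := by
    rw [map_mul, map_mul, map_inv]
  rw [Br_coeff, Br_coeff, h1]
  exact hα _ _

/-- coefficients of a product -/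
theorem Br_prod {H : Type} [Group H] [Fintype H] (α β : MonoidAlgebra AInt H) (x : H) :
    (α * β).coeff x = ∑ y : H, α.coeff y * β.coeff (y⁻¹ * x) := by
  rw [MonoidAlgebra.coeff_mul_apply_left]
  rw [Finsupp.sum_fintype]
  intro y
  rw [zero_mul]

/-- conjugation -/
@[reducible] def Br_act {H : Type} [Group H] (D : Subgroup H) : MulAction D H where
  smul := fun g y => (g : H) * y * (g : H)⁻¹
  one_smul := fun y => by
    show ((1 : D) : H) * y * ((1 : D) : H)⁻¹ = y
    simp
  mul_smul := fun g h y => by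
    show ((g * h : D) : H) * y * ((g * h : D) : H)⁻¹ =
      (g : H) * ((h : H) * y * (h : H)⁻¹) * (g : H)⁻¹
    push_cast
    group

/-- The Brauer homomorphism is multiplicative modulo `p`. -/
theorem Br_mul {H H' : Type} [Group H] [Fintype H] [Group H'] [Fintype H'] (p : ℕ) (hp : p.Prime)
    (D : Subgroup H) (hD : IsPGroup p D) (ι : H' →* H) (hι : Function.Injective ι)
    (hr : ∀ x : H, (∃ y, ι y = x) ↔ ∀ g ∈ D, g * x = x * g)
    (α β : MonoidAlgebra AInt H) (hα : Ctr α) (hβ : Ctr β) (x : H') :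
    ∃ c : AInt, (trc ι (α * β)).coeff x - (trc ι α * trc ι β).coeff x = p * c := by
  classical
  obtain ⟨f, hf⟩ : ∃ f : H → AInt, ∀ y, f y = α.coeff y * β.coeff (y⁻¹ * ι x) :=
    ⟨_, fun _ => rfl⟩
  have hinv : ∀ (g : D) (y : H), f ((g : H) * y * (g : H)⁻¹) = f y := by
    intro g y
    have h1 : (g : H) * ι x = ι x * g := (hr (ι x)).1 ⟨x, rfl⟩ g g.2
    have h2 : ((g : H) * y * (g : H)⁻¹)⁻¹ * ι x = (g : H) * (y⁻¹ * ι x) * (g : H)⁻¹ := by
      have h3 : (g : H)⁻¹ * ι x = ι x * (g : H)⁻¹ := by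
        calc (g : H)⁻¹ * ι x = (g : H)⁻¹ * (ι x * g) * (g : H)⁻¹ := by group
          _ = (g : H)⁻¹ * (g * ι x) * (g : H)⁻¹ := by rw [h1]
          _ = ι x * (g : H)⁻¹ := by group
      calc ((g : H) * y * (g : H)⁻¹)⁻¹ * ι x = (g : H) * y⁻¹ * ((g : H)⁻¹ * ι x) := by group
        _ = (g : H) * y⁻¹ * (ι x * (g : H)⁻¹) := by rw [h3]
        _ = (g : H) * (y⁻¹ * ι x) * (g : H)⁻¹ := by group
    rw [hf, hf, h2, hα, hβ]
  have hmain := @Act_main D H AInt _ _ _ (Br_act D) _ p hp hD f (fun g y => hinv g y)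
  obtain ⟨c, hc⟩ := hmain
  refine ⟨c, ?_⟩
  have e1 : (trc ι (α * β)).coeff x = ∑ y : H, f y := by
    rw [Br_coeff, Br_prod]
    exact Finset.sum_congr rfl fun y _ => (hf y).symm
  rw [← hc, e1, Br_prod]
  congr 1
  -- the sum over the fixed points
  refine Finset.sum_bij (fun z _ => ι z) ?_ ?_ ?_ ?_
  · intro z _
    refine (@Finset.mem_filter _ _ (_) _ _).2 ⟨Finset.mem_univ _, fun g => ?_⟩
    have h1 : (g : H) * ι z = ι z * g := (hr (ι z)).1 ⟨z, rfl⟩ g g.2
    show (g : H) * ι z * (g : H)⁻¹ = ι z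
    rw [h1, mul_inv_cancel_right]
  · intro a _ b _ h
    exact hι h
  · intro y hy
    have hy := (@Finset.mem_filter _ _ (_) _ _).1 hy
    have h1 : ∀ g ∈ D, g * y = y * g := by
      intro g hg
      have h2 : g * y * g⁻¹ = y := hy.2 ⟨g, hg⟩
      calc g * y = g * y * g⁻¹ * g := by group
        _ = y * g := by rw [h2]
    obtain ⟨z, hz⟩ := (hr y).2 h1
    exact ⟨z, Finset.mem_univ _, hz⟩
  · intro z _
    have h1 : ι (z⁻¹ * x) = (ι z)⁻¹ * ι x := by rw [map_mul, map_inv]
    rw [hf, Br_coeff, Br_coeff, h1]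

end Pool.Agent.KBU
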