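import Pool.Agent.KBU.Sep
import Pool.Agent.KBU.Br

/-! The central character of the block comes from the centralizer of `D`. -/

namespace Pool.Agent.KBU

open Pool.Agent.KB Pool.Agent.KB.ContrAux Pool.Agent.KBL

theorem Ext_prime {𝔪 : Ideal AInt} (h𝔪 : 𝔪.IsMaximal) {z w : ℂ} (hz : IsIntegral ℤ z)
    (hw : IsIntegral ℤ w) (h : InM 𝔪 (z * w)) : InM 𝔪 z ∨ InM 𝔪 w := by
  obtain ⟨c, hc, hcz⟩ := h
  have h1 : c = (⟨z, hz⟩ : AInt) * ⟨w, hw⟩ := by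
    apply Subtype.ext
    rw [hcz]
    push_cast
    rfl
  rw [h1] at hc
  rcases h𝔪.isPrime.mem_or_mem hc with h2 | h2
  · exact Or.inl ⟨_, h2, rfl⟩
  · exact Or.inr ⟨_, h2, rfl⟩

theorem Ext_one {𝔪 : Ideal AInt} (h𝔪 : 𝔪.IsMaximal) : ¬ InM 𝔪 1 := by
  rintro ⟨c, hc, h⟩
  have h1 : c = 1 := by
    apply Subtype.ext
    rw [h]
    rfl
  rw [h1] at hc
  exact h𝔪.ne_top ((Ideal.eq_top_iff_one _).2 hc)

/-- Reduction of the coefficients. -/
noncomputable def Ext_red {H : Type} [Group H] (𝔪 : Ideal AInt) :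
    MonoidAlgebra AInt H →+* MonoidAlgebra (AInt ⧸ 𝔪) H :=
  MonoidAlgebra.mapRingHom H (Ideal.Quotient.mk 𝔪)

theorem Ext_red_eq {H : Type} [Group H] (𝔪 : Ideal AInt) (α β : MonoidAlgebra AInt H) :
    Ext_red 𝔪 α = Ext_red 𝔪 β ↔ ∀ x, α.coeff x - β.coeff x ∈ 𝔪 := by
  constructor
  · intro h x
    have h1 := congrArg (fun δ => δ.coeff x) h
    simp only [Ext_red, MonoidAlgebra.coeff_mapRingHom] at h1
    exact Ideal.Quotient.eq.1 h1
  · intro h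
    apply MonoidAlgebra.ext
    apply Finsupp.ext
    intro x
    simp only [Ext_red, MonoidAlgebra.coeff_mapRingHom]
    exact Ideal.Quotient.eq.2 (h x)

theorem Ext_small {H : Type} [Group H] [Fintype H] (𝔪 : Ideal AInt) (ζ : H → ℂ) (hζ : ζ ∈ Irr H)
    (δ : MonoidAlgebra AInt H) (hδ : Ctr δ) (h : ∀ x, δ.coeff x ∈ 𝔪) : InM 𝔪 (omg ζ δ) := by
  classical
  rw [Alg_sum ζ hζ δ hδ]
  refine InM_sum _ _ fun K _ => ?_
  rw [mul_comm]
  exact InM_mul (irr_omega hζ _) ⟨_, h _, rfl⟩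

theorem Ext_step {G H' : Type} [Group G] [Fintype G] [Group H'] [Fintype H'] (p : ℕ)
    (hp : p.Prime) (𝔪 : Ideal AInt) (h𝔪 : 𝔪.IsMaximal) (hp𝔪 : (p : AInt) ∈ 𝔪)
    (D : Subgroup G) (hD : IsPGroup p D) (ι : H' →* G) (hι : Function.Injective ι)
    (hr : ∀ x : G, (∃ y, ι y = x) ↔ ∀ g ∈ D, g * x = x * g)
    (χ₀ : G → ℂ) (hχ₀ : χ₀ ∈ Irr G) {K : ℕ} (X : Fin K → H' → ℂ) (hX : Set.range X = Irr H')
    (hcon : ∀ θ ∈ Irr H', ∃ α : MonoidAlgebra AInt G, Ctr α ∧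
      ¬ InM 𝔪 (omg χ₀ α - omg θ (trc ι α)))
    (s : Finset (Fin K)) :
    ∃ γ : MonoidAlgebra AInt G, Ctr γ ∧ ¬ InM 𝔪 (omg χ₀ γ) ∧
      ∀ i ∈ s, InM 𝔪 (omg (X i) (trc ι γ)) := by
  classical
  have hXi : ∀ i, X i ∈ Irr H' := fun i => hX ▸ Set.mem_range_self i
  induction s using Finset.induction_on with
  | empty =>
    refine ⟨algebraMap AInt (MonoidAlgebra AInt G) 1, Alg_ctr_const 1, ?_, fun i hi => ?_⟩
    · rw [Alg_const χ₀ hχ₀]
      exact Ext_one h𝔪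
    · simp at hi
  | insert i s _ ih =>
    obtain ⟨γ, hγ, hγ0, hγs⟩ := ih
    obtain ⟨α, hα, hαn⟩ := hcon (X i) (hXi i)
    have hint : IsIntegral ℤ (omg (X i) (trc ι α)) := Alg_int _ (hXi i) _ (Br_ctr ι α hα)
    set w : AInt := ⟨omg (X i) (trc ι α), hint⟩ with hw
    have hwc : (w : ℂ) = omg (X i) (trc ι α) := rfl
    set β : MonoidAlgebra AInt G := α - algebraMap AInt (MonoidAlgebra AInt G) w with hβ
    have hβc : Ctr β := Alg_ctr_sub _ _ hα (Alg_ctr_const w)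
    have hγβ : Ctr (γ * β) := Alg_ctr_mul _ _ hγ hβc
    have hval : omg χ₀ β = omg χ₀ α - omg (X i) (trc ι α) := by
      rw [hβ, Alg_sub, Alg_const χ₀ hχ₀, hwc]
    have htβ : trc ι β = trc ι α - algebraMap AInt (MonoidAlgebra AInt H') w := by
      rw [hβ, Br_sub, Br_const ι hι]
    have hprod : ∀ j, InM 𝔪 (omg (X j) (trc ι (γ * β)) -
        omg (X j) (trc ι γ) * omg (X j) (trc ι β)) := by
      intro j
      rw [← Alg_mul (X j) (hXi j) _ _ (Br_ctr ι γ hγ), ← Alg_sub]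
      refine Ext_small 𝔪 (X j) (hXi j) _ (Alg_ctr_sub _ _ (Br_ctr ι _ hγβ)
        (Alg_ctr_mul _ _ (Br_ctr ι γ hγ) (Br_ctr ι β hβc))) fun x => ?_
      obtain ⟨c, hc⟩ := Br_mul p hp D hD ι hι hr γ β hγ hβc x
      rw [MonoidAlgebra.coeff_sub, Finsupp.sub_apply, hc]
      exact 𝔪.mul_mem_right _ hp𝔪
    refine ⟨γ * β, hγβ, ?_, fun j hj => ?_⟩
    · rw [Alg_mul χ₀ hχ₀ γ β hγ]
      intro h
      rcases Ext_prime h𝔪 (Alg_int χ₀ hχ₀ γ hγ) (Alg_int χ₀ hχ₀ β hβc) h with h1 | h1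
      · exact hγ0 h1
      · rw [hval] at h1
        exact hαn h1
    · have h1 : InM 𝔪 (omg (X j) (trc ι γ) * omg (X j) (trc ι β)) := by
        rcases Finset.mem_insert.1 hj with rfl | hj
        · have h2 : omg (X j) (trc ι β) = 0 := by
            rw [htβ, Alg_sub, Alg_const (X j) (hXi j), hwc, sub_self]
          rw [h2, mul_zero]
          exact InM_zero 𝔪
        · rw [mul_comm]
          exact InM_mul (Alg_int (X j) (hXi j) _ (Br_ctr ι β hβc)) (hγs j hj)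
      have h3 := InM_add (hprod j) h1
      rwa [sub_add_cancel] at h3

/-- HINT: suppose not; for every `θ` (enumeration `X` of `Irr H'`) there is a central `α θ` with
`omg χ₀ (α θ) - omg θ (trc ι (α θ)) ∉ 𝔪`; let `w θ : AInt` be `omg θ (trc ι (α θ))`. By induction over a
`Finset` `s` of indices there is a central `γ` with `omg χ₀ γ ∉ 𝔪` and `omg θ (trc ι γ) ∈ 𝔪` for `θ ∈ s`
(multiply by `α θ - w θ`; `Br_mul`, and an element with all coefficients in `𝔪` (central) has all `omg`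
in `𝔪` by `Alg_sum`). For `s = univ`: `Sep_nil` for `δ = trc ι γ`: all coefficients of `δ ^ n` are in
`𝔪`, and by `Br_mul` (induction on `n`) those of `trc ι (γ ^ n)` too. So `(γ^n).coeff g * omega χ₀ g`
is in `𝔪` for all `g` (if `omega χ₀ g ∉ 𝔪` then `g` is conjugate to an element of the range of `ι`), so
`omg χ₀ (γ^n) = (omg χ₀ γ)^n ∈ 𝔪` by `Alg_sum`. -/
theorem Ext_main {G H' : Type} [Group G] [Fintype G] [Group H'] [Fintype H'] (p : ℕ)
    (hp : p.Prime) (𝔪 : Ideal AInt) (h𝔪 : 𝔪.IsMaximal) (hp𝔪 : (p : AInt) ∈ 𝔪)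
    (D : Subgroup G) (hD : IsPGroup p D) (ι : H' →* G) (hι : Function.Injective ι)
    (hr : ∀ x : G, (∃ y, ι y = x) ↔ ∀ g ∈ D, g * x = x * g)
    (χ₀ : G → ℂ) (hχ₀ : χ₀ ∈ Irr G)
    (hD2 : ∀ x : G, ¬ InM 𝔪 (omega χ₀ x) → ∃ a : G, IsConj x a ∧ ∀ u ∈ D, u * a = a * u) :
    ∃ θ ∈ Irr H', ∀ α : MonoidAlgebra AInt G, Ctr α → InM 𝔪 (omg χ₀ α - omg θ (trc ι α)) := by
  classical
  by_contra hcon
  push Not at hcon
  obtain ⟨K, X, -, hX, -, -⟩ := Col_main H'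
  obtain ⟨γ, hγ, hγ0, hγs⟩ := Ext_step p hp 𝔪 h𝔪 hp𝔪 D hD ι hι hr χ₀ hχ₀ X hX hcon Finset.univ
  have hall : ∀ ζ ∈ Irr H', InM 𝔪 (omg ζ (trc ι γ)) := by
    intro ζ hζ
    rw [← hX] at hζ
    obtain ⟨i, rfl⟩ := hζ
    exact hγs i (Finset.mem_univ i)
  obtain ⟨n, -, hn⟩ := Sep_nil 𝔪 (trc ι γ) (Br_ctr ι γ hγ) hall
  have hone : trc ι (1 : MonoidAlgebra AInt G) = 1 := by
    have := Br_const ι hι 1
    rw [map_one, map_one] at this
    exact this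
  have hctr1 : Ctr (1 : MonoidAlgebra AInt G) := by
    have := Alg_ctr_const (H := G) 1
    rw [map_one] at this
    exact this
  have hpow : ∀ N : ℕ, Ctr (γ ^ N) ∧ Ext_red 𝔪 (trc ι (γ ^ N)) = (Ext_red 𝔪 (trc ι γ)) ^ N ∧
      omg χ₀ (γ ^ N) = (omg χ₀ γ) ^ N := by
    intro N
    induction N with
    | zero =>
      refine ⟨by rw [pow_zero]; exact hctr1, ?_, ?_⟩
      · rw [pow_zero, pow_zero, hone, map_one]
      · have := Alg_const χ₀ hχ₀ 1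
        rw [map_one] at this
        rw [pow_zero, pow_zero, this]
        rfl
    | succ N ih =>
      obtain ⟨h1, h2, h3⟩ := ih
      refine ⟨by rw [pow_succ]; exact Alg_ctr_mul _ _ h1 hγ, ?_, ?_⟩
      · rw [pow_succ, pow_succ, ← h2, ← map_mul, Ext_red_eq]
        intro x
        obtain ⟨c, hc⟩ := Br_mul p hp D hD ι hι hr (γ ^ N) γ h1 hγ x
        rw [hc]
        exact 𝔪.mul_mem_right _ hp𝔪
      · rw [pow_succ, pow_succ, Alg_mul χ₀ hχ₀ _ _ h1, h3]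
  obtain ⟨h1, h2, h3⟩ := hpow n
  have hzero : Ext_red 𝔪 (trc ι (γ ^ n)) = Ext_red 𝔪 0 := by
    rw [h2, ← map_pow, Ext_red_eq]
    intro x
    simpa using hn x
  rw [Ext_red_eq] at hzero
  have hin : InM 𝔪 (omg χ₀ (γ ^ n)) := by
    rw [Alg_sum χ₀ hχ₀ _ h1]
    refine InM_sum _ _ fun C _ => ?_
    by_cases hC : InM 𝔪 (omega χ₀ (Quotient.out C))
    · exact InM_mul (((γ ^ n).coeff (Quotient.out C)).2) hC
    · obtain ⟨a, ha, haD⟩ := hD2 _ hC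
      obtain ⟨y, hy⟩ := (hr a).2 haD
      have h4 : (γ ^ n).coeff (Quotient.out C) = (trc ι (γ ^ n)).coeff y := by
        rw [Br_coeff, hy]
        obtain ⟨g, hg⟩ := isConj_iff.1 ha
        rw [← hg]
        exact (h1 g _).symm
      rw [mul_comm, h4]
      refine InM_mul (irr_omega hχ₀ _) ⟨_, ?_, rfl⟩
      simpa using hzero y
  rw [h3] at hin
  have hfin : ∀ N : ℕ, ¬ InM 𝔪 ((omg χ₀ γ) ^ N) := by
    intro N
    induction N with
    | zero => rw [pow_zero]; exact Ext_one h𝔪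
    | succ N ih =>
      rw [pow_succ]
      intro h
      have hi := Alg_int χ₀ hχ₀ γ hγ
      rcases Ext_prime h𝔪 (hi.pow N) hi h with h5 | h5
      · exact ih h5
      · exact hγ0 h5
  exact hfin n hin

end Pool.Agent.KBU
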