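import Pool.Agent.KB.Contr
import Pool.Agent.KBZ.UOne

/-! Inflation along the quotient by a central subgroup of order `p`. -/

namespace Pool.Agent.KBU

open Pool.Agent.KB Pool.Agent.KB.ContrAux

/-- Pulling back along a surjection does not change the subrepresentations. -/
def Inf_iso {H Q V : Type} [Group H] [Group Q] [AddCommGroup V] [Module ℂ V] (π : H →* Q)
    (hπ : Function.Surjective π) (ρ : Representation ℂ Q V) :
    Subrepresentation (ρ.comp π : Representation ℂ H V) ≃o Subrepresentation ρ where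
  toFun S := ⟨S.toSubmodule, fun q v hv => by
    obtain ⟨h, rfl⟩ := hπ q
    exact S.apply_mem_toSubmodule h hv⟩
  invFun S := ⟨S.toSubmodule, fun h v hv => S.apply_mem_toSubmodule (π h) hv⟩
  left_inv _ := rfl
  right_inv _ := rfl
  map_rel_iff' := Iff.rfl

/-- HINT: compose the representation with `π`; a subspace invariant under `H` is invariant under `Q`
(`π` is surjective). Compare `KBZ.UOne_irr`. -/
theorem Inf_irr {H Q : Type} [Group H] [Group Q] (π : H →* Q) (hπ : Function.Surjective π)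
    (χ : Q → ℂ) (hχ : χ ∈ Irr Q) : (fun h => χ (π h)) ∈ Irr H := by
  obtain ⟨n, ρ, hρ, rfl⟩ := hχ
  refine ⟨n, ρ.comp π, ?_, rfl⟩
  exact (OrderIso.isSimpleOrder_iff (Inf_iso π hπ ρ)).2 hρ

/-- HINT: `h' = h * n` with `n` in the kernel, `n` commutes with `h`; `m` the order of `h` times the
order of `h'` (prime to `p`): `1 = h' ^ m = h ^ m * n ^ m = n ^ m`, and `n ^ p = 1`. -/
theorem Inf_inj {H Q : Type} [Group H] [Finite H] [Group Q] (p : ℕ) (hp : p.Prime) (π : H →* Q)
    (z : H) (hz : orderOf z = p) (hcen : ∀ y : H, y * z = z * y)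
    (hker : ∀ x : H, π x = 1 ↔ x ∈ Subgroup.zpowers z) (h h' : H) (hh : ¬ p ∣ orderOf h)
    (hh' : ¬ p ∣ orderOf h') (e : π h = π h') : h = h' := by
  have h1 : π (h⁻¹ * h') = 1 := by rw [map_mul, map_inv, e, inv_mul_cancel]
  have h2 := (hker _).1 h1
  obtain ⟨n, hn⟩ : ∃ n, n = h⁻¹ * h' := ⟨_, rfl⟩
  rw [← hn] at h2
  have h3 : h' = h * n := by rw [hn, mul_inv_cancel_left]
  have h4 : Commute h n := by
    obtain ⟨k, hk⟩ := Subgroup.mem_zpowers_iff.1 h2
    rw [← hk]
    exact (show Commute h z from hcen h).zpow_right k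
  have h5 : orderOf n ∣ p := by
    obtain ⟨k, hk⟩ := Subgroup.mem_zpowers_iff.1 h2
    rw [← hk, ← hz]
    exact orderOf_dvd_of_pow_eq_one (by
      rw [← zpow_natCast, ← zpow_mul, mul_comm, zpow_mul, zpow_natCast, pow_orderOf_eq_one,
        one_zpow])
  have h6 : orderOf n ∣ orderOf h * orderOf h' := by
    apply orderOf_dvd_of_pow_eq_one
    have h7 : h' ^ (orderOf h * orderOf h') = 1 := by
      rw [mul_comm, pow_mul, pow_orderOf_eq_one, one_pow]
    rw [h3, h4.mul_pow, pow_mul, pow_orderOf_eq_one, one_pow, one_mul] at h7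
    rw [← h3] at h7
    exact h7
  have h7 : orderOf n = 1 := by
    rcases (Nat.dvd_prime hp).1 h5 with h8 | h8
    · exact h8
    · exfalso
      rw [h8] at h6
      rcases (hp.dvd_mul).1 h6 with h9 | h9
      · exact hh h9
      · exact hh' h9
  have h8 : n = 1 := orderOf_eq_one_iff.1 h7
  rw [h3, h8, mul_one]

/-- HINT: let `x` be a preimage of `q`, `orderOf x = p ^ a * m` with `p ∤ m`; take `k` with `k ≡ 0` modulo
`p ^ a` and `k ≡ 1` modulo `m` (`Nat.chineseRemainder`), `h = x ^ k`; `orderOf q` divides `m`. -/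
theorem Inf_lift {H Q : Type} [Group H] [Finite H] [Group Q] (p : ℕ) (hp : p.Prime) (π : H →* Q)
    (hπ : Function.Surjective π) (q : Q) (hq : ¬ p ∣ orderOf q) :
    ∃ h : H, ¬ p ∣ orderOf h ∧ π h = q := by
  obtain ⟨x, hx⟩ := hπ q
  have h0 : orderOf x ≠ 0 := (orderOf_pos x).ne'
  obtain ⟨a, m, hm, ham⟩ := Nat.exists_eq_pow_mul_and_not_dvd h0 p hp.ne_one
  have hcop : (p ^ a).Coprime m := Nat.Coprime.pow_left a ((hp.coprime_iff_not_dvd).2 hm)
  obtain ⟨k, hk1, hk2⟩ := Nat.chineseRemainder hcop 0 1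
  refine ⟨x ^ k, ?_, ?_⟩
  · have h1 : orderOf (x ^ k) ∣ m := by
      apply orderOf_dvd_of_pow_eq_one
      rw [← pow_mul]
      apply orderOf_dvd_iff_pow_eq_one.1
      rw [ham]
      exact Nat.mul_dvd_mul_right ((Nat.modEq_zero_iff_dvd).1 hk1) m
    exact fun h => hm (h.trans h1)
  · rw [map_pow, hx]
    have h1 : orderOf q ∣ m := by
      have h2 : orderOf q ∣ p ^ a * m := by
        rw [← ham, ← hx]
        exact orderOf_map_dvd π x
      have h3 : (orderOf q).Coprime (p ^ a) :=
        (Nat.Coprime.pow_left a ((hp.coprime_iff_not_dvd).2 hq)).symm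
      exact h3.dvd_of_dvd_mul_left h2
    have h2 : k ≡ 1 [MOD orderOf q] := hk2.of_dvd h1
    have h3 := pow_eq_pow_iff_modEq.2 h2
    rw [h3, pow_one]

/-- conjugate elements have the same order -/
theorem Inf_ord {G : Type} [Group G] {g h : G} (hgh : IsConj g h) : orderOf g = orderOf h := by
  obtain ⟨c, rfl⟩ := isConj_iff.1 hgh
  exact (orderOf_injective (MulAut.conj c).toMonoidHom (MulAut.conj c).injective g).symm

/-- HINT: if `π h' = π g * π h * (π g)⁻¹` then `h' = g * h * g⁻¹` by `Inf_inj`. -/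
theorem Inf_conj {H Q : Type} [Group H] [Finite H] [Group Q] (p : ℕ) (hp : p.Prime) (π : H →* Q)
    (hπ : Function.Surjective π) (z : H) (hz : orderOf z = p) (hcen : ∀ y : H, y * z = z * y)
    (hker : ∀ x : H, π x = 1 ↔ x ∈ Subgroup.zpowers z) (h h' : H) (hh : ¬ p ∣ orderOf h)
    (hh' : ¬ p ∣ orderOf h') : IsConj (π h) (π h') ↔ IsConj h h' := by
  constructor
  · intro hc
    obtain ⟨c, hc⟩ := isConj_iff.1 hc
    obtain ⟨g, rfl⟩ := hπ c
    refine isConj_iff.2 ⟨g, ?_⟩
    apply Inf_inj p hp π z hz hcen hker _ _ _ hh'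
    · rw [map_mul, map_mul, map_inv, hc]
    · rw [← Inf_ord (isConj_iff.2 ⟨g, rfl⟩ : IsConj h (g * h * g⁻¹))]
      exact hh
  · exact fun hc => π.map_isConj hc

/-- HINT: `x ↦ π x` is a bijection from the class of `h` to the class of `π h`: injective by `Inf_inj`
(conjugate elements have the same order), surjective since `π` is surjective. -/
theorem Inf_card {H Q : Type} [Group H] [Finite H] [Group Q] (p : ℕ) (hp : p.Prime) (π : H →* Q)
    (hπ : Function.Surjective π) (z : H) (hz : orderOf z = p) (hcen : ∀ y : H, y * z = z * y)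
    (hker : ∀ x : H, π x = 1 ↔ x ∈ Subgroup.zpowers z) (h : H) (hh : ¬ p ∣ orderOf h) :
    Nat.card {x : H // IsConj h x} = Nat.card {x : Q // IsConj (π h) x} := by
  refine Nat.card_congr (Equiv.ofBijective
    (fun x : {x : H // IsConj h x} =>
      (⟨π x.1, π.map_isConj x.2⟩ : {x : Q // IsConj (π h) x})) ⟨?_, ?_⟩)
  · intro x y hxy
    apply Subtype.ext
    have h1 : π x.1 = π y.1 := congrArg Subtype.val hxy
    refine Inf_inj p hp π z hz hcen hker _ _ ?_ ?_ h1
    · rw [← Inf_ord x.2]; exact hh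
    · rw [← Inf_ord y.2]; exact hh
  · intro y
    obtain ⟨c, hc⟩ := isConj_iff.1 y.2
    obtain ⟨g, rfl⟩ := hπ c
    refine ⟨⟨g * h * g⁻¹, isConj_iff.2 ⟨g, rfl⟩⟩, ?_⟩
    apply Subtype.ext
    show π (g * h * g⁻¹) = y.1
    rw [map_mul, map_mul, map_inv, hc]

/-- HINT: `Inf_card`. -/
theorem Inf_omega {H Q : Type} [Group H] [Finite H] [Group Q] (p : ℕ) (hp : p.Prime) (π : H →* Q)
    (hπ : Function.Surjective π) (z : H) (hz : orderOf z = p) (hcen : ∀ y : H, y * z = z * y)
    (hker : ∀ x : H, π x = 1 ↔ x ∈ Subgroup.zpowers z) (χ : Q → ℂ) (h : H)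
    (hh : ¬ p ∣ orderOf h) : omega (fun x => χ (π x)) h = omega χ (π h) := by
  unfold omega
  rw [Inf_card p hp π hπ z hz hcen hker h hh]
  simp only [map_one]

/-- class times centralizer is the order of the group -/
theorem Inf_class {G : Type} [Group G] [Finite G] (x : G) :
    Nat.card {y : G // IsConj x y} * Nat.card (Subgroup.centralizer {x} : Subgroup G) =
      Nat.card G := by
  classical
  rw [Subgroup.nat_card_centralizer_nat_card_stabilizer]
  have h1 : Nat.card {y : G // IsConj x y} = Nat.card (MulAction.orbit (ConjAct G) x) := by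
    rw [ConjAct.orbit_eq_carrier_conjClasses]
    refine Nat.card_congr (Equiv.subtypeEquivRight fun y => ?_)
    rw [ConjClasses.mem_carrier_iff_mk_eq, ConjClasses.mk_eq_mk_iff_isConj]
    exact ⟨fun h => h.symm, fun h => h.symm⟩
  rw [h1]
  have h2 : Nat.card G = Nat.card (ConjAct G) := rfl
  rw [h2, Nat.card_congr (MulAction.orbitEquivQuotientStabilizer (ConjAct G) x)]
  exact (Subgroup.card_eq_card_quotient_mul_card_subgroup _).symm

/-- HINT: `|H| = p |Q|` and `Inf_card` (class times centralizer is the order of the group). -/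
theorem Inf_cent {H Q : Type} [Group H] [Finite H] [Group Q] [Finite Q] (p : ℕ) (hp : p.Prime)
    (π : H →* Q) (hπ : Function.Surjective π) (z : H) (hz : orderOf z = p)
    (hcen : ∀ y : H, y * z = z * y)
    (hker : ∀ x : H, π x = 1 ↔ x ∈ Subgroup.zpowers z) (h : H) (hh : ¬ p ∣ orderOf h) :
    Nat.card (Subgroup.centralizer {h} : Subgroup H) =
      p * Nat.card (Subgroup.centralizer {π h} : Subgroup Q) := by
  have h1 := Inf_class h
  have h2 := Inf_class (π h)
  have h3 : Nat.card H = Nat.card Q * p := by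
    rw [Subgroup.card_eq_card_quotient_mul_card_subgroup π.ker,
      Nat.card_congr (QuotientGroup.quotientKerEquivOfSurjective π hπ).toEquiv]
    have h4 : π.ker = Subgroup.zpowers z := by
      ext x
      rw [MonoidHom.mem_ker, hker]
    rw [h4, Nat.card_zpowers, hz]
  rw [Inf_card p hp π hπ z hz hcen hker h hh, h3, ← h2] at h1
  have h5 : 0 < Nat.card {x : Q // IsConj (π h) x} := by
    have : Nonempty {x : Q // IsConj (π h) x} := ⟨⟨π h, IsConj.refl _⟩⟩
    exact Nat.card_pos
  refine Nat.eq_of_mul_eq_mul_left h5 ?_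
  rw [h1]
  ring

end Pool.Agent.KBU
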