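import Pool.Agent.KBU.Lin

/-! The inequality for the sum of the squares of the products of units. -/

namespace Pool.Agent.KBU

open Pool.Agent.KBL

/-- HINT: `a = m % p = n % p`. If `lam` is not given by the second case: `(m - a) * (m - a + p) ≥ 0` (product of
consecutive multiples of `p`) gives `m ^ 2 ≥ a (p - a) - (p - 2 a) m` and `a (p - a) ≥ p - 1` for
`1 ≤ a ≤ p - 1`. Otherwise `A < a < p - A`, `|m| ≥ A + 1`, `m ^ 2 ≥ (A + 1)^2 ≥ p - 1`. -/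
theorem LTwo_num (p A : ℕ) (hp : p.Prime) (hA : 2 * A < p) (hA2 : p ≤ (A + 1) ^ 2 + 1) (m n : ℤ)
    (hmn : (p : ℤ) ∣ m - n) (hn : ¬ (p : ℤ) ∣ n) :
    (p : ℤ) - 1 ≤ m ^ 2 + lam p A n * m := by
  have hp0 : (0 : ℤ) < p := by exact_mod_cast hp.pos
  have hA2' : (p : ℤ) ≤ ((A : ℤ) + 1) ^ 2 + 1 := by exact_mod_cast hA2
  have hA0 : (0 : ℤ) ≤ A := Int.natCast_nonneg A
  obtain ⟨t, ht⟩ : ∃ t, m = n % p + p * t := by
    obtain ⟨q, hq⟩ := hmn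
    refine ⟨q + n / p, ?_⟩
    have := Int.emod_add_mul_ediv n p
    linarith
  have ha0 : 0 ≤ n % p := Int.emod_nonneg _ hp0.ne'
  have hap : n % p < p := Int.emod_lt_of_pos _ hp0
  have ha1 : n % p ≠ 0 := fun h => hn (Int.dvd_of_emod_eq_zero h)
  unfold lam
  generalize n % (p : ℤ) = a at ht ha0 hap ha1
  have ha1' : 1 ≤ a := by omega
  have htt : 0 ≤ t * (t + 1) := by
    rcases le_or_gt 0 t with h | h
    · exact mul_nonneg h (by omega)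
    · exact mul_nonneg_of_nonpos_of_nonpos h.le (by omega)
  split_ifs with hcase
  · have e : m ^ 2 + ((p : ℤ) - 2 * a) * m = a * (p - a) + p ^ 2 * (t * (t + 1)) := by
      rw [ht]; ring
    rw [e]
    have h1 : 0 ≤ (p : ℤ) ^ 2 * (t * (t + 1)) := mul_nonneg (sq_nonneg _) htt
    have h2 : (0 : ℤ) ≤ (a - 1) * (p - 1 - a) := mul_nonneg (by omega) (by omega)
    nlinarith
  · push Not at hcase
    obtain ⟨hc1, hc2⟩ := hcase
    rw [zero_mul, add_zero]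
    rcases le_or_gt 0 t with h | h
    · have h3 : (A : ℤ) + 1 ≤ m := by
        have : 0 ≤ (p : ℤ) * t := mul_nonneg hp0.le h
        omega
      nlinarith
    · have h3 : m ≤ -((A : ℤ) + 1) := by
        have : (p : ℤ) * t ≤ p * (-1) := mul_le_mul_of_nonneg_left (by omega) hp0.le
        omega
      nlinarith

/-- HINT: `LTwo_num` for all pairs (`TopA_bil_mod`), `Lin_main`. -/
theorem LTwo_main (p A : ℕ) (hp : p.Prime) (hA : 2 * A < p) (hA2 : p ≤ (A + 1) ^ 2 + 1) {K : ℕ}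
    {R : Type} [Fintype R]
    (M : Fin K → Fin K → ℤ) (hsymm : ∀ i j, M i j = M j i) (hpsd : ∀ x, 0 ≤ bil M x x)
    (F : ℤ) (hF : 0 ≤ F) (y : R → Fin K → ℤ)
    (hcov : ∀ x : Fin K → ℤ, ∑ r, bil M x (y r) ^ 2 ≤ F * bil M x x)
    (c : ℤ) (v : Fin K → ℤ) (hc : ¬ (p : ℤ) ∣ c)
    (hM : ∀ i j, (p : ℤ) ∣ M i j - c * v i * v j)
    (hu : ∀ r, ¬ (p : ℤ) ∣ ∑ i, y r i * v i) :
    ((p : ℤ) - 1) * (Fintype.card R : ℤ) ^ 2 ≤
      ∑ r, ∑ s, bil M (y r) (y s) ^ 2 +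
        ((A : ℤ) * ((p : ℤ) - 1 - A)) * (Fintype.card R : ℤ) * F := by
  have hpp : Prime (p : ℤ) := Nat.prime_iff_prime_int.1 hp
  have h1 := Lin_main p A hp hA M hsymm hpsd F hF y hcov c hc (fun r => ∑ i, y r i * v i) hu
  have h2 : ∀ r s, (p : ℤ) - 1 ≤ bil M (y r) (y s) ^ 2 +
      lam p A (c * (∑ i, y r i * v i) * (∑ i, y s i * v i)) * bil M (y r) (y s) := by
    intro r s
    refine LTwo_num p A hp hA hA2 _ _ (TopA_bil_mod p M c v hM (y r) (y s)) ?_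
    intro h
    rcases hpp.dvd_or_dvd h with h | h
    · rcases hpp.dvd_or_dvd h with h | h
      · exact hc h
      · exact hu r h
    · exact hu s h
  have h3 : ((p : ℤ) - 1) * (Fintype.card R : ℤ) ^ 2 = ∑ _r : R, ∑ _s : R, ((p : ℤ) - 1) := by
    simp only [Finset.sum_const, Finset.card_univ, nsmul_eq_mul]
    ring
  rw [h3]
  calc ∑ _r : R, ∑ _s : R, ((p : ℤ) - 1)
      ≤ ∑ r, ∑ s, (bil M (y r) (y s) ^ 2 +
        lam p A (c * (∑ i, y r i * v i) * (∑ i, y s i * v i)) * bil M (y r) (y s)) :=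
        Finset.sum_le_sum fun r _ => Finset.sum_le_sum fun s _ => h2 r s
    _ = ∑ r, ∑ s, bil M (y r) (y s) ^ 2 + ∑ r, ∑ s,
        lam p A (c * (∑ i, y r i * v i) * (∑ i, y s i * v i)) * bil M (y r) (y s) := by
        simp only [Finset.sum_add_distrib]
    _ ≤ _ := by
        linarith [h1]

/-- HINT: `∑ r s, (y r, y s)^2 + ∑ r s', (y r, z s')^2 ≤ F ∑ r, (y r, y r)` (sum of `hcov` over `x = y r`) and
`∑ s' r, (z s', y r)^2 ≤ F ∑ s', (z s', z s')`; add, use `htr`, `hS` and `LTwo_main`. -/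
theorem LTwo_joint (p A : ℕ) (hp : p.Prime) (hA : 2 * A < p) (hA2 : p ≤ (A + 1) ^ 2 + 1) {K : ℕ}
    {R S : Type} [Fintype R] [Fintype S]
    (M : Fin K → Fin K → ℤ) (hsymm : ∀ i j, M i j = M j i) (hpsd : ∀ x, 0 ≤ bil M x x)
    (F l T : ℤ) (hF : 0 ≤ F) (y : R → Fin K → ℤ) (z : S → Fin K → ℤ)
    (hcov : ∀ x : Fin K → ℤ, ∑ r, bil M x (y r) ^ 2 + ∑ s, bil M x (z s) ^ 2 ≤ F * bil M x x)
    (htr : ∑ r, bil M (y r) (y r) + ∑ s, bil M (z s) (z s) ≤ F * l)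
    (c : ℤ) (v : Fin K → ℤ) (hc : ¬ (p : ℤ) ∣ c)
    (hM : ∀ i j, (p : ℤ) ∣ M i j - c * v i * v j)
    (hu : ∀ r, ¬ (p : ℤ) ∣ ∑ i, y r i * v i)
    (hS : ∀ x : Fin K → ℤ, ¬ (p : ℤ) ∣ ∑ i, x i * v i → T ≤ ∑ s, bil M x (z s) ^ 2) :
    ((p : ℤ) - 1) * (Fintype.card R : ℤ) ^ 2 + 2 * (Fintype.card R : ℤ) * T ≤
      ((A : ℤ) * ((p : ℤ) - 1 - A)) * (Fintype.card R : ℤ) * F + F * (F * l) := by
  have h1 := LTwo_main p A hp hA hA2 M hsymm hpsd F hF y (fun x => by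
    have h0 : 0 ≤ ∑ s, bil M x (z s) ^ 2 := Finset.sum_nonneg fun s _ => sq_nonneg _
    have := hcov x
    linarith) c v hc hM hu
  have h2 : ∑ r, (∑ r', bil M (y r) (y r') ^ 2 + ∑ s, bil M (y r) (z s) ^ 2) ≤
      ∑ r, F * bil M (y r) (y r) := Finset.sum_le_sum fun r _ => hcov (y r)
  have h3 : ∑ s', (∑ r, bil M (z s') (y r) ^ 2 + ∑ s, bil M (z s') (z s) ^ 2) ≤
      ∑ s', F * bil M (z s') (z s') := Finset.sum_le_sum fun s' _ => hcov (z s')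
  rw [Finset.sum_add_distrib, ← Finset.mul_sum] at h2 h3
  have h4 : ∑ s', ∑ r, bil M (z s') (y r) ^ 2 = ∑ r, ∑ s, bil M (y r) (z s) ^ 2 := by
    rw [Finset.sum_comm]
    refine Finset.sum_congr rfl fun r _ => Finset.sum_congr rfl fun s _ => ?_
    rw [TopA_bil_symm M hsymm (z s) (y r)]
  have h5 : 0 ≤ ∑ s', ∑ s, bil M (z s') (z s) ^ 2 :=
    Finset.sum_nonneg fun s' _ => Finset.sum_nonneg fun s _ => sq_nonneg _
  have h6 : (Fintype.card R : ℤ) * T ≤ ∑ r, ∑ s, bil M (y r) (z s) ^ 2 := by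
    have : ∑ _r : R, T ≤ ∑ r, ∑ s, bil M (y r) (z s) ^ 2 :=
      Finset.sum_le_sum fun r _ => hS (y r) (hu r)
    simpa [Finset.sum_const, Finset.card_univ, nsmul_eq_mul] using this
  have h7 := mul_le_mul_of_nonneg_left htr hF
  rw [h4] at h3
  have h8 : ∑ r, ∑ r', bil M (y r) (y r') ^ 2 + 2 * ∑ r, ∑ s, bil M (y r) (z s) ^ 2 ≤
      F * (F * l) := by
    have : F * (∑ r, bil M (y r) (y r) + ∑ s, bil M (z s) (z s)) =
      F * ∑ r, bil M (y r) (y r) + F * ∑ s, bil M (z s) (z s) := by ring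
    linarith
  linarith

end Pool.Agent.KBU
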