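import Pool.Agent.KBU.HtA
import Pool.Agent.KBU.LTwo
import Pool.Agent.KBL.EmbB
import Pool.Agent.KBL.CD
import Pool.Agent.KBZ.TrW
import Pool.Agent.KBZ.Cdeg

/-! The inequality for the characters of height zero and the block itself. -/

namespace Pool.Agent.KBU

open Pool.Agent.KB Pool.Agent.KB.ContrAux Pool.Agent.KBL Pool.Agent.KBZ

/-- An enumeration of the block. -/
theorem JntO_enum {G : Type} [Group G] [Fintype G] (𝔪 : Ideal AInt) (χ₀ : G → ℂ) :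
    ∃ (k : ℕ) (χ : Fin k → G → ℂ), Function.Injective χ ∧ (∀ i, χ i ∈ block 𝔪 χ₀) ∧
      ∀ ψ ∈ block 𝔪 χ₀, ∃ i, χ i = ψ := by
  classical
  have := Col_finite G
  have hfin : (block 𝔪 χ₀).Finite :=
    (Set.toFinite (Irr G)).subset fun ψ h => h.1
  have : Finite (block 𝔪 χ₀) := hfin
  obtain ⟨k, ⟨e⟩⟩ := Finite.exists_equiv_fin (block 𝔪 χ₀)
  refine ⟨k, fun i => (e.symm i : G → ℂ), ?_, fun i => (e.symm i).2, ?_⟩
  · exact Subtype.val_injective.comp e.symm.injective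
  · intro ψ hψ
    exact ⟨e ⟨ψ, hψ⟩, by simp⟩

open Classical in
/-- The version for the block itself (`u = 1`). HINT: `LTwo_main` with `K = k`, `M` the matrix of
`EmbB_main` for an enumeration of the block, `y` the unit vectors of the characters of height zero
(`KBL.CD_main` or `Cdeg_main`: `M i j ≡ c₀ (c χ_i) (c χ_j)`, `p ∤ c χ` for height zero: `Ht_iff`),
`F = p^d` (see the proof of `KBL.Fin_fin`), and the trace inequality (`Fin_fin` or `TrW_main`). -/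
theorem JntO_main {G : Type} [Group G] [Fintype G] (p A : ℕ) (hp : p.Prime) (hA : 2 * A < p)
    (hA2 : p ≤ (A + 1) ^ 2 + 1) (𝔪 : Ideal AInt)
    (h𝔪 : 𝔪.IsMaximal) (hp𝔪 : (p : AInt) ∈ 𝔪) (χ₀ : G → ℂ) (hχ₀ : χ₀ ∈ Irr G) :
    ((p : ℤ) - 1) * ((zeroHeight p (block 𝔪 χ₀)).ncard : ℤ) ^ 2 ≤
      ((A : ℤ) * ((p : ℤ) - 1 - A)) * (p : ℤ) ^ defect p (block 𝔪 χ₀) *
          ((zeroHeight p (block 𝔪 χ₀)).ncard : ℤ) +
        (p : ℤ) ^ (2 * defect p (block 𝔪 χ₀)) * (ell p (block 𝔪 χ₀) : ℤ) := by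
  obtain ⟨k, χ, hinj, hχ, hsurj⟩ := JntO_enum 𝔪 χ₀
  obtain ⟨w, m, h1, h2, h3, h4, h5, h6⟩ := EmbB_main p hp 𝔪 h𝔪 hp𝔪 χ₀ hχ₀ χ hinj hχ
  obtain ⟨n', cc, c₀, hn', hc₀, -, -, -, hAc, hMc⟩ := Cdeg_main p hp 𝔪 h𝔪 hp𝔪 χ₀ hχ₀
  set d := defect p (block 𝔪 χ₀) with hd
  set l := ell p (block 𝔪 χ₀) with hl
  have hsymm : ∀ i j, m i j = m j i := by
    intro i j
    have e1 := h1 i j
    have e2 := h1 j i
    rw [real_inner_comm, e2] at e1
    exact_mod_cast e1.symm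
  have e2 : ∀ x : Fin k → ℤ, ‖∑ i, (x i : ℝ) • w i‖ ^ 2 = ((bil m x x : ℤ) : ℝ) := by
    intro x
    have e1 : ∀ j, inner ℝ (w j) (∑ i, (x i : ℝ) • w i) = ((∑ i, x i * m i j : ℤ) : ℝ) := by
      intro j
      rw [inner_sum]
      push_cast
      refine Finset.sum_congr rfl fun i _ => ?_
      rw [real_inner_smul_right, h1, hsymm]
    rw [← real_inner_self_eq_norm_sq, sum_inner]
    unfold bil
    push_cast
    refine Finset.sum_congr rfl fun i _ => ?_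
    rw [real_inner_smul_left, e1]
    push_cast
    rw [Finset.mul_sum]
    refine Finset.sum_congr rfl fun j _ => ?_
    have : (m j i : ℝ) = (m i j : ℝ) := by exact_mod_cast hsymm j i
    rw [this]
    ring
  have hpsd : ∀ x, 0 ≤ bil m x x := by
    intro x
    have := e2 x
    have h7 : (0 : ℝ) ≤ ((bil m x x : ℤ) : ℝ) := by rw [← this]; positivity
    exact_mod_cast h7
  -- Bessel for integral combinations
  have hB : ∀ x : Fin k → ℤ,
      ∑ j, (∑ i, x i * m i j) ^ 2 ≤ ((p ^ d : ℕ) : ℤ) * bil m x x := by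
    intro x
    have e1 : ∀ j, inner ℝ (w j) (∑ i, (x i : ℝ) • w i) = ((∑ i, x i * m i j : ℤ) : ℝ) := by
      intro j
      rw [inner_sum]
      push_cast
      refine Finset.sum_congr rfl fun i _ => ?_
      rw [real_inner_smul_right, h1, hsymm]
    have e3 := h5 (∑ i, (x i : ℝ) • w i)
    rw [e2] at e3
    simp only [e1] at e3
    have e4 : ((∑ j, (∑ i, x i * m i j) ^ 2 : ℤ) : ℝ) ≤
        ((((p ^ d : ℕ) : ℤ) * bil m x x : ℤ) : ℝ) := by
      push_cast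
      push_cast at e3
      exact e3
    exact_mod_cast e4
  set R := {i : Fin k // ¬ InM 𝔪 (ContrAux.A p (χ i) χ₀)} with hR
  set y : R → Fin k → ℤ := fun r => Pi.single r.1 1 with hy
  have hcov : ∀ x : Fin k → ℤ, ∑ r, bil m x (y r) ^ 2 ≤ ((p ^ d : ℕ) : ℤ) * bil m x x := by
    intro x
    refine le_trans ?_ (hB x)
    have e5 : ∀ r : R, bil m x (y r) ^ 2 = (fun j => (∑ i, x i * m i j) ^ 2) r.1 := by
      intro r
      rw [hy]
      simp only
      rw [TopA_bil_single]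
    rw [Finset.sum_congr rfl fun r _ => e5 r]
    rw [← Finset.sum_subtype (Finset.univ.filter fun i : Fin k => ¬ InM 𝔪 (ContrAux.A p (χ i) χ₀))
      (by intro i; simp) (fun j => (∑ i, x i * m i j) ^ 2)]
    exact Finset.sum_le_sum_of_subset_of_nonneg (Finset.filter_subset _ _)
      fun i _ _ => sq_nonneg _
  have hMc' : ∀ i j, (p : ℤ) ∣ m i j - c₀ * (cc (χ i) : ℤ) * (cc (χ j) : ℤ) := by
    intro i j
    exact hMc (χ i) (hχ i) (χ j) (hχ j) (m i j) (h2 i j)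
  have hu : ∀ r : R, ¬ (p : ℤ) ∣ ∑ i, y r i * ((fun i => (cc (χ i) : ℤ)) i) := by
    intro r
    have e6 : ∑ i, y r i * ((fun i => (cc (χ i) : ℤ)) i) = (cc (χ r.1) : ℤ) := by
      rw [Finset.sum_eq_single r.1]
      · simp [hy]
      · intro b _ hb
        simp [hy, Pi.single_eq_of_ne hb]
      · simp
    rw [e6]
    intro h
    exact r.2 ((hAc (χ r.1) (hχ r.1)).mpr (by exact_mod_cast h))
  have hmain := LTwo_main p A hp hA hA2 (R := R) m hsymm hpsd ((p ^ d : ℕ) : ℤ) (by positivity) y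
    hcov c₀ (fun i => (cc (χ i) : ℤ)) hc₀ hMc' hu
  have htr := TrW_main m w h1 y (p ^ d) l hcov h6
  have hsq : ∑ r, ∑ s, bil m (y r) (y s) ^ 2 ≤ ((p ^ d : ℕ) : ℤ) * (((p ^ d : ℕ) : ℤ) * l) := by
    calc ∑ r, ∑ s, bil m (y r) (y s) ^ 2
        ≤ ∑ r, ((p ^ d : ℕ) : ℤ) * bil m (y r) (y r) :=
          Finset.sum_le_sum fun r _ => hcov (y r)
      _ = ((p ^ d : ℕ) : ℤ) * ∑ r, bil m (y r) (y r) := by rw [Finset.mul_sum]
      _ ≤ ((p ^ d : ℕ) : ℤ) * (((p ^ d : ℕ) : ℤ) * l) :=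
          mul_le_mul_of_nonneg_left htr (by positivity)
  have hcard : (zeroHeight p (block 𝔪 χ₀)).ncard = Fintype.card R := by
    have e7 : zeroHeight p (block 𝔪 χ₀) = Set.range (fun r : R => χ r.1) := by
      ext ψ
      constructor
      · intro hψ
        obtain ⟨i, rfl⟩ := hsurj ψ hψ.1
        exact ⟨⟨i, (Ht_iff p hp 𝔪 h𝔪 hp𝔪 χ₀ hχ₀ (χ i) (hχ i)).mp hψ⟩, rfl⟩
      · rintro ⟨r, rfl⟩
        exact (Ht_iff p hp 𝔪 h𝔪 hp𝔪 χ₀ hχ₀ (χ r.1) (hχ r.1)).mpr r.2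
    have e9 : Function.Injective (fun r : R => χ r.1) := hinj.comp Subtype.val_injective
    rw [e7, ← Nat.card_coe_set_eq, Nat.card_range_of_injective e9, Nat.card_eq_fintype_card]
  rw [hcard]
  have e8 : (((p ^ d : ℕ) : ℤ)) = (p : ℤ) ^ d := by push_cast; rfl
  rw [e8] at hmain hsq
  rw [two_mul, pow_add]
  nlinarith [hmain, hsq]

end Pool.Agent.KBU
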