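import Pool.Agent.KBZ.Loc
import Pool.Agent.KBL.Col

/-! The norm of an irreducible character of `C`. -/

namespace Pool.Agent.KBU

open Pool.Agent.KB Pool.Agent.KB.ContrAux Pool.Agent.KBL Pool.Agent.KBZ

variable {G : Type} [Group G] [Fintype G] {p : ℕ} {𝔪 : Ideal AInt} {u : G} {C : Subgroup G}
  [Fintype C] {ζ₀ : C → ℂ}

/-- Two equal products of powers of `u` and `p`-regular elements have the same exponents. -/
theorem Mii_inj {H : Type} [Group H] {p : ℕ} (hp : p.Prime) {w : H} {m : ℕ}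
    (hw : orderOf w = p ^ m) {y z : H} (hy : Commute w y) (hz : Commute w z)
    (hy1 : ¬ p ∣ orderOf y) (hz1 : ¬ p ∣ orderOf z) {j k : ℕ} (hj : j < p ^ m) (hk : k < p ^ m)
    (h : w ^ j * y = w ^ k * z) : j = k := by
  have h1 : (w ^ j * y) ^ (orderOf y * orderOf z) = w ^ (j * (orderOf y * orderOf z)) := by
    rw [(hy.pow_left j).mul_pow, pow_mul y, pow_orderOf_eq_one, one_pow, mul_one, ← pow_mul]
  have h2 : (w ^ k * z) ^ (orderOf y * orderOf z) = w ^ (k * (orderOf y * orderOf z)) := by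
    rw [(hz.pow_left k).mul_pow, mul_comm (orderOf y), pow_mul z, pow_orderOf_eq_one, one_pow,
      mul_one, ← pow_mul]
  rw [h, h2, pow_eq_pow_iff_modEq, hw] at h1
  have hcop : Nat.Coprime (p ^ m) (orderOf y * orderOf z) := by
    refine Nat.Coprime.pow_left m ?_
    exact Nat.Coprime.mul_right ((Nat.Prime.coprime_iff_not_dvd hp).2 hy1)
      ((Nat.Prime.coprime_iff_not_dvd hp).2 hz1)
  have h3 : k ≡ j [MOD p ^ m] := Nat.ModEq.cancel_right_of_coprime hcop h1
  exact (Nat.ModEq.eq_of_lt_of_lt h3 hk hj).symm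

/-- HINT: `T p (X i) (X i) = ∑ y p-regular, |X i y|^2` (`irr_inv`). For `j < p ^ (m+1)` the maps
`y ↦ u ^ j * y` on the `p`-regular elements have disjoint images and `|X i (u^j y)| = |X i y|` (`L.hε`), so
`p ^ (m+1) * T p (X i) (X i) ≤ ∑ y, |X i y|^2 = |C|` (`Col_row`). -/
theorem Mii_main (L : Loc p 𝔪 u C ζ₀) (i : Fin L.K) :
    (p : ℤ) ^ (L.m + 1) * L.M i i ≤ (p : ℤ) ^ defect p (block 𝔪 ζ₀) := by
  classical
  have hp := L.hp
  have hX : L.X i ∈ Irr C := (L.mem i).1
  have huC : u ∈ C := (L.hC u).2 rfl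
  set w : C := ⟨u, huC⟩ with hw
  have hword : orderOf w = p ^ (L.m + 1) := by
    rw [← L.hord, ← Subgroup.orderOf_coe w]
  have hcomm : ∀ y : C, Commute w y := by
    intro y
    have h1 := (L.hC (y : G)).1 y.2
    exact Subtype.ext (by
      change u * (y : G) = (y : G) * u
      exact h1.symm)
  set N : C → ℝ := fun y => Complex.normSq (L.X i y) with hN
  set S : Finset C := Finset.univ.filter fun y : C => ¬ p ∣ orderOf y with hS
  have hprod : ∀ y : C, L.X i y * L.X i y⁻¹ = ((N y : ℝ) : ℂ) := by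
    intro y
    rw [irr_inv hX, Complex.mul_conj]
  have hT : T p (L.X i) (L.X i) = ((∑ y ∈ S, N y : ℝ) : ℂ) := by
    unfold T
    push_cast
    exact Finset.sum_congr (by rw [hS]) fun y _ => hprod y
  have hall : ∑ y : C, N y = (Nat.card C : ℝ) := by
    have h1 := (Col_row (L.X i) (L.X i) hX hX).1 rfl
    have h2 : ((∑ y : C, N y : ℝ) : ℂ) = ((Nat.card C : ℝ) : ℂ) := by
      push_cast
      rw [← h1]
      exact Finset.sum_congr rfl fun y _ => (hprod y).symm
    exact_mod_cast h2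
  have hη1 : ‖L.η‖ = 1 := by
    refine L.hη.norm'_eq_one ?_
    exact mul_ne_zero hp.pos.ne' (pow_ne_zero _ hp.pos.ne')
  have hNj : ∀ (j : ℕ) (y : C), N (w ^ j * y) = N y := by
    intro j y
    have h1 := L.hε i j y (w ^ j * y) (by
      rw [Subgroup.coe_mul, Subgroup.coe_pow])
    rw [hN]
    simp only
    rw [h1, Complex.normSq_mul, Complex.normSq_eq_norm_sq, norm_pow, hη1, one_pow, one_pow,
      one_mul]
  have hineq : (p : ℝ) ^ (L.m + 1) * ∑ y ∈ S, N y ≤ (Nat.card C : ℝ) := by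
    rw [← hall]
    have h1 : (p : ℝ) ^ (L.m + 1) * ∑ y ∈ S, N y =
        ∑ q ∈ Finset.range (p ^ (L.m + 1)) ×ˢ S, N (w ^ q.1 * q.2) := by
      rw [Finset.sum_product]
      simp only [hNj]
      rw [Finset.sum_const, Finset.card_range, nsmul_eq_mul]
      push_cast
      rfl
    rw [h1, ← Finset.sum_image (g := fun q : ℕ × C => w ^ q.1 * q.2) (f := N)]
    · exact Finset.sum_le_sum_of_subset_of_nonneg (Finset.subset_univ _)
        fun y _ _ => Complex.normSq_nonneg _
    · rintro ⟨j, y⟩ hq ⟨k, z⟩ hr hqr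
      rw [Finset.mem_coe, Finset.mem_product, Finset.mem_range, hS, Finset.mem_filter] at hq hr
      simp only at hq hr hqr
      have hjk : j = k := Mii_inj hp hword (hcomm y) (hcomm z) hq.2.2 hr.2.2 hq.1 hr.1 hqr
      subst hjk
      have hyz : y = z := mul_left_cancel hqr
      rw [hyz]
  have hcard : (0 : ℝ) < (Nat.card C : ℝ) := by
    have : 0 < Nat.card C := Nat.card_pos
    exact_mod_cast this
  have hM : (L.M i i : ℝ) * (Nat.card C : ℝ) =
      (p : ℝ) ^ defect p (block 𝔪 ζ₀) * ∑ y ∈ S, N y := by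
    have h1 := L.hM i i
    rw [hT] at h1
    have h2 : (Nat.card C : ℂ) ≠ 0 := by
      have : 0 < Nat.card C := Nat.card_pos
      exact_mod_cast this.ne'
    have h3 : (((L.M i i : ℝ) * (Nat.card C : ℝ) : ℝ) : ℂ) =
        (((p : ℝ) ^ defect p (block 𝔪 ζ₀) * ∑ y ∈ S, N y : ℝ) : ℂ) := by
      push_cast
      rw [h1]
      push_cast
      field_simp
    exact_mod_cast h3
  have hfin : (p : ℝ) ^ (L.m + 1) * (L.M i i : ℝ) ≤ (p : ℝ) ^ defect p (block 𝔪 ζ₀) := by
    refine le_of_mul_le_mul_right ?_ hcard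
    have h1 : (p : ℝ) ^ (L.m + 1) * (L.M i i : ℝ) * (Nat.card C : ℝ) =
        (p : ℝ) ^ defect p (block 𝔪 ζ₀) * ((p : ℝ) ^ (L.m + 1) * ∑ y ∈ S, N y) := by
      rw [mul_assoc, hM]
      ring
    rw [h1]
    exact mul_le_mul_of_nonneg_left hineq (by positivity)
  exact_mod_cast hfin

end Pool.Agent.KBU
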