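import Pool.Agent.KBU.HtB
import Pool.Agent.KBU.Mii
import Pool.Agent.KBZ.CovZ
import Pool.Agent.KBZ.Cnt
import Pool.Agent.KBZ.AsmZ

/-! The second inequality for a major subsection. -/

namespace Pool.Agent.KBU

open Pool.Agent.KB Pool.Agent.KB.ContrAux Pool.Agent.KBL Pool.Agent.KBL.CDAux Pool.Agent.KBZ

variable {G : Type} [Group G] [Fintype G] {p : ℕ} {𝔪 : Ideal AInt} {u : G} {C : Subgroup G}
  [Fintype C] {ζ₀ : C → ℂ}

/-- A sum of squares of differences of multiples of `q`, not all equal. -/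
theorem JntS_sq {p : ℕ} (f : Fin p → ℤ) (q : ℤ) (hq : 0 < q) (hd : ∀ t t', q ∣ f t - f t')
    (t₁ t₂ : Fin p) (h : f t₁ ≠ f t₂) :
    2 * ((p : ℤ) - 1) * q ^ 2 ≤ ∑ t, ∑ t', (f t - f t') ^ 2 := by
  classical
  have h1 := Cnt_main f t₁ t₂ h
  have hp : 1 ≤ p := Fin.pos t₁
  have h2 : (2 * ((p : ℤ) - 1)) ≤
      ((Finset.univ.filter fun x : Fin p × Fin p => f x.1 ≠ f x.2).card : ℤ) := by
    have : ((2 * (p - 1) : ℕ) : ℤ) = 2 * ((p : ℤ) - 1) := by
      push_cast [Nat.cast_sub hp]; ring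
    rw [← this]
    exact_mod_cast h1
  rw [← Finset.sum_product']
  have h3 : ∑ x ∈ Finset.univ.filter (fun x : Fin p × Fin p => f x.1 ≠ f x.2), q ^ 2 ≤
      ∑ x ∈ (Finset.univ ×ˢ Finset.univ : Finset (Fin p × Fin p)), (f x.1 - f x.2) ^ 2 := by
    refine le_trans (Finset.sum_le_sum (g := fun x : Fin p × Fin p => (f x.1 - f x.2) ^ 2) ?_) ?_
    · intro x hx
      rw [Finset.mem_filter] at hx
      obtain ⟨w, hw⟩ := hd x.1 x.2
      have hw0 : w ≠ 0 := by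
        rintro rfl
        apply hx.2
        linarith
      rw [hw, mul_pow]
      have : 1 ≤ w ^ 2 := by
        have := sq_pos_of_ne_zero hw0 |>.le
        have h4 : 0 < w ^ 2 := by positivity
        linarith
      nlinarith [sq_nonneg q]
    · apply Finset.sum_le_sum_of_subset_of_nonneg
      · intro x _
        simp
      · intro x _ _
        positivity
  rw [Finset.sum_const, nsmul_eq_mul] at h3
  refine le_trans ?_ h3
  exact mul_le_mul_of_nonneg_right h2 (by positivity)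

open Classical in
/-- HINT: `CovZ_main` for `x = Pi.single i₀ 1` with `p ∤ v i₀` (from `AsmZ_main`): every `i ∈ Z` contributes at
least `2 (p-1)` (`AsmZ_main`, `Cnt_main`), every `i ∉ Z` at least `2 (p-1) p^2` (`Ht_pos`), and
`bil L.M x x = L.M i₀ i₀`, `Mii_main`. -/
theorem Jnt_second (L : Loc p 𝔪 u C ζ₀)
    (χ₀ : G → ℂ) (hχ₀ : χ₀ ∈ Irr G)
    (hind : ∀ g : G, InM 𝔪 (omega χ₀ g - (∑ h : {h : C // IsConj g (h : G)}, ζ₀ h) / ζ₀ 1))
    (hmaj : defect p (block 𝔪 ζ₀) = defect p (block 𝔪 χ₀))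
    {k : ℕ} (χ : Fin k → G → ℂ) (hinj : Function.Injective χ) (hχ : ∀ i, χ i ∈ block 𝔪 χ₀)
    (Z : Finset (Fin k)) (hZ : ∀ i, i ∈ Z ↔ ¬ InM 𝔪 (ContrAux.A p (χ i) χ₀)) (hm : L.m = 0) :
    (p : ℤ) * ((Z.card : ℤ) + (p : ℤ) ^ 2 * ((k : ℤ) - Z.card)) ≤
      (p : ℤ) ^ (2 * defect p (block 𝔪 χ₀)) := by
  have hp := L.hp
  have hp2 : (2 : ℤ) ≤ (p : ℤ) := by exact_mod_cast hp.two_le
  obtain ⟨c, v, -, -, ⟨x0, hx0⟩, hne, -⟩ := AsmZ_main L χ₀ hχ₀ hind hmaj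
  obtain ⟨i₀, hi₀⟩ : ∃ i₀, ¬ (p : ℤ) ∣ v i₀ := by
    by_contra hcon
    push Not at hcon
    exact hx0 (Finset.dvd_sum fun i _ => Dvd.dvd.mul_left (hcon i) _)
  set x : Fin L.K → ℤ := Pi.single i₀ 1 with hx
  have hxv : ¬ (p : ℤ) ∣ ∑ i, x i * v i := by
    have : ∑ i, x i * v i = v i₀ := by
      rw [Finset.sum_eq_single i₀]
      · simp [hx]
      · intro b _ hb
        simp [hx, Pi.single_eq_of_ne hb]
      · simp
    rwa [this]
  have hbil : bil L.M x x = L.M i₀ i₀ := by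
    unfold bil
    rw [Finset.sum_eq_single i₀]
    · rw [Finset.sum_eq_single i₀]
      · simp [hx]
      · intro b _ hb
        simp [hx, Pi.single_eq_of_ne hb]
      · simp
    · intro b _ hb
      simp [hx, Pi.single_eq_of_ne hb]
    · simp
  have hIrr : ∀ i, χ i ∈ Irr G := fun i => (hχ i).1
  have hcov := CovZ_main L χ hinj hIrr x
  have hMii := Mii_main L i₀
  rw [hm, zero_add, pow_one] at hMii
  rw [hbil] at hcov
  have hlow : ∀ i, (if i ∈ Z then 2 * ((p : ℤ) - 1) else 2 * ((p : ℤ) - 1) * (p : ℤ) ^ 2) ≤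
      ∑ r, ∑ t, ∑ t', (bil L.M x (L.a (χ i) r t) - bil L.M x (L.a (χ i) r t')) ^ 2 := by
    intro i
    obtain ⟨r, t₁, t₂, hr⟩ := hne (χ i) (hχ i) x hxv
    have hle : ∑ t, ∑ t', (bil L.M x (L.a (χ i) r t) - bil L.M x (L.a (χ i) r t')) ^ 2 ≤
        ∑ r, ∑ t, ∑ t', (bil L.M x (L.a (χ i) r t) - bil L.M x (L.a (χ i) r t')) ^ 2 :=
      Finset.single_le_sum (f := fun r => ∑ t, ∑ t',
        (bil L.M x (L.a (χ i) r t) - bil L.M x (L.a (χ i) r t')) ^ 2)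
        (fun r _ => Finset.sum_nonneg fun t _ => Finset.sum_nonneg fun t' _ => sq_nonneg _)
        (Finset.mem_univ r)
    refine le_trans ?_ hle
    split_ifs with hi
    · have := JntS_sq (fun t => bil L.M x (L.a (χ i) r t)) 1 one_pos
        (fun t t' => one_dvd _) t₁ t₂ hr
      simpa using this
    · have hA : InM 𝔪 (ContrAux.A p (χ i) χ₀) := by
        by_contra hcon
        exact hi ((hZ i).mpr hcon)
      exact JntS_sq (fun t => bil L.M x (L.a (χ i) r t)) (p : ℤ) (by linarith)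
        (fun t t' => Ht_pos L hm χ₀ hχ₀ hmaj (χ i) (hχ i) hA x r t t') t₁ t₂ hr
  have hsum := Finset.sum_le_sum (s := Finset.univ) fun i _ => hlow i
  have hcomp : ∑ i : Fin k, (if i ∈ Z then 2 * ((p : ℤ) - 1) else 2 * ((p : ℤ) - 1) * (p : ℤ) ^ 2) =
      2 * ((p : ℤ) - 1) * ((Z.card : ℤ) + (p : ℤ) ^ 2 * ((k : ℤ) - Z.card)) := by
    rw [Finset.sum_ite, Finset.sum_const, Finset.sum_const, nsmul_eq_mul, nsmul_eq_mul]
    have h1 : Finset.univ.filter (fun i : Fin k => i ∈ Z) = Z := by ext; simp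
    have h2 : ((Finset.univ.filter (fun i : Fin k => ¬ i ∈ Z)).card : ℤ) = (k : ℤ) - Z.card := by
      have h3 := Finset.card_filter_add_card_filter_not (s := (Finset.univ : Finset (Fin k)))
        (fun i : Fin k => i ∈ Z)
      rw [h1, Finset.card_univ, Fintype.card_fin] at h3
      have : ((Z.card + (Finset.univ.filter (fun i : Fin k => ¬ i ∈ Z)).card : ℕ) : ℤ) = k := by
        exact_mod_cast h3
      push_cast at this
      linarith
    rw [h1, h2]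
    ring
  rw [hcomp] at hsum
  have hfin := hsum.trans hcov
  have hpos : (0 : ℤ) < 2 * ((p : ℤ) - 1) := by linarith
  have h5 : (Z.card : ℤ) + (p : ℤ) ^ 2 * ((k : ℤ) - Z.card) ≤
      (p : ℤ) ^ defect p (block 𝔪 ζ₀) * L.M i₀ i₀ := by
    have h6 : 2 * ((p : ℤ) - 1) * ((Z.card : ℤ) + (p : ℤ) ^ 2 * ((k : ℤ) - Z.card)) ≤
        2 * ((p : ℤ) - 1) * ((p : ℤ) ^ defect p (block 𝔪 ζ₀) * L.M i₀ i₀) := by
      refine hfin.trans (le_of_eq ?_)
      ring
    exact le_of_mul_le_mul_left h6 hpos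
  rw [← hmaj, two_mul, pow_add]
  calc (p : ℤ) * ((Z.card : ℤ) + (p : ℤ) ^ 2 * ((k : ℤ) - Z.card))
      ≤ (p : ℤ) * ((p : ℤ) ^ defect p (block 𝔪 ζ₀) * L.M i₀ i₀) :=
        mul_le_mul_of_nonneg_left h5 (by linarith)
    _ = (p : ℤ) ^ defect p (block 𝔪 ζ₀) * ((p : ℤ) * L.M i₀ i₀) := by ring
    _ ≤ (p : ℤ) ^ defect p (block 𝔪 ζ₀) * (p : ℤ) ^ defect p (block 𝔪 ζ₀) :=
        mul_le_mul_of_nonneg_left hMii (by positivity)

end Pool.Agent.KBU
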