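import Pool.Agent.KBU.JntA
import Pool.Agent.KBU.JntS
import Pool.Agent.KBU.JntO
import Pool.Agent.KBZ.Defs
import Pool.Agent.KBZ.UOne

/-! The inequalities for a major subsection: blocks. -/

namespace Pool.Agent.KBU

open Pool.Agent.KB Pool.Agent.KB.ContrAux Pool.Agent.KBL Pool.Agent.KBZ

/-- The centralizer in elementary terms. -/
theorem JntB_cent {G : Type} [Group G] (u : G) (g : G) :
    g ∈ (Subgroup.centralizer {u} : Subgroup G) ↔ g * u = u * g := by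
  rw [Subgroup.mem_centralizer_iff]
  constructor
  · intro h
    exact (h u rfl).symm
  · intro h z hz
    rw [Set.mem_singleton_iff] at hz
    rw [hz]
    exact h.symm

open Classical in
/-- The condition of `Induces` with a finite sum. -/
theorem JntB_ind {G : Type} [Group G] [Fintype G] (𝔪 : Ideal AInt) (H : Subgroup G) [Fintype H]
    (ζ : H → ℂ) (χ : G → ℂ) (h : Induces 𝔪 H ζ χ) (g : G) :
    InM 𝔪 (omega χ g - (∑ h : {h : H // IsConj g (h : G)}, ζ h) / ζ 1) := by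
  have h := h g
  rw [finsum_eq_sum_of_fintype] at h
  exact h

/-- Blocks are finite. -/
theorem JntB_fin {G : Type} [Group G] [Fintype G] (𝔪 : Ideal AInt) (χ₀ : G → ℂ) :
    (block 𝔪 χ₀).Finite := by
  have hfin : Finite (Irr G) := Col_finite G
  exact Set.Finite.subset (Set.toFinite (Irr G)) (fun ψ hψ => hψ.1)

/-- An enumeration of a finite set of functions. -/
theorem JntB_enum {G : Type} (S : Set (G → ℂ)) (hS : S.Finite) :
    ∃ χ : Fin S.ncard → G → ℂ, Function.Injective χ ∧ (∀ i, χ i ∈ S) ∧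
      ∀ ψ ∈ S, ∃ i, χ i = ψ := by
  classical
  have hc : hS.toFinset.card = S.ncard := (Set.ncard_eq_toFinset_card S hS).symm
  refine ⟨fun i => ((((hS.toFinset).equivFinOfCardEq hc).symm i : hS.toFinset) : G → ℂ),
      fun a b hab => ((hS.toFinset).equivFinOfCardEq hc).symm.injective (Subtype.ext hab),
      fun i => hS.mem_toFinset.1 (((hS.toFinset).equivFinOfCardEq hc).symm i).2, ?_⟩
  intro ψ hψ
  refine ⟨(hS.toFinset).equivFinOfCardEq hc ⟨ψ, hS.mem_toFinset.2 hψ⟩, ?_⟩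
  simp

/-- HINT: `MkLoc_main` (with `m = 0`), `Jnt_main`, `Jnt_second` with an enumeration of the block (see
`MainZ_main`) and `Z` the set of the indices of the characters of height zero (`Ht_iff`). -/
theorem JntB_main {G : Type} [Group G] [Fintype G] (p A : ℕ) (hp : p.Prime) (hA : 2 * A < p)
    (hA2 : p ≤ (A + 1) ^ 2 + 1) (𝔪 : Ideal AInt)
    (h𝔪 : 𝔪.IsMaximal) (hp𝔪 : (p : AInt) ∈ 𝔪) (χ₀ : G → ℂ) (hχ₀ : χ₀ ∈ Irr G)
    (z : G) (hz : orderOf z = p) (ζ₀ : (Subgroup.centralizer {z} : Subgroup G) → ℂ)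
    (hζ₀ : ζ₀ ∈ Irr (Subgroup.centralizer {z} : Subgroup G))
    (hind : Induces 𝔪 (Subgroup.centralizer {z}) ζ₀ χ₀)
    (hmaj : defect p (block 𝔪 ζ₀) = defect p (block 𝔪 χ₀)) :
    ∃ k₁ : ℕ, (block 𝔪 χ₀).ncard = (zeroHeight p (block 𝔪 χ₀)).ncard + k₁ ∧
    ((p : ℤ) - 1) * ((zeroHeight p (block 𝔪 χ₀)).ncard : ℤ) ^ 2 +
        2 * (p : ℤ) ^ 2 * ((zeroHeight p (block 𝔪 χ₀)).ncard : ℤ) * k₁ ≤
      ((A : ℤ) * ((p : ℤ) - 1 - A)) * (p : ℤ) ^ defect p (block 𝔪 χ₀) *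
          ((zeroHeight p (block 𝔪 χ₀)).ncard : ℤ) +
        (p : ℤ) ^ (2 * defect p (block 𝔪 χ₀)) * (ell p (block 𝔪 ζ₀) : ℤ) ∧
    (p : ℤ) * (((zeroHeight p (block 𝔪 χ₀)).ncard : ℤ) + (p : ℤ) ^ 2 * k₁) ≤
      (p : ℤ) ^ (2 * defect p (block 𝔪 χ₀)) := by
  classical
  have : Fintype (Subgroup.centralizer {z} : Subgroup G) := Fintype.ofFinite _
  have hfin := JntB_fin 𝔪 χ₀
  obtain ⟨χ, hinj, hχ, hsurj⟩ := JntB_enum (block 𝔪 χ₀) hfin
  obtain ⟨L⟩ := MkLoc_main p hp 𝔪 h𝔪 hp𝔪 z 0 (by simpa using hz) _ (JntB_cent z) ζ₀ hζ₀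
  have hm : L.m = 0 := by
    have h1 := L.hord
    rw [hz] at h1
    have h2 : p ^ 1 = p ^ (L.m + 1) := by simpa using h1
    have h3 := Nat.pow_right_injective hp.two_le h2
    omega
  have hind' := JntB_ind 𝔪 _ ζ₀ χ₀ hind
  set Z : Finset (Fin (block 𝔪 χ₀).ncard) :=
    Finset.univ.filter (fun i => χ i ∈ zeroHeight p (block 𝔪 χ₀)) with hZdef
  have hZ : ∀ i, i ∈ Z ↔ ¬ InM 𝔪 (ContrAux.A p (χ i) χ₀) := by
    intro i
    rw [hZdef, Finset.mem_filter]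
    simp only [Finset.mem_univ, true_and]
    exact Ht_iff p hp 𝔪 h𝔪 hp𝔪 χ₀ hχ₀ (χ i) (hχ i)
  have hsub : zeroHeight p (block 𝔪 χ₀) ⊆ block 𝔪 χ₀ := fun ψ hψ => hψ.1
  have hZc : Z.card = (zeroHeight p (block 𝔪 χ₀)).ncard := by
    have h1 : zeroHeight p (block 𝔪 χ₀) = ((Z.image χ : Finset (G → ℂ)) : Set (G → ℂ)) := by
      ext ψ
      simp only [Finset.coe_image, Set.mem_image, Finset.mem_coe]
      constructor
      · intro hψ
        obtain ⟨i, hi⟩ := hsurj ψ (hsub hψ)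
        refine ⟨i, ?_, hi⟩
        rw [hZdef, Finset.mem_filter]
        exact ⟨Finset.mem_univ _, by rw [hi]; exact hψ⟩
      · rintro ⟨i, hi, rfl⟩
        rw [hZdef, Finset.mem_filter] at hi
        exact hi.2
    rw [h1, Set.ncard_coe_finset, Finset.card_image_of_injective _ hinj]
  have hle : (zeroHeight p (block 𝔪 χ₀)).ncard ≤ (block 𝔪 χ₀).ncard :=
    Set.ncard_le_ncard hsub hfin
  have e1 := Jnt_main L A hA hA2 χ₀ hχ₀ hind' hmaj χ hinj hχ Z hZ (Or.inl hm)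
  have e2 := Jnt_second L χ₀ hχ₀ hind' hmaj χ hinj hχ Z hZ hm
  refine ⟨(block 𝔪 χ₀).ncard - (zeroHeight p (block 𝔪 χ₀)).ncard, by omega, ?_, ?_⟩
  · rw [Nat.cast_sub hle]
    rw [hZc] at e1
    exact e1
  · rw [Nat.cast_sub hle]
    rw [hZc] at e2
    exact e2

/-- The inequality for the characters of height zero and all major subsections. HINT: `n = 0`:
`JntO_main` and `UOne_main` (see `MainZ_fin`). `n = m + 1`: `MkLoc_main`, `Jnt_main` for an enumeration of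
the characters of height zero only (`Z = univ`). -/
theorem JntB_all {G : Type} [Group G] [Fintype G] (p A : ℕ) (hp : p.Prime) (hA : 2 * A < p)
    (hA2 : p ≤ (A + 1) ^ 2 + 1) (𝔪 : Ideal AInt)
    (h𝔪 : 𝔪.IsMaximal) (hp𝔪 : (p : AInt) ∈ 𝔪) (χ₀ : G → ℂ) (hχ₀ : χ₀ ∈ Irr G)
    (u : G) (n : ℕ) (hu : orderOf u = p ^ n)
    (ζ₀ : (Subgroup.centralizer {u} : Subgroup G) → ℂ)
    (hζ₀ : ζ₀ ∈ Irr (Subgroup.centralizer {u} : Subgroup G))
    (hind : Induces 𝔪 (Subgroup.centralizer {u}) ζ₀ χ₀)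
    (hmaj : defect p (block 𝔪 ζ₀) = defect p (block 𝔪 χ₀)) :
    ((p : ℤ) - 1) * ((zeroHeight p (block 𝔪 χ₀)).ncard : ℤ) ^ 2 ≤
      ((A : ℤ) * ((p : ℤ) - 1 - A)) * (p : ℤ) ^ defect p (block 𝔪 χ₀) *
          ((zeroHeight p (block 𝔪 χ₀)).ncard : ℤ) +
        (p : ℤ) ^ (2 * defect p (block 𝔪 χ₀)) * (ell p (block 𝔪 ζ₀) : ℤ) := by
  classical
  have : Fintype (Subgroup.centralizer {u} : Subgroup G) := Fintype.ofFinite _
  have hind' := JntB_ind 𝔪 _ ζ₀ χ₀ hind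
  rcases Nat.eq_zero_or_pos n with hn | hn
  · rw [hn, pow_zero, orderOf_eq_one_iff] at hu
    subst hu
    have hC1 : ∀ g : G, g ∈ (Subgroup.centralizer {(1 : G)} : Subgroup G) := fun g => by
      rw [JntB_cent]; simp
    have hell := UOne_main p 𝔪 (Subgroup.centralizer {(1 : G)}) hC1 ζ₀ hζ₀ χ₀ hχ₀ hind'
    have h1 := JntO_main p A hp hA hA2 𝔪 h𝔪 hp𝔪 χ₀ hχ₀
    have h2 : (p : ℤ) ^ (2 * defect p (block 𝔪 χ₀)) * (ell p (block 𝔪 χ₀) : ℤ) ≤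
        (p : ℤ) ^ (2 * defect p (block 𝔪 χ₀)) * (ell p (block 𝔪 ζ₀) : ℤ) := by
      apply mul_le_mul_of_nonneg_left
      · exact_mod_cast hell
      · positivity
    linarith
  · obtain ⟨m, rfl⟩ : ∃ m, n = m + 1 := ⟨n - 1, by omega⟩
    have hfin := JntB_fin 𝔪 χ₀
    have hsub : zeroHeight p (block 𝔪 χ₀) ⊆ block 𝔪 χ₀ := fun ψ hψ => hψ.1
    have hfin0 : (zeroHeight p (block 𝔪 χ₀)).Finite := hfin.subset hsub
    obtain ⟨χ, hinj, hχ, -⟩ := JntB_enum (zeroHeight p (block 𝔪 χ₀)) hfin0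
    obtain ⟨L⟩ := MkLoc_main p hp 𝔪 h𝔪 hp𝔪 u m hu _ (JntB_cent u) ζ₀ hζ₀
    have hZ : ∀ i, i ∈ (Finset.univ : Finset (Fin (zeroHeight p (block 𝔪 χ₀)).ncard)) ↔
        ¬ InM 𝔪 (ContrAux.A p (χ i) χ₀) := by
      intro i
      refine ⟨fun _ => ?_, fun _ => Finset.mem_univ _⟩
      exact (Ht_iff p hp 𝔪 h𝔪 hp𝔪 χ₀ hχ₀ (χ i) (hsub (hχ i))).1 (hχ i)
    have e1 := Jnt_main L A hA hA2 χ₀ hχ₀ hind' hmaj χ hinj (fun i => hsub (hχ i)) Finset.univ hZ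
      (Or.inr rfl)
    rw [Finset.card_univ, Fintype.card_fin, sub_self, mul_zero, add_zero] at e1
    exact e1

end Pool.Agent.KBU
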