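import Pool.Agent.KBU.NumA

/-! The numerical part of the recursion: odd `p`. -/

namespace Pool.Agent.KBU

theorem NUMB_core (p A d k₀ k₁ l : ℕ) (hp : 3 ≤ p) (hd : 3 ≤ d) (hA : A = 0 ∨ A ^ 2 < p - 1)
    (hA2 : 2 * A < p) (E lm : ℝ) (hE : (p : ℝ) ^ (d - 3) ≤ E) (hE1 : 1 ≤ E)
    (hl : (l : ℝ) ≤ ((p : ℝ) - 1) * (lm * E ^ 2)) (h3 : Real.sqrt p - 1 ≤ E)
    (h4 : lm * E + Real.goldenRatio * (Real.sqrt p - 1) ≤ Real.goldenRatio ^ 2 * E)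
    (h1 : ((p : ℤ) - 1) * (k₀ : ℤ) ^ 2 + 2 * (p : ℤ) ^ 2 * (k₀ : ℤ) * k₁ ≤
      ((A : ℤ) * ((p : ℤ) - 1 - A)) * (p : ℤ) ^ d * (k₀ : ℤ) + (p : ℤ) ^ (2 * d) * (l : ℤ))
    (h2 : (p : ℤ) * ((k₀ : ℤ) + (p : ℤ) ^ 2 * k₁) ≤ (p : ℤ) ^ (2 * d)) :
    ((k₀ + k₁ : ℕ) : ℝ) ≤ Real.goldenRatio * ((p : ℝ) ^ d * E) := by
  have hpR : (3 : ℝ) ≤ (p : ℝ) := by exact_mod_cast hp
  have hp1 : (0 : ℝ) < (p : ℝ) - 1 := by linarith
  have hPpos : (0 : ℝ) < (p : ℝ) ^ d := by positivity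
  set P : ℝ := (p : ℝ) ^ d with hP
  have h1R : ((p : ℝ) - 1) * (k₀ : ℝ) ^ 2 + 2 * (p : ℝ) ^ 2 * (k₀ : ℝ) * k₁ ≤
      ((A : ℝ) * ((p : ℝ) - 1 - A)) * P * (k₀ : ℝ) + P ^ 2 * (l : ℝ) := by
    have := (Int.cast_le (R := ℝ)).2 h1
    push_cast at this
    rw [pow_mul, ← hP] at this
    have e : ((p : ℝ) ^ 2) ^ d = P ^ 2 := by rw [hP, ← pow_mul, ← pow_mul, mul_comm]
    rw [e] at this
    exact this
  have h2R : (p : ℝ) * ((k₀ : ℝ) + (p : ℝ) ^ 2 * k₁) ≤ P ^ 2 := by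
    have := (Int.cast_le (R := ℝ)).2 h2
    push_cast at this
    have e : (p : ℝ) ^ (2 * d) = P ^ 2 := by rw [hP, ← pow_mul, mul_comm]
    rw [e] at this
    exact this
  have hPd : P = (p : ℝ) ^ (d - 3) * (p : ℝ) ^ 3 := by
    rw [hP, ← pow_add]; congr 1; omega
  set β : ℝ := (A : ℝ) * ((p : ℝ) - 1 - A) / ((p : ℝ) - 1) with hβdef
  have hAle : (A : ℝ) ≤ (p : ℝ) - 1 := by
    have : A + 1 ≤ p := by omega
    have : ((A + 1 : ℕ) : ℝ) ≤ (p : ℝ) := by exact_mod_cast this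
    push_cast at this; linarith
  have hβ0 : 0 ≤ β := by
    apply div_nonneg _ hp1.le
    apply mul_nonneg (Nat.cast_nonneg _); linarith
  have hβ1 : β ≤ Real.sqrt p - 1 := by
    rw [hβdef, div_le_iff₀ hp1]
    have := Num_beta p A (by omega) hA hA2
    linarith
  have hβe : (A : ℝ) * ((p : ℝ) - 1 - A) = β * ((p : ℝ) - 1) := by
    rw [hβdef]; field_simp
  rw [hβe] at h1R
  have hφ : (8 / 5 : ℝ) ≤ Real.goldenRatio := by
    have h5 : (11 / 5 : ℝ) ≤ Real.sqrt 5 := by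
      apply Real.le_sqrt_of_sq_le; norm_num
    unfold Real.goldenRatio
    linarith
  have hφ0 : (0 : ℝ) < Real.goldenRatio := by linarith
  have key := Num_step (p : ℝ) ((k₀ : ℝ) / P) ((k₁ : ℝ) / P) β lm Real.goldenRatio E
    (by linarith) (by positivity) (by positivity) hβ0 hE1 ?_ ?_ (by linarith) ?_ hφ
  · have : ((k₀ : ℝ) + k₁) / P ≤ Real.goldenRatio * E := by rw [add_div]; exact key
    rw [div_le_iff₀ hPpos] at this
    push_cast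
    calc (k₀ : ℝ) + k₁ ≤ Real.goldenRatio * E * P := this
      _ = Real.goldenRatio * (P * E) := by ring
  · -- h1
    have hk : 0 ≤ (k₀ : ℝ) * k₁ := by positivity
    have step : ((p : ℝ) - 1) * ((k₀ : ℝ) ^ 2 + 2 * ((p : ℝ) + 1) * k₀ * k₁) ≤
        ((p : ℝ) - 1) * (β * P * k₀ + P ^ 2 * (lm * E ^ 2)) := by
      have hP2 : 0 ≤ P ^ 2 := by positivity
      have := mul_le_mul_of_nonneg_left hl hP2
      nlinarith
    have step2 := le_of_mul_le_mul_left step hp1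
    have e : ((k₀ : ℝ) / P) ^ 2 + 2 * ((p : ℝ) + 1) * ((k₀ : ℝ) / P) * ((k₁ : ℝ) / P) =
        ((k₀ : ℝ) ^ 2 + 2 * ((p : ℝ) + 1) * k₀ * k₁) / P ^ 2 := by
      field_simp
    have e2 : β * ((k₀ : ℝ) / P) + lm * E ^ 2 = (β * P * k₀ + P ^ 2 * (lm * E ^ 2)) / P ^ 2 := by
      field_simp
    rw [e, e2]
    exact div_le_div_of_nonneg_right step2 (by positivity)
  · -- h2
    rw [div_le_iff₀ hPpos]
    have hp3 : (0 : ℝ) < (p : ℝ) ^ 3 := by positivity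
    have hk0 : 0 ≤ (k₀ : ℝ) := by positivity
    have s1 : (p : ℝ) ^ 3 * k₁ ≤ P ^ 2 := by
      have : (p : ℝ) * ((k₀ : ℝ) + (p : ℝ) ^ 2 * k₁) = (p : ℝ) * k₀ + (p : ℝ) ^ 3 * k₁ := by ring
      have h0 : 0 ≤ (p : ℝ) * k₀ := by positivity
      linarith
    have s2 : (p : ℝ) ^ 3 * k₁ ≤ (p : ℝ) ^ 3 * (E * P) := by
      calc (p : ℝ) ^ 3 * k₁ ≤ P ^ 2 := s1
        _ = (p : ℝ) ^ 3 * ((p : ℝ) ^ (d - 3) * P) := by rw [sq]; nth_rewrite 1 [hPd]; ring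
        _ ≤ (p : ℝ) ^ 3 * (E * P) := by
          apply mul_le_mul_of_nonneg_left _ hp3.le
          exact mul_le_mul_of_nonneg_right hE hPpos.le
    exact le_of_mul_le_mul_left s2 hp3
  · have := mul_le_mul_of_nonneg_left hβ1 hφ0.le
    linarith

theorem NUMB_sqrt (p : ℕ) (hp : 3 ≤ p) : Real.sqrt p * Real.sqrt p = p ∧ (17 / 10 : ℝ) ≤ Real.sqrt p := by
  have hpR : (3 : ℝ) ≤ (p : ℝ) := by exact_mod_cast hp
  refine ⟨Real.mul_self_sqrt (by positivity), ?_⟩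
  apply Real.le_sqrt_of_sq_le
  norm_num; linarith

theorem NUMB_phi : (1618 / 1000 : ℝ) ≤ Real.goldenRatio := by
  have h5 : (2236 / 1000 : ℝ) ≤ Real.sqrt 5 := by
    apply Real.le_sqrt_of_sq_le; norm_num
  unfold Real.goldenRatio
  linarith

/-- `k₀, k₁` the numbers of the characters of height zero and of positive height, `l = l(b)`. The step for odd `p`,
`d = 3`. HINT: `Num_step` with `E = √p`, `a = k₀/p^3`, `b = k₁/p^3`, `lm = p/(p-1)`,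
`β = A(p-1-A)/(p-1) ≤ √p - 1`, `2 p^2/(p-1) ≥ 2 (p+1)`, `c` the golden ratio (`c^2 = c + 1`). -/
theorem Num_three (p A k₀ k₁ l : ℕ) (hp : 3 ≤ p) (hA : A = 0 ∨ A ^ 2 < p - 1) (hA2 : 2 * A < p)
    (hl : l ≤ p ^ 2)
    (h1 : ((p : ℤ) - 1) * (k₀ : ℤ) ^ 2 + 2 * (p : ℤ) ^ 2 * (k₀ : ℤ) * k₁ ≤
      ((A : ℤ) * ((p : ℤ) - 1 - A)) * (p : ℤ) ^ 3 * (k₀ : ℤ) + (p : ℤ) ^ (2 * 3) * (l : ℤ))
    (h2 : (p : ℤ) * ((k₀ : ℤ) + (p : ℤ) ^ 2 * k₁) ≤ (p : ℤ) ^ (2 * 3)) :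
    ((k₀ + k₁ : ℕ) : ℝ) ≤ Real.goldenRatio * (p : ℝ) ^ ex 3 := by
  have hpR : (3 : ℝ) ≤ (p : ℝ) := by exact_mod_cast hp
  have hp1 : (0 : ℝ) < (p : ℝ) - 1 := by linarith
  obtain ⟨hs, hs1⟩ := NUMB_sqrt p hp
  have hφ := NUMB_phi
  have hφs : Real.goldenRatio ^ 2 = Real.goldenRatio + 1 := Real.goldenRatio_sq
  have := NUMB_core p A 3 k₀ k₁ l hp le_rfl hA hA2 (Real.sqrt p) ((p : ℝ) / ((p : ℝ) - 1))
    (by norm_num; linarith) (by linarith) ?_ (by linarith) ?_ h1 h2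
  · refine this.trans (le_of_eq ?_)
    congr 1
    have e : ex 3 = (3 : ℝ) + 1 / 2 := by
      unfold ex
      have : (2 : ℝ) ^ ((2 : ℝ) - ((3 : ℕ) : ℝ)) = 1 / 2 := by
        rw [show (2 : ℝ) - ((3 : ℕ) : ℝ) = -1 by norm_num, Real.rpow_neg_one]; norm_num
      rw [this]; norm_num
    rw [e, Real.rpow_add (by linarith), Real.sqrt_eq_rpow]
    norm_num
  · have e : ((p : ℝ) - 1) * ((p : ℝ) / ((p : ℝ) - 1) * Real.sqrt p ^ 2) = (p : ℝ) ^ 2 := by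
      rw [sq (Real.sqrt p), hs]; field_simp
    rw [e]
    exact_mod_cast hl
  · rw [hφs]
    have h : (p : ℝ) / ((p : ℝ) - 1) * Real.sqrt p = Real.sqrt p + Real.sqrt p / ((p : ℝ) - 1) := by
      field_simp; ring
    have h' : Real.sqrt p / ((p : ℝ) - 1) ≤ Real.goldenRatio := by
      rw [div_le_iff₀ hp1]
      nlinarith
    rw [h]
    linarith

/-- The step for `p ≥ 5`, `d ≥ 4`, and for `p = 3`, `d ≥ 5`. HINT: `E = p ^ (d - 3 + 2^(2-d))`, so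
`p^d E = p ^ ex d` and `p E^2 = p ^ ex (d-1)`; `lm = c p/(p-1)`, `β ≤ √p - 1 ≤ (c - p/(p-1)) E`. -/
theorem Num_odd (p A d k₀ k₁ l : ℕ) (hp : 3 ≤ p) (hd : 4 ≤ d) (hpd : 5 ≤ p ∨ 5 ≤ d)
    (hA : A = 0 ∨ A ^ 2 < p - 1) (hA2 : 2 * A < p)
    (hl : (l : ℝ) ≤ Real.goldenRatio * (p : ℝ) ^ ex (d - 1))
    (h1 : ((p : ℤ) - 1) * (k₀ : ℤ) ^ 2 + 2 * (p : ℤ) ^ 2 * (k₀ : ℤ) * k₁ ≤
      ((A : ℤ) * ((p : ℤ) - 1 - A)) * (p : ℤ) ^ d * (k₀ : ℤ) + (p : ℤ) ^ (2 * d) * (l : ℤ))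
    (h2 : (p : ℤ) * ((k₀ : ℤ) + (p : ℤ) ^ 2 * k₁) ≤ (p : ℤ) ^ (2 * d)) :
    ((k₀ + k₁ : ℕ) : ℝ) ≤ Real.goldenRatio * (p : ℝ) ^ ex d := by
  have hpR : (3 : ℝ) ≤ (p : ℝ) := by exact_mod_cast hp
  have hp0 : (0 : ℝ) < (p : ℝ) := by linarith
  have hp1 : (0 : ℝ) < (p : ℝ) - 1 := by linarith
  have hpone : (1 : ℝ) ≤ (p : ℝ) := by linarith
  obtain ⟨hs, hs1⟩ := NUMB_sqrt p hp
  have hφ := NUMB_phi
  have hφs : Real.goldenRatio ^ 2 = Real.goldenRatio + 1 := Real.goldenRatio_sq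
  have hφ0 : (0 : ℝ) < Real.goldenRatio := by linarith
  set e : ℝ := (d : ℝ) - 3 + (2 : ℝ) ^ (2 - (d : ℝ)) with he
  set E : ℝ := (p : ℝ) ^ e with hEd
  have hpow2 : (0 : ℝ) < (2 : ℝ) ^ (2 - (d : ℝ)) := by positivity
  have hE : (p : ℝ) ^ (d - 3) ≤ E := by
    rw [hEd, ← Real.rpow_natCast]
    apply Real.rpow_le_rpow_of_exponent_le hpone
    rw [he, Nat.cast_sub (by omega)]
    push_cast; linarith
  have hE1 : (p : ℝ) ≤ E := by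
    refine le_trans ?_ hE
    calc (p : ℝ) = (p : ℝ) ^ 1 := (pow_one _).symm
      _ ≤ (p : ℝ) ^ (d - 3) := pow_le_pow_right₀ hpone (by omega)
  have hd1 : ex d = (d : ℝ) + e := by unfold ex; rw [he]; ring
  have hd2 : ex (d - 1) = 1 + (e + e) := by
    unfold ex
    rw [Nat.cast_sub (by omega), he]
    have : (2 : ℝ) ^ (2 - ((d : ℝ) - ((1 : ℕ) : ℝ))) = 2 * (2 : ℝ) ^ (2 - (d : ℝ)) := by
      rw [show 2 - ((d : ℝ) - ((1 : ℕ) : ℝ)) = 1 + (2 - (d : ℝ)) by push_cast; ring,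
        Real.rpow_add (by norm_num), Real.rpow_one]
    rw [this]
    push_cast; ring
  have hl' : (l : ℝ) ≤ Real.goldenRatio * ((p : ℝ) * E ^ 2) := by
    rw [hd2, Real.rpow_add hp0, Real.rpow_add hp0, Real.rpow_one, ← hEd, ← sq] at hl
    exact hl
  have := NUMB_core p A d k₀ k₁ l hp (by omega) hA hA2 E
    (Real.goldenRatio * ((p : ℝ) / ((p : ℝ) - 1))) hE (by linarith) ?_ ?_ ?_ h1 h2
  · refine this.trans (le_of_eq ?_)
    rw [hd1, Real.rpow_add hp0, Real.rpow_natCast]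
  · refine hl'.trans (le_of_eq ?_)
    field_simp
  · nlinarith
  · have hgoal : Real.sqrt p - 1 ≤ (Real.goldenRatio - (p : ℝ) / ((p : ℝ) - 1)) * E := by
      have hE0 : 0 < E := by linarith
      rcases hpd with h5 | h5
      · have h5R : (5 : ℝ) ≤ (p : ℝ) := by exact_mod_cast h5
        have hq : (p : ℝ) / ((p : ℝ) - 1) ≤ 5 / 4 := by
          rw [div_le_iff₀ hp1]; linarith
        have hc : (368 / 1000 : ℝ) ≤ Real.goldenRatio - (p : ℝ) / ((p : ℝ) - 1) := by linarith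
        have h6 : (368 / 1000 : ℝ) * p ≤ (Real.goldenRatio - (p : ℝ) / ((p : ℝ) - 1)) * E :=
          mul_le_mul hc hE1 hp0.le (by linarith)
        refine le_trans ?_ h6
        nlinarith [sq_nonneg (Real.sqrt p - 1)]
      · have hE2 : (p : ℝ) ^ 2 ≤ E := by
          refine le_trans ?_ hE
          exact pow_le_pow_right₀ hpone (by omega)
        have hq : (p : ℝ) / ((p : ℝ) - 1) ≤ 3 / 2 := by
          rw [div_le_iff₀ hp1]; linarith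
        have hc : (118 / 1000 : ℝ) ≤ Real.goldenRatio - (p : ℝ) / ((p : ℝ) - 1) := by linarith
        have h6 : (118 / 1000 : ℝ) * (p : ℝ) ^ 2 ≤
            (Real.goldenRatio - (p : ℝ) / ((p : ℝ) - 1)) * E :=
          mul_le_mul hc hE2 (by positivity) (by linarith)
        refine le_trans ?_ h6
        have h7 : 3 * (p : ℝ) ≤ (p : ℝ) ^ 2 := by nlinarith
        nlinarith [sq_nonneg (Real.sqrt p - 17 / 10)]
    have h8 := mul_le_mul_of_nonneg_left hgoal hφ0.le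
    nlinarith

end Pool.Agent.KBU
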