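import Pool.Agent.KBU.NumA

/-! The numerical part of the recursion: `p = 3`, `d = 4`, and `p = 2`. -/

namespace Pool.Agent.KBU

/-- `p = 3`, `d = 4`, with `l ≤ 54`. -/
theorem Num_four (k₀ k₁ l : ℕ) (hl : l ≤ 54)
    (h1 : 2 * (k₀ : ℤ) ^ 2 + 18 * (k₀ : ℤ) * k₁ ≤ 81 * (k₀ : ℤ) + 3 ^ 8 * (l : ℤ))
    (h2 : 3 * ((k₀ : ℤ) + 9 * k₁) ≤ 3 ^ 8) :
    ((k₀ + k₁ : ℕ) : ℝ) ≤ Real.goldenRatio * (3 : ℝ) ^ ex 4 := by
  have hφ : (1618 / 1000 : ℝ) ≤ Real.goldenRatio := by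
    have h5 : (2236 / 1000 : ℝ) ≤ Real.sqrt 5 := by
      apply Real.le_sqrt_of_sq_le; norm_num
    unfold Real.goldenRatio
    linarith
  have hint : (k₀ : ℤ) + k₁ ≤ 500 := by
    by_contra hcon
    have h3 : (501 : ℤ) ≤ (k₀ : ℤ) + k₁ := by omega
    have hk0 : (0 : ℤ) ≤ k₀ := by positivity
    have hk1 : (0 : ℤ) ≤ k₁ := by positivity
    have hk2 : (k₁ : ℤ) ≤ 243 := by omega
    have hl' : (l : ℤ) ≤ 54 := by exact_mod_cast hl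
    have h4 : (k₀ : ℤ) * (921 + 16 * k₁) ≤ (k₀ : ℤ) * (2 * k₀ + 18 * k₁ - 81) := by
      apply mul_le_mul_of_nonneg_left _ hk0
      linarith
    have h5 : (501 - (k₁ : ℤ)) * (921 + 16 * k₁) ≤ (k₀ : ℤ) * (921 + 16 * k₁) := by
      apply mul_le_mul_of_nonneg_right (by linarith) (by positivity)
    nlinarith
  have hs : ((k₀ + k₁ : ℕ) : ℝ) ≤ 500 := by exact_mod_cast hint
  have e : ex 4 = (5 : ℕ) + (1 / 4 : ℝ) := by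
    unfold ex
    have : (2 : ℝ) ^ ((2 : ℝ) - ((4 : ℕ) : ℝ)) = 1 / 4 := by
      rw [show (2 : ℝ) - ((4 : ℕ) : ℝ) = -((2 : ℕ) : ℝ) by norm_num, Real.rpow_neg (by norm_num),
        Real.rpow_natCast]
      norm_num
    rw [this]; norm_num
  have h13 : (13 / 10 : ℝ) ≤ (3 : ℝ) ^ (1 / 4 : ℝ) := by
    have : ((13 / 10 : ℝ) ^ (4 : ℕ)) ^ (1 / 4 : ℝ) ≤ (3 : ℝ) ^ (1 / 4 : ℝ) := by
      apply Real.rpow_le_rpow (by norm_num) (by norm_num) (by norm_num)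
    rwa [← Real.rpow_natCast, ← Real.rpow_mul (by norm_num),
      show (((4 : ℕ) : ℝ) * (1 / 4 : ℝ)) = 1 by norm_num, Real.rpow_one] at this
  rw [e, Real.rpow_add (by norm_num), Real.rpow_natCast]
  have h6 : (3 : ℝ) ^ 5 * (13 / 10 : ℝ) ≤ (3 : ℝ) ^ 5 * (3 : ℝ) ^ (1 / 4 : ℝ) :=
    mul_le_mul_of_nonneg_left h13 (by norm_num)
  have h7 : (1618 / 1000 : ℝ) * ((3 : ℝ) ^ 5 * (13 / 10 : ℝ)) ≤
      Real.goldenRatio * ((3 : ℝ) ^ 5 * (3 : ℝ) ^ (1 / 4 : ℝ)) :=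
    mul_le_mul hφ h6 (by norm_num) (by linarith)
  norm_num at h7 ⊢
  push_cast at hs
  linarith

/-- The exponent for `p = 2`. -/
noncomputable def ex2 (d : ℕ) : ℝ := 2 * (d : ℝ) - 2 - (2 : ℝ) ^ (3 - (d : ℝ))

/-- `p = 2`. HINT: `s = k₀ + k₁`, `S = 2 ^ ex2 d`, `S^2 = 4^d 2 ^ ex2 (d-1)`; if `s > S` then
`(s - k₁) (s + 7 k₁) ≤ 4^d l ≤ S^2 < s^2`, so `7 k₁ > 6 s`, but `k₁ ≤ 2^(2d-3)`. -/
theorem Num_two (d k₀ k₁ l : ℕ) (hd : 4 ≤ d) (hl : (l : ℝ) ≤ (2 : ℝ) ^ ex2 (d - 1))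
    (h1 : (k₀ : ℤ) ^ 2 + 8 * (k₀ : ℤ) * k₁ ≤ (2 : ℤ) ^ (2 * d) * (l : ℤ))
    (h2 : 2 * ((k₀ : ℤ) + 4 * k₁) ≤ (2 : ℤ) ^ (2 * d)) :
    ((k₀ + k₁ : ℕ) : ℝ) ≤ (2 : ℝ) ^ ex2 d := by
  have h1R : (k₀ : ℝ) ^ 2 + 8 * (k₀ : ℝ) * k₁ ≤ (2 : ℝ) ^ (2 * d) * (l : ℝ) := by
    have := (Int.cast_le (R := ℝ)).2 h1
    push_cast at this
    exact this
  have h2R : 2 * ((k₀ : ℝ) + 4 * k₁) ≤ (2 : ℝ) ^ (2 * d) := by
    have := (Int.cast_le (R := ℝ)).2 h2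
    push_cast at this
    exact this
  have hdR : (4 : ℝ) ≤ (d : ℝ) := by exact_mod_cast hd
  set S : ℝ := (2 : ℝ) ^ ex2 d with hS
  set P : ℝ := (2 : ℝ) ^ (2 * d) with hP
  have hP0 : 0 < P := by positivity
  have hS2 : S ^ 2 = P * (2 : ℝ) ^ ex2 (d - 1) := by
    rw [hS, hP, sq, ← Real.rpow_natCast (2 : ℝ) (2 * d), ← Real.rpow_add (by norm_num),
      ← Real.rpow_add (by norm_num)]
    congr 1
    unfold ex2
    rw [Nat.cast_sub (by omega)]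
    have : (2 : ℝ) ^ (3 - ((d : ℝ) - ((1 : ℕ) : ℝ))) = 2 * (2 : ℝ) ^ (3 - (d : ℝ)) := by
      rw [show 3 - ((d : ℝ) - ((1 : ℕ) : ℝ)) = 1 + (3 - (d : ℝ)) by push_cast; ring,
        Real.rpow_add (by norm_num), Real.rpow_one]
    rw [this]
    push_cast; ring
  have hSlow : P * (7 / 40 : ℝ) ≤ S := by
    have hexp : ((2 * d : ℕ) : ℝ) + (-(2 : ℕ) : ℝ) + (-(1 / 2) : ℝ) ≤ ex2 d := by
      unfold ex2
      have : (2 : ℝ) ^ (3 - (d : ℝ)) ≤ 1 / 2 := by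
        calc (2 : ℝ) ^ (3 - (d : ℝ)) ≤ (2 : ℝ) ^ (-1 : ℝ) := by
              apply Real.rpow_le_rpow_of_exponent_le (by norm_num); linarith
          _ = 1 / 2 := by rw [Real.rpow_neg_one]; norm_num
      push_cast
      linarith
    have h7 : (7 / 10 : ℝ) ≤ (2 : ℝ) ^ (-(1 / 2) : ℝ) := by
      rw [Real.rpow_neg (by norm_num), ← Real.sqrt_eq_rpow]
      rw [le_inv_comm₀ (by norm_num) (by positivity)]
      apply Real.sqrt_le_iff.2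
      constructor <;> norm_num
    calc P * (7 / 40 : ℝ) = P * (1 / 4) * (7 / 10) := by ring
      _ ≤ P * (1 / 4) * (2 : ℝ) ^ (-(1 / 2) : ℝ) :=
        mul_le_mul_of_nonneg_left h7 (by positivity)
      _ = (2 : ℝ) ^ (((2 * d : ℕ) : ℝ) + (-(2 : ℕ) : ℝ) + (-(1 / 2) : ℝ)) := by
        have h4 : (2 : ℝ) ^ (-(2 : ℕ) : ℝ) = 1 / 4 := by
          rw [Real.rpow_neg (by norm_num), Real.rpow_natCast]; norm_num
        rw [Real.rpow_add (by norm_num), Real.rpow_add (by norm_num), Real.rpow_natCast, h4]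
      _ ≤ S := by
        rw [hS]
        exact Real.rpow_le_rpow_of_exponent_le (by norm_num) hexp
  by_contra hcon
  push Not at hcon
  have hs : ((k₀ + k₁ : ℕ) : ℝ) = (k₀ : ℝ) + k₁ := by push_cast; ring
  rw [hs] at hcon
  have hk0 : (0 : ℝ) ≤ k₀ := by positivity
  have hk1 : (0 : ℝ) ≤ k₁ := by positivity
  have hS0 : 0 < S := by positivity
  have h3 : (k₀ : ℝ) ^ 2 + 8 * (k₀ : ℝ) * k₁ ≤ S ^ 2 := by
    rw [hS2]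
    exact h1R.trans (mul_le_mul_of_nonneg_left hl hP0.le)
  have h4 : S ^ 2 < ((k₀ : ℝ) + k₁) ^ 2 := by nlinarith
  have h5 : (k₁ : ℝ) * (6 * (k₀ : ℝ) - k₁) < 0 := by nlinarith
  have h6 : 6 * (k₀ : ℝ) < k₁ := by
    by_contra h
    push Not at h
    have : 0 ≤ (k₁ : ℝ) * (6 * (k₀ : ℝ) - k₁) := mul_nonneg hk1 (by linarith)
    linarith
  linarith

end Pool.Agent.KBU
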