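import Pool.Agent.KBU.FinA
import Pool.Agent.KBU.JntB
import Pool.Agent.KBU.NumB
import Pool.Agent.KBU.NumC

/-! The recursion. -/

namespace Pool.Agent.KBU

open Pool.Agent.KB Pool.Agent.KB.ContrAux Pool.Agent.KBL Pool.Agent.KBZ

theorem FINB_ex_step (d : ℕ) (hd : 1 ≤ d) : ex d ≤ ex (d + 1) := by
  unfold ex
  push_cast
  have h1 : (2 : ℝ) ^ (2 - (d : ℝ)) ≤ 2 ^ (1 : ℝ) := by
    apply Real.rpow_le_rpow_of_exponent_le (by norm_num)
    have : (1 : ℝ) ≤ (d : ℝ) := by exact_mod_cast hd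
    linarith
  rw [Real.rpow_one] at h1
  have h2 : (0 : ℝ) < (2 : ℝ) ^ (2 - ((d : ℝ) + 1)) := by positivity
  linarith

theorem FINB_ex_mono (a b : ℕ) (ha : 1 ≤ a) (hab : a ≤ b) : ex a ≤ ex b := by
  induction b, hab using Nat.le_induction with
  | base => exact le_rfl
  | succ n hn ih => exact ih.trans (FINB_ex_step n (by omega))

theorem FINB_ex3 : ex 3 = 7 / 2 := by
  unfold ex
  have : (2 : ℝ) ^ (2 - ((3 : ℕ) : ℝ)) = 1 / 2 := by
    have e : (2 - ((3 : ℕ) : ℝ)) = -1 := by norm_num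
    rw [e, Real.rpow_neg_one]
    norm_num
  rw [this]
  norm_num

theorem FINB_ex2_step (d : ℕ) : ex2 d ≤ ex2 (d + 1) := by
  unfold ex2
  push_cast
  have h1 : (2 : ℝ) ^ (3 - ((d : ℝ) + 1)) ≤ (2 : ℝ) ^ (3 - (d : ℝ)) := by
    apply Real.rpow_le_rpow_of_exponent_le (by norm_num)
    linarith
  linarith

theorem FINB_ex2_mono (a b : ℕ) (hab : a ≤ b) : ex2 a ≤ ex2 b := by
  induction b, hab using Nat.le_induction with
  | base => exact le_rfl
  | succ n hn ih => exact ih.trans (FINB_ex2_step n)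

theorem FINB_ex23 : ex2 3 = 3 := by
  unfold ex2
  norm_num

theorem FINB_A (p : ℕ) (hp3 : 3 ≤ p) :
    2 * Nat.sqrt (p - 2) < p ∧ p ≤ (Nat.sqrt (p - 2) + 1) ^ 2 + 1 ∧ (Nat.sqrt (p - 2)) ^ 2 < p - 1 := by
  set A := Nat.sqrt (p - 2) with hA
  have h1 : A * A ≤ p - 2 := Nat.sqrt_le (p - 2)
  have h2 : p - 2 < (A + 1) * (A + 1) := Nat.lt_succ_sqrt (p - 2)
  obtain ⟨n, rfl⟩ : ∃ n, p = n + 2 := ⟨p - 2, by omega⟩
  have e : n + 2 - 2 = n := by omega
  rw [e] at h1 h2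
  refine ⟨?_, ?_, ?_⟩
  · by_contra hcon
    have : n + 2 ≤ 2 * A := not_lt.mp hcon
    nlinarith
  · nlinarith
  · have : n + 2 - 1 = n + 1 := by omega
    rw [this]
    nlinarith

/-- HINT: strong induction on the defect. `A = ⌈√(p-1)⌉ - 1` (the largest `A` with `A^2 < p - 1`, or
`Nat.sqrt (p - 2)`; check `2 A < p` and `p ≤ (A+1)^2 + 1`). -/
theorem FinB_odd (p : ℕ) (hp : p.Prime) (hp3 : 3 ≤ p) (𝔪 : Ideal AInt) (h𝔪 : 𝔪.IsMaximal)
    (hp𝔪 : (p : AInt) ∈ 𝔪) (d : ℕ) : ∀ {G : Type} [Group G] [Fintype G] (χ₀ : G → ℂ),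
      χ₀ ∈ Irr G → defect p (block 𝔪 χ₀) = d → 3 ≤ d →
      ((block 𝔪 χ₀).ncard : ℝ) ≤ Real.goldenRatio * (p : ℝ) ^ ex d := by
  induction d using Nat.strong_induction_on with
  | _ d ih =>
    intro G _ _ χ₀ hχ₀ hdd hd3
    obtain ⟨a1, a2, a3⟩ := FINB_A p hp3
    set A := Nat.sqrt (p - 2) with hA
    obtain ⟨z, hz, ζ, hζ, hind, hdef, Q, hQ1, hQ2, χ, g1, g2, g3⟩ :=
      FINA_step p hp 𝔪 h𝔪 hp𝔪 χ₀ hχ₀ (by omega)
    obtain ⟨k₁, j1, j2, j3⟩ := JntB_main p A hp a1 a2 𝔪 h𝔪 hp𝔪 χ₀ hχ₀ z hz ζ hζ hind hdef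
    rw [hdd] at j2 j3 g3
    set k₀ := (zeroHeight p (block 𝔪 χ₀)).ncard with hk₀
    rw [j1]
    have hgr : (1 : ℝ) ≤ Real.goldenRatio := Real.one_lt_goldenRatio.le
    have hp1 : (1 : ℝ) ≤ (p : ℝ) := by
      have := hp.one_lt
      exact_mod_cast this.le
    obtain ⟨-, g4⟩ := Gam_le p 𝔪 χ
    rcases Nat.lt_or_ge d 4 with hd4 | hd4
    · have hd' : d = 3 := by omega
      subst hd'
      have g5 := FINA_l p hp 𝔪 h𝔪 hp𝔪 χ g1 (by omega)
      exact Num_three p A k₀ k₁ (ell p (block 𝔪 ζ)) hp3 (Or.inr a3) a1 (by omega) j2 j3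
    · by_cases hpd : 5 ≤ p ∨ 5 ≤ d
      · apply Num_odd p A d k₀ k₁ (ell p (block 𝔪 ζ)) hp3 hd4 hpd (Or.inr a3) a1 _ j2 j3
        have l1 : ((ell p (block 𝔪 ζ) : ℕ) : ℝ) ≤ (((block 𝔪 χ).ncard : ℕ) : ℝ) := by
          exact_mod_cast g2.trans g4
        refine l1.trans ?_
        rcases Nat.lt_or_ge (defect p (block 𝔪 χ)) 3 with he | he
        · have g6 := FinA_small p hp 𝔪 h𝔪 hp𝔪 χ g1 (by omega)
          have g7 : p ^ defect p (block 𝔪 χ) ≤ p ^ 2 := Nat.pow_le_pow_right hp.pos (by omega)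
          have g8 : (((block 𝔪 χ).ncard : ℕ) : ℝ) ≤ (p : ℝ) ^ 2 := by
            exact_mod_cast g6.trans g7
          have g9 : (p : ℝ) ^ 2 ≤ (p : ℝ) ^ ex (d - 1) := by
            rw [← Real.rpow_natCast]
            apply Real.rpow_le_rpow_of_exponent_le hp1
            have := FINB_ex_mono 3 (d - 1) (by norm_num) (by omega)
            rw [FINB_ex3] at this
            push_cast
            linarith
          calc (((block 𝔪 χ).ncard : ℕ) : ℝ) ≤ (p : ℝ) ^ ex (d - 1) := g8.trans g9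
            _ = 1 * (p : ℝ) ^ ex (d - 1) := (one_mul _).symm
            _ ≤ Real.goldenRatio * (p : ℝ) ^ ex (d - 1) := by gcongr
        · have g6 := ih (defect p (block 𝔪 χ)) (by omega) χ g1 rfl he
          refine g6.trans ?_
          apply mul_le_mul_of_nonneg_left _ (by linarith)
          apply Real.rpow_le_rpow_of_exponent_le hp1
          exact FINB_ex_mono _ _ (by omega) (by omega)
      · have hp' : p = 3 ∨ p = 4 := by omega
        have hp33 : p = 3 := by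
          rcases hp' with h | h
          · exact h
          · exfalso
            rw [h] at hp
            revert hp
            norm_num
        have hd' : d = 4 := by omega
        subst hd'
        subst hp33
        have hAv : A = 1 := by
          rw [hA]
          decide
        have hl : ell 3 (block 𝔪 ζ) ≤ 54 := by
          refine (g2.trans g4).trans ?_
          rcases Nat.lt_or_ge (defect 3 (block 𝔪 χ)) 3 with he | he
          · have g6 := FinA_small 3 hp 𝔪 h𝔪 hp𝔪 χ g1 (by omega)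
            have g7 : 3 ^ defect 3 (block 𝔪 χ) ≤ 3 ^ 2 := Nat.pow_le_pow_right (by norm_num) (by omega)
            omega
          · have g6 := FinA_three 3 hp 𝔪 h𝔪 hp𝔪 χ g1 (by omega)
            norm_num at g6
            exact g6
        have := Num_four k₀ k₁ (ell 3 (block 𝔪 ζ)) hl (by
          rw [hAv] at j2
          push_cast at j2
          linarith) (by
          push_cast at j3
          linarith)
        exact_mod_cast this

theorem FinB_two (𝔪 : Ideal AInt) (h𝔪 : 𝔪.IsMaximal)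
    (hp𝔪 : ((2 : ℕ) : AInt) ∈ 𝔪) (d : ℕ) : ∀ {G : Type} [Group G] [Fintype G] (χ₀ : G → ℂ),
      χ₀ ∈ Irr G → defect 2 (block 𝔪 χ₀) = d → 3 ≤ d →
      ((block 𝔪 χ₀).ncard : ℝ) ≤ (2 : ℝ) ^ ex2 d := by
  induction d using Nat.strong_induction_on with
  | _ d ih =>
    intro G _ _ χ₀ hχ₀ hdd hd3
    have hp := Nat.prime_two
    rcases Nat.lt_or_ge d 4 with hd4 | hd4
    · have hd' : d = 3 := by omega
      subst hd'
      have g6 := FinA_three 2 hp 𝔪 h𝔪 hp𝔪 χ₀ hχ₀ hdd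
      norm_num at g6
      have g7 : (((block 𝔪 χ₀).ncard : ℕ) : ℝ) ≤ 8 := by exact_mod_cast g6
      refine g7.trans (le_of_eq ?_)
      rw [FINB_ex23]
      norm_num
    · obtain ⟨z, hz, ζ, hζ, hind, hdef, Q, hQ1, hQ2, χ, g1, g2, g3⟩ :=
        FINA_step 2 hp 𝔪 h𝔪 hp𝔪 χ₀ hχ₀ (by omega)
      obtain ⟨k₁, j1, j2, j3⟩ := JntB_main 2 0 hp (by norm_num) (by norm_num) 𝔪 h𝔪 hp𝔪 χ₀ hχ₀ z hz ζ hζ
        hind hdef
      rw [hdd] at j2 j3 g3
      rw [j1]
      obtain ⟨-, g4⟩ := Gam_le 2 𝔪 χ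
      apply Num_two d _ k₁ (ell 2 (block 𝔪 ζ)) hd4 _ _ _
      · have l1 : ((ell 2 (block 𝔪 ζ) : ℕ) : ℝ) ≤ (((block 𝔪 χ).ncard : ℕ) : ℝ) := by
          exact_mod_cast g2.trans g4
        refine l1.trans ?_
        rcases Nat.lt_or_ge (defect 2 (block 𝔪 χ)) 3 with he | he
        · have g6 := FinA_small 2 hp 𝔪 h𝔪 hp𝔪 χ g1 (by omega)
          have g7 : 2 ^ defect 2 (block 𝔪 χ) ≤ 2 ^ 2 := Nat.pow_le_pow_right (by norm_num) (by omega)
          have g8 : (((block 𝔪 χ).ncard : ℕ) : ℝ) ≤ (2 : ℝ) ^ (2 : ℝ) := by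
            have : (((block 𝔪 χ).ncard : ℕ) : ℝ) ≤ (2 : ℝ) ^ (2 : ℕ) := by
              exact_mod_cast g6.trans g7
            rw [← Real.rpow_natCast] at this
            exact_mod_cast this
          refine g8.trans ?_
          apply Real.rpow_le_rpow_of_exponent_le (by norm_num)
          have := FINB_ex2_mono 3 (d - 1) (by omega)
          rw [FINB_ex23] at this
          linarith
        · have g6 := ih (defect 2 (block 𝔪 χ)) (by omega) χ g1 rfl he
          refine g6.trans ?_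
          apply Real.rpow_le_rpow_of_exponent_le (by norm_num)
          exact FINB_ex2_mono _ _ (by omega)
      · push_cast at j2 ⊢
        linarith
      · push_cast at j3 ⊢
        linarith

end Pool.Agent.KBU
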