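import Mathlib

/-! The numerical part of the recursion: the exponent and the basic step. -/

namespace Pool.Agent.KBU

/-- The exponent. -/
noncomputable def ex (d : ℕ) : ℝ := 2 * (d : ℝ) - 3 + (2 : ℝ) ^ (2 - (d : ℝ))

/-- HINT: `s = a + b`. Suppose `c * E < s`. With `g = a^2 + 2 (q+1) a b - β a = (s - b) (s + (2q+1) b - β)`:
`g - s (s - β) = b (2 q s + β - (2q+1) b) ≥ 0` since `b ≤ E`, `s > c E`, `c ≥ 8/5` and `q ≥ 2`; and
`s (s - β) > c E (c E - β) ≥ λ E^2`. -/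
theorem Num_step (q a b β lm c E : ℝ) (hq : 2 ≤ q) (ha : 0 ≤ a) (hb : 0 ≤ b) (hβ : 0 ≤ β)
    (hE : 1 ≤ E) (h1 : a ^ 2 + 2 * (q + 1) * a * b ≤ β * a + lm * E ^ 2) (h2 : b ≤ E)
    (h3 : β ≤ E) (h4 : lm * E + c * β ≤ c ^ 2 * E) (h5 : 8 / 5 ≤ c) :
    a + b ≤ c * E := by
  by_contra hcon
  have hs : c * E < a + b := not_le.mp hcon
  have hE0 : 0 < E := by linarith
  have hcE : 8 / 5 * E ≤ c * E := by
    apply mul_le_mul_of_nonneg_right h5 hE0.le
  have hsE : 8 / 5 * E < a + b := by linarith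
  have hsb : 8 / 5 * b < a + b := by linarith
  -- g ≥ s (s - β)
  have e1 : a ^ 2 + 2 * (q + 1) * a * b - β * a =
      (a + b) * (a + b - β) + b * (2 * q * (a + b) + β - (2 * q + 1) * b) := by ring
  have e2 : 0 ≤ b * (2 * q * (a + b) + β - (2 * q + 1) * b) := by
    apply mul_nonneg hb
    have : (2 * q + 1) * b ≤ 2 * q * (8 / 5 * b) := by nlinarith
    have h6 : 2 * q * (8 / 5 * b) ≤ 2 * q * (a + b) := by
      apply mul_le_mul_of_nonneg_left hsb.le (by linarith)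
    linarith
  have e3 : c * E * (c * E - β) < (a + b) * (a + b - β) := by
    have h7 : 0 ≤ c * E - β := by linarith
    have h8 : 0 < c * E := by linarith
    nlinarith
  have e4 : lm * E ^ 2 ≤ c * E * (c * E - β) := by
    have h9 := mul_le_mul_of_nonneg_right h4 hE0.le
    nlinarith
  linarith

/-- HINT: `A (q - 1 - A) ≤ (q - 1) (√q - 1)`, where `A^2 < q - 1` or `A = 0`. Small `q` by hand. -/
theorem Num_beta (p A : ℕ) (hp : 2 ≤ p) (hA : A = 0 ∨ A ^ 2 < p - 1) (hA2 : 2 * A < p) :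
    (A : ℝ) * ((p : ℝ) - 1 - A) ≤ ((p : ℝ) - 1) * (Real.sqrt p - 1) := by
  have hpr : (2 : ℝ) ≤ (p : ℝ) := by exact_mod_cast hp
  have hsq : (1 : ℝ) ≤ Real.sqrt p := by
    rw [Real.one_le_sqrt]
    linarith
  rcases Nat.eq_zero_or_pos A with h0 | hpos
  · subst h0
    have : 0 ≤ ((p : ℝ) - 1) * (Real.sqrt p - 1) := mul_nonneg (by linarith) (by linarith)
    simpa using this
  · have hA' : A ^ 2 < p - 1 := by
      rcases hA with h | h
      · omega
      · exact h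
    have h2 : A ^ 2 + 2 ≤ p := by omega
    have h3 : (A : ℝ) ^ 2 + 2 ≤ (p : ℝ) := by exact_mod_cast h2
    have hA1 : (1 : ℝ) ≤ (A : ℝ) := by exact_mod_cast hpos
    set x : ℝ := (p : ℝ) - 1 with hx
    have hx1 : (A : ℝ) ^ 2 + 1 ≤ x := by linarith
    have hp' : (p : ℝ) = x + 1 := by linarith
    obtain ⟨t, ht⟩ : ∃ t, x = (A : ℝ) ^ 2 + 1 + t := ⟨x - ((A : ℝ) ^ 2 + 1), by ring⟩
    have ht0 : 0 ≤ t := by linarith
    have key : ((A : ℝ) * x + 1 + t) ^ 2 ≤ x ^ 2 * (x + 1) := by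
      have k1 : 2 * (A : ℝ) ≤ x := by nlinarith [sq_nonneg ((A : ℝ) - 1)]
      have k2 : 1 + t ≤ x := by nlinarith
      have k3 : x ^ 2 * (x + 1) - ((A : ℝ) * x + 1 + t) ^ 2 =
          x * (1 + t) * (x - 2 * (A : ℝ)) + (x - (1 + t)) * (x + (1 + t)) := by
        have : x + 1 = (A : ℝ) ^ 2 + 2 + t := by linarith
        rw [this]
        ring
      have k4 : 0 ≤ x * (1 + t) * (x - 2 * (A : ℝ)) := by
        apply mul_nonneg (mul_nonneg (by linarith) (by linarith)) (by linarith)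
      have k5 : 0 ≤ (x - (1 + t)) * (x + (1 + t)) := mul_nonneg (by linarith) (by linarith)
      linarith
    have hx0 : 0 ≤ x := by linarith
    have key2 : (A : ℝ) * x + 1 + t ≤ x * Real.sqrt (x + 1) := by
      apply le_of_sq_le_sq _ (by positivity)
      rw [mul_pow, Real.sq_sqrt (by linarith)]
      exact key
    rw [hp']
    nlinarith

end Pool.Agent.KBU
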