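import Pool.Agent.KBU.TwoB

/-! The prime `2`: the recursion for `k(B)` and `l(B)`. -/

namespace Pool.Agent.KBU

open Pool.Agent.KB Pool.Agent.KB.ContrAux Pool.Agent.KBL Pool.Agent.KBL.CDAux Pool.Agent.KBZ

/-- Either there are few characters, or all characters have height zero. -/
theorem TwoC_case {k : ℕ} (Z : Finset (Fin k)) (X : Fin k → ℤ) (D : ℤ)
    (hne : Z.Nonempty)
    (h0 : ∀ i ∈ Z, (Z.card : ℤ) - 1 + 4 * ((k : ℤ) - Z.card) + X i ^ 2 ≤ D * X i)
    (h1 : ∀ i ∉ Z, 4 * (Z.card : ℤ) + X i ^ 2 ≤ D * X i) :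
    64 * (k : ℤ) ≤ 7 * D ^ 2 + 16 ∨
      (∀ i, i ∈ Z) ∧ ∀ i, (k : ℤ) - 1 ≤ X i * (D - X i) := by
  by_cases hall : ∀ i, i ∈ Z
  · right
    refine ⟨hall, fun i => ?_⟩
    have h2 := h0 i (hall i)
    have h3 : Z.card = k := by
      have : Z = Finset.univ := by
        ext j
        simp [hall j]
      rw [this, Finset.card_univ, Fintype.card_fin]
    rw [h3] at h2
    nlinarith
  · left
    push Not at hall
    obtain ⟨j, hj⟩ := hall
    obtain ⟨i, hi⟩ := hne
    have h2 := h0 i hi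
    have h3 := h1 j hj
    nlinarith [sq_nonneg (D - 2 * X i), sq_nonneg (D - 2 * X j)]

theorem TwoC_quad {k : ℕ} (X : Fin k → ℤ) (D : ℤ)
    (h : ∀ i, (k : ℤ) - 1 ≤ X i * (D - X i)) :
    25 * (k : ℤ) * ((k : ℤ) - 1) ≤ 15 * D * ∑ i, X i + k * D ^ 2 := by
  have h1 : ∀ i, 25 * ((k : ℤ) - 1) ≤ 15 * D * X i + D ^ 2 := by
    intro i
    have := h i
    nlinarith [sq_nonneg (5 * X i - D)]
  calc 25 * (k : ℤ) * ((k : ℤ) - 1) = ∑ _i : Fin k, 25 * ((k : ℤ) - 1) := by
        rw [Finset.sum_const, Finset.card_univ, Fintype.card_fin, nsmul_eq_mul]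
        ring
    _ ≤ ∑ i, (15 * D * X i + D ^ 2) := Finset.sum_le_sum fun i _ => h1 i
    _ = _ := by
        rw [Finset.sum_add_distrib, ← Finset.mul_sum, Finset.sum_const, Finset.card_univ,
          Fintype.card_fin, nsmul_eq_mul]

theorem TwoC_root (X D K q : ℤ) (h : K ≤ X * (D - X)) (hq : q * (D - q) < K) (h2 : 2 * q ≤ D) :
    q < X := by
  by_contra hcon
  push Not at hcon
  nlinarith [mul_nonneg (by linarith : (0 : ℤ) ≤ q - X) (by linarith : (0 : ℤ) ≤ D - q - X)]

theorem TwoC_sum {k : ℕ} (X : Fin k → ℤ) (q : ℤ) (h : ∀ i, q ≤ X i) :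
    q * (k : ℤ) ≤ ∑ i, X i := by
  calc q * (k : ℤ) = ∑ _i : Fin k, q := by
        rw [Finset.sum_const, Finset.card_univ, Fintype.card_fin, nsmul_eq_mul]
        ring
    _ ≤ _ := Finset.sum_le_sum fun i _ => h i

/-- The bound for `l(B)` from the bound for `k(B)`. -/
theorem TwoC_l (D k l : ℤ) (hD : 1024 ≤ D ^ 2) (hk : 25 * k + 200 ≤ 4 * D ^ 2)
    (h : 15 * D ^ 2 * l ≤ 16 * k * D ^ 2 - 25 * k * (k - 1)) :
    125 * l + 500 ≤ 16 * D ^ 2 := by
  have hq : 0 < 15 * D ^ 2 := by linarith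
  have h1 : 15 * D ^ 2 * (125 * l + 500) ≤ 15 * D ^ 2 * (16 * D ^ 2) := by
    have h2 : 0 ≤ (4 * D ^ 2 - 200 - 25 * k) *
        (80 * D ^ 2 + 125 - 5 * (25 * k + (4 * D ^ 2 - 200))) := by
      apply mul_nonneg <;> nlinarith
    nlinarith
  exact le_of_mul_le_mul_left h1 hq

/-- The bound for `k(B)` from the bound for `l(b)`. -/
theorem TwoC_k (D k l : ℤ) (hD : 1024 ≤ D ^ 2) (hl : 125 * l + 500 ≤ 4 * D ^ 2)
    (h : 25 * k * (k - 1) ≤ 15 * D ^ 2 * l + k * D ^ 2) :
    25 * k + 200 ≤ 4 * D ^ 2 := by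
  by_contra hcon
  push Not at hcon
  have h1 : 25 * k * (25 * k - 25 - D ^ 2) ≤ 3 * D ^ 2 * (4 * D ^ 2 - 500) := by
    nlinarith
  have h2 : 0 ≤ (25 * k - (4 * D ^ 2 - 199)) * (25 * k + (4 * D ^ 2 - 199) - 25 - D ^ 2) := by
    apply mul_nonneg <;> nlinarith
  nlinarith

/-- The induction. -/
theorem TwoC_main (𝔪 : Ideal AInt) (h𝔪 : 𝔪.IsMaximal)
    (hp𝔪 : ((2 : ℕ) : AInt) ∈ 𝔪) (d : ℕ) : ∀ {G : Type} [Group G] [Fintype G] (χ₀ : G → ℂ),
      χ₀ ∈ Irr G → defect 2 (block 𝔪 χ₀) = d →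
      (d ≤ 3 → ell 2 (block 𝔪 χ₀) ≤ 7) ∧
      (d = 4 → ell 2 (block 𝔪 χ₀) ≤ 30 ∧ (block 𝔪 χ₀).ncard ≤ 37) ∧
      (5 ≤ d → 25 * ((block 𝔪 χ₀).ncard : ℤ) + 200 ≤ 4 * ((2 : ℤ) ^ d) ^ 2 ∧
        125 * (ell 2 (block 𝔪 χ₀) : ℤ) + 500 ≤ 16 * ((2 : ℤ) ^ d) ^ 2) := by
  induction d using Nat.strong_induction_on with
  | _ d IH =>
    intro G _ _ χ₀ hχ₀ hdef
    have hle := (Gam_le 2 𝔪 χ₀).2
    by_cases hd3 : d ≤ 3
    · refine ⟨fun _ => ?_, fun h => absurd h (by omega), fun h => absurd h (by omega)⟩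
      rcases eq_or_lt_of_le hd3 with h | h
      · have h1 := FinA_three 2 Nat.prime_two 𝔪 h𝔪 hp𝔪 χ₀ hχ₀ (by omega)
        have h2 := Gam_main 2 Nat.prime_two 𝔪 h𝔪 hp𝔪 χ₀ hχ₀ (by omega)
        omega
      · have h1 := FinA_small 2 Nat.prime_two 𝔪 h𝔪 hp𝔪 χ₀ hχ₀ (by omega)
        have h2 : 2 ^ defect 2 (block 𝔪 χ₀) ≤ 2 ^ 2 :=
          Nat.pow_le_pow_right (by norm_num) (by omega)
        omega
    · refine ⟨fun h => absurd h hd3, ?_⟩
      obtain ⟨z, hz, ζ, hζ, hind, hdef', Q, iQ, fQ, χ, hχ, hl, hdd⟩ :=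
        FINA_step 2 Nat.prime_two 𝔪 h𝔪 hp𝔪 χ₀ hχ₀ (by omega)
      rw [hdef] at hdd
      obtain ⟨k, hk, Z, X, hne, hodd, h0, h1, h2, h3⟩ : ∃ k : ℕ, k = (block 𝔪 χ₀).ncard ∧
          ∃ (Z : Finset (Fin k)) (X : Fin k → ℤ),
            Z.Nonempty ∧ (∀ i ∈ Z, ¬ (2 : ℤ) ∣ X i) ∧
            (∀ i ∈ Z, (Z.card : ℤ) - 1 + 4 * ((k : ℤ) - Z.card) + X i ^ 2 ≤
              (2 : ℤ) ^ defect 2 (block 𝔪 χ₀) * X i) ∧
            (∀ i ∉ Z, 4 * (Z.card : ℤ) + X i ^ 2 ≤ (2 : ℤ) ^ defect 2 (block 𝔪 χ₀) * X i) ∧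
            ∑ i, X i ≤ (2 : ℤ) ^ defect 2 (block 𝔪 χ₀) * ell 2 (block 𝔪 ζ) ∧
            ∑ i, X i + (2 : ℤ) ^ defect 2 (block 𝔪 χ₀) * ell 2 (block 𝔪 χ₀) ≤
              (2 : ℤ) ^ defect 2 (block 𝔪 χ₀) * k :=
        ⟨_, rfl, TwoB_main 𝔪 h𝔪 hp𝔪 χ₀ hχ₀ z hz ζ hζ hind hdef' (by omega)⟩
      rw [hdef] at h0 h1 h2 h3
      rw [← hk] at hle ⊢
      have hcase := TwoC_case Z X ((2 : ℤ) ^ d) hne h0 h1
      obtain ⟨q3, q4, q5⟩ := IH (defect 2 (block 𝔪 χ)) (by omega) χ hχ rfl
      set lB := ell 2 (block 𝔪 χ₀) with hlB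
      set l := ell 2 (block 𝔪 ζ) with hlb
      set l' := ell 2 (block 𝔪 χ) with hl'
      have hleZ : (lB : ℤ) ≤ k := by exact_mod_cast hle
      constructor
      · intro hd4
        have hl7 : l ≤ 7 := hl.trans (q3 (by omega))
        have hl7Z : (l : ℤ) ≤ 7 := by exact_mod_cast hl7
        rw [hd4] at hcase h2 h3
        norm_num at hcase h2 h3
        have hk37 : (k : ℤ) ≤ 37 := by
          rcases hcase with h | ⟨hall, h⟩
          · omega
          · by_contra hcon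
            push Not at hcon
            have h5 : ∀ i, 3 ≤ X i := by
              intro i
              have := TwoC_root (X i) 16 ((k : ℤ) - 1) 2 (by linarith [h i]) (by omega) (by norm_num)
              omega
            have h6 := TwoC_sum X 3 h5
            omega
        have hl30 : (lB : ℤ) ≤ 30 := by
          rcases hcase with h | ⟨hall, h⟩
          · omega
          · by_contra hcon
            push Not at hcon
            have h5 : ∀ i, 3 ≤ X i := by
              intro i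
              have := TwoC_root (X i) 16 ((k : ℤ) - 1) 2 (by linarith [h i]) (by omega) (by norm_num)
              omega
            have h6 := TwoC_sum X 3 h5
            omega
        exact ⟨by exact_mod_cast hl30, by exact_mod_cast hk37⟩
      · intro hd5
        -- the bound for `l(b)`
        have hpow : ∀ a b : ℕ, a ≤ b → ((2 : ℤ) ^ a) ^ 2 ≤ ((2 : ℤ) ^ b) ^ 2 := by
          intro a b hab
          have h5 : (2 : ℤ) ^ a ≤ (2 : ℤ) ^ b := pow_le_pow_right₀ (by norm_num) hab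
          have h6 : (0 : ℤ) < (2 : ℤ) ^ a := by positivity
          nlinarith
        have hD : (1024 : ℤ) ≤ ((2 : ℤ) ^ d) ^ 2 := by
          have := hpow 5 d hd5
          norm_num at this
          exact this
        have hkey : 25 * (k : ℤ) + 200 ≤ 4 * ((2 : ℤ) ^ d) ^ 2 := by
          rcases hcase with h | ⟨hall, h⟩
          · omega
          · rcases eq_or_lt_of_le hd5 with h5 | h5
            · -- d = 5
              have hl30 : l ≤ 30 := by
                by_cases h6 : defect 2 (block 𝔪 χ) ≤ 3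
                · have := q3 h6
                  omega
                · have := (q4 (by omega)).1
                  omega
              have hl30Z : (l : ℤ) ≤ 30 := by exact_mod_cast hl30
              rw [← h5] at h h2 ⊢
              norm_num at h h2 ⊢
              have hk137 : (k : ℤ) ≤ 137 := by
                by_contra hcon
                push Not at hcon
                have h7 : ∀ i, 7 ≤ X i := by
                  intro i
                  have h8 := TwoC_root (X i) 32 ((k : ℤ) - 1) 5 (by linarith [h i]) (by omega) (by norm_num)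
                  have h9 := hodd i (hall i)
                  omega
                have h6 := TwoC_sum X 7 h7
                omega
              omega
            · have hD6 : (4096 : ℤ) ≤ ((2 : ℤ) ^ d) ^ 2 := by
                have := hpow 6 d h5
                norm_num at this
                exact this
              have hlb4 : 125 * (l : ℤ) + 500 ≤ 4 * ((2 : ℤ) ^ d) ^ 2 := by
                have hlZ : (l : ℤ) ≤ l' := by exact_mod_cast hl
                by_cases h6 : 5 ≤ defect 2 (block 𝔪 χ)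
                · have h7 := (q5 h6).2
                  have h8 := hpow (defect 2 (block 𝔪 χ) + 1) d (by omega)
                  have h9 : ((2 : ℤ) ^ (defect 2 (block 𝔪 χ) + 1)) ^ 2 =
                      4 * ((2 : ℤ) ^ defect 2 (block 𝔪 χ)) ^ 2 := by
                    rw [pow_succ]
                    ring
                  rw [h9] at h8
                  linarith
                · have h7 : l' ≤ 30 := by
                    by_cases h8 : defect 2 (block 𝔪 χ) ≤ 3
                    · have := q3 h8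
                      omega
                    · exact (q4 (by omega)).1
                  have h8 : (l' : ℤ) ≤ 30 := by exact_mod_cast h7
                  linarith
              refine TwoC_k ((2 : ℤ) ^ d) k l hD hlb4 ?_
              have h9 := TwoC_quad X ((2 : ℤ) ^ d) h
              have h10 : (0 : ℤ) < (2 : ℤ) ^ d := by positivity
              have h11 := mul_le_mul_of_nonneg_left h2 h10.le
              nlinarith
        refine ⟨hkey, ?_⟩
        rcases hcase with h | ⟨hall, h⟩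
        · omega
        · refine TwoC_l ((2 : ℤ) ^ d) k lB hD hkey ?_
          have h9 := TwoC_quad X ((2 : ℤ) ^ d) h
          have h10 : (0 : ℤ) < (2 : ℤ) ^ d := by positivity
          have h11 := mul_le_mul_of_nonneg_left h3 h10.le
          nlinarith

/-- The bound for all blocks of defect at least `3`. -/
theorem TwoC_fin (𝔪 : Ideal AInt) (h𝔪 : 𝔪.IsMaximal)
    (hp𝔪 : ((2 : ℕ) : AInt) ∈ 𝔪) {G : Type} [Group G] [Fintype G] (χ₀ : G → ℂ)
    (hχ₀ : χ₀ ∈ Irr G) (hd : 3 ≤ defect 2 (block 𝔪 χ₀)) :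
    25 * (block 𝔪 χ₀).ncard ≤ 4 ^ (defect 2 (block 𝔪 χ₀) + 1) := by
  obtain ⟨-, h4, h5⟩ := TwoC_main 𝔪 h𝔪 hp𝔪 _ χ₀ hχ₀ rfl
  set d := defect 2 (block 𝔪 χ₀) with hdd
  rcases Nat.lt_or_ge d 4 with h | h
  · have h3 : d = 3 := by omega
    have h6 := FinA_three 2 Nat.prime_two 𝔪 h𝔪 hp𝔪 χ₀ hχ₀ (by omega)
    rw [h3]
    omega
  · rcases Nat.lt_or_ge d 5 with h' | h'
    · have h3 : d = 4 := by omega
      have h6 := (h4 h3).2
      rw [h3]
      omega
    · have h6 := (h5 h').1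
      have h7 : ((4 ^ (d + 1) : ℕ) : ℤ) = 4 * ((2 : ℤ) ^ d) ^ 2 := by
        push_cast
        rw [← pow_mul, mul_comm d 2, pow_mul, pow_succ]
        norm_num
        ring
      have h8 : ((25 * (block 𝔪 χ₀).ncard : ℕ) : ℤ) ≤ ((4 ^ (d + 1) : ℕ) : ℤ) := by
        rw [h7]
        push_cast
        linarith
      exact_mod_cast h8

end Pool.Agent.KBU
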