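import Pool.Agent.KBU.Defs
import Pool.Agent.KBZ.AsmZ

/-! The vectors of the multiplicities for characters of height zero. -/

namespace Pool.Agent.KBU

open Pool.Agent.KB Pool.Agent.KB.ContrAux Pool.Agent.KBL Pool.Agent.KBL.CDAux Pool.Agent.KBZ

/-- HINT: `Cdeg_main`: `p^d n n' = |G| c χ` with `p ∤ n'`, and `A p χ χ₀ ∈ 𝔪 ↔ p ∣ c χ`. -/
theorem Ht_iff {G : Type} [Group G] [Fintype G] (p : ℕ) (hp : p.Prime) (𝔪 : Ideal AInt)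
    (h𝔪 : 𝔪.IsMaximal) (hp𝔪 : (p : AInt) ∈ 𝔪) (χ₀ : G → ℂ) (hχ₀ : χ₀ ∈ Irr G) (χ : G → ℂ)
    (hχ : χ ∈ block 𝔪 χ₀) : χ ∈ zeroHeight p (block 𝔪 χ₀) ↔ ¬ InM 𝔪 (A p χ χ₀) := by
  obtain ⟨n', c, c₀, hn', -, -, hdeg, -, hA, -⟩ := Cdeg_main p hp 𝔪 h𝔪 hp𝔪 χ₀ hχ₀
  rw [hA χ hχ]
  have hcard : Nat.card G ≠ 0 := Nat.card_pos.ne'
  obtain ⟨a, ha⟩ : ∃ a, a = padicValNat p (Nat.card G) := ⟨_, rfl⟩
  have hfact : Fact p.Prime := ⟨hp⟩
  obtain ⟨m, hm⟩ : p ^ a ∣ Nat.card G := by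
    rw [ha]; exact pow_padicValNat_dvd
  have hpm : ¬ p ∣ m := by
    rintro ⟨w, hw⟩
    have h1 : p ^ (a + 1) ∣ Nat.card G := ⟨w, by rw [hm, hw]; ring⟩
    rw [ha] at h1
    exact pow_succ_padicValNat_not_dvd hcard h1
  have key : ∀ n : ℕ, χ 1 = n → (p ^ (a + 1) ∣ p ^ defect p (block 𝔪 χ₀) * n ↔ p ∣ c χ) := by
    intro n hn
    have h1 := hdeg χ hχ
    rw [hn] at h1
    have h2 : p ^ defect p (block 𝔪 χ₀) * n * n' = p ^ a * m * c χ := by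
      rw [← hm]
      exact_mod_cast h1
    have hcop : Nat.Coprime (p ^ (a + 1)) n' :=
      Nat.Coprime.pow_left _ ((Nat.Prime.coprime_iff_not_dvd hp).2 hn')
    constructor
    · intro h
      have h3 : p ^ (a + 1) ∣ p ^ a * m * c χ := h2 ▸ Dvd.dvd.mul_right h n'
      have h4 : p ^ a * p ∣ p ^ a * (m * c χ) := by
        rw [← pow_succ, ← mul_assoc]
        exact h3
      have h5 : p ∣ m * c χ := Nat.dvd_of_mul_dvd_mul_left (pow_pos hp.pos a) h4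
      exact (hp.dvd_mul.1 h5).resolve_left hpm
    · intro h
      obtain ⟨w, hw⟩ := h
      have h3 : p ^ (a + 1) ∣ p ^ defect p (block 𝔪 χ₀) * n * n' := by
        rw [h2, hw]
        exact ⟨m * w, by ring⟩
      exact hcop.dvd_of_dvd_mul_right h3
  constructor
  · rintro ⟨-, n, hn, hnd⟩ hc
    rw [← ha] at hnd
    exact hnd ((key n hn).2 hc)
  · intro hc
    obtain ⟨n, -, hn⟩ := irr_deg hχ.1
    refine ⟨hχ, n, hn, ?_⟩
    rw [← ha]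
    exact fun h => hc ((key n hn).1 h)

variable {G : Type} [Group G] [Fintype G] {p : ℕ} {𝔪 : Ideal AInt} {u : G} {C : Subgroup G}
  [Fintype C] {ζ₀ : C → ℂ}

open Classical in
/-- Height zero. HINT: `Cdeg_main` for `(C, ζ₀)`, `Com_zero` with `x = Pi.single k₀ 1`, `p ∤ cC (X k₀)` (see the
proof of `AsmZ_main`, (5)): `H 0 χ x ∉ 𝔪`, `H 0 χ x = ∑ r t bil M (a r t) x` is congruent to
`c (∑ r t j, a r t j * v j) (v k₀)` modulo `p`. -/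
theorem Ht_zero (L : Loc p 𝔪 u C ζ₀) (χ₀ : G → ℂ) (hχ₀ : χ₀ ∈ Irr G)
    (hind : ∀ g : G, InM 𝔪 (omega χ₀ g - (∑ h : {h : C // IsConj g (h : G)}, ζ₀ h) / ζ₀ 1))
    (c : ℤ) (v : Fin L.K → ℤ) (hM : ∀ i j, (p : ℤ) ∣ L.M i j - c * v i * v j)
    (χ : G → ℂ) (hχ : χ ∈ block 𝔪 χ₀) (h0 : ¬ InM 𝔪 (A p χ χ₀)) :
    ¬ (p : ℤ) ∣ ∑ r, ∑ t, ∑ j, L.a χ r t j * v j := by
  intro hvA
  apply h0
  have hp := L.hp
  have hmax := L.hmax
  have hpm := L.hpm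
  obtain ⟨nC, cC, c₀, hnC, hc₀, -, hdegC, ⟨ψ₁, hψ₁, hcψ₁⟩, -, hMC⟩ :=
    Cdeg_main p hp 𝔪 hmax hpm ζ₀ L.hζ
  obtain ⟨k₀, hk₀⟩ := L.surj ψ₁ hψ₁
  have hcZ : ¬ (p : ℤ) ∣ (cC (L.X k₀) : ℤ) := by
    intro h
    apply hcψ₁
    rw [hk₀] at h
    exact_mod_cast h
  have hsingle : ∀ w : Fin L.K → ℤ, ∑ i, (Pi.single k₀ (1 : ℤ) : Fin L.K → ℤ) i * w i = w k₀ := by
    intro w
    rw [Finset.sum_eq_single k₀]
    · simp
    · intro b _ hb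
      rw [Pi.single_eq_of_ne hb, zero_mul]
    · intro h
      exact absurd (Finset.mem_univ _) h
  have h1 : (p : ℤ) ∣ ∑ r, ∑ t, bil L.M (L.a χ r t) (Pi.single k₀ 1) := by
    have h2 : (p : ℤ) ∣ ∑ r, ∑ t, (bil L.M (L.a χ r t) (Pi.single k₀ 1) -
        c * (∑ i, L.a χ r t i * v i) * v k₀) := by
      refine Finset.dvd_sum fun r _ => Finset.dvd_sum fun t _ => ?_
      have h3 := TopA_bil_mod p L.M c v hM (L.a χ r t) (Pi.single k₀ 1)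
      rw [hsingle] at h3
      exact h3
    have h4 : ∑ r, ∑ t, (bil L.M (L.a χ r t) (Pi.single k₀ 1) -
        c * (∑ i, L.a χ r t i * v i) * v k₀) =
        ∑ r, ∑ t, bil L.M (L.a χ r t) (Pi.single k₀ 1) -
          (c * v k₀) * ∑ r, ∑ t, ∑ i, L.a χ r t i * v i := by
      simp only [Finset.sum_sub_distrib, Finset.mul_sum, Finset.sum_mul]
      congr 1
      refine Finset.sum_congr rfl fun r _ => Finset.sum_congr rfl fun t _ =>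
        Finset.sum_congr rfl fun i _ => ?_
      ring
    rw [h4] at h2
    have h5 : (p : ℤ) ∣ (c * v k₀) * ∑ r, ∑ t, ∑ i, L.a χ r t i * v i :=
      Dvd.dvd.mul_left hvA _
    exact (dvd_sub_left h5).mp h2
  have hH0 : L.H 0 χ (Pi.single k₀ 1) =
      ((∑ r, ∑ t, bil L.M (L.a χ r t) (Pi.single k₀ 1) : ℤ) : ℂ) := by
    unfold Loc.H
    push_cast
    refine Finset.sum_congr rfl fun r _ => Finset.sum_congr rfl fun t _ => ?_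
    rw [zero_mul, pow_zero, one_mul]
  have h2 : InM 𝔪 (L.H 0 χ (Pi.single k₀ 1)) := by
    rw [hH0]
    have h3 := InM_p (𝔪 := 𝔪) (p := p) hpm h1 (isIntegral_nat 1)
    rw [Nat.cast_one, mul_one] at h3
    exact h3
  have h3 := Com_zero L χ₀ hχ₀ hind nC (fun k => cC (L.X k)) (fun k => hdegC (L.X k) (L.mem k))
    χ hχ.1 (Pi.single k₀ 1)
  rw [hsingle (fun k => (cC (L.X k) : ℤ))] at h3
  have h4 : InM 𝔪 (((cC (L.X k₀) : ℤ) : ℂ) * A p χ χ₀) := by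
    have e : ((cC (L.X k₀) : ℤ) : ℂ) * A p χ χ₀ = (nC : ℂ) * L.H 0 χ (Pi.single k₀ 1) -
        ((nC : ℂ) * L.H 0 χ (Pi.single k₀ 1) - ((cC (L.X k₀) : ℤ) : ℂ) * A p χ χ₀) := by ring
    rw [e]
    exact InM_sub (InM_mul (isIntegral_nat nC) h2) h3
  exact InM_cancel hp hpm hcZ (A_integral hχ.1 hχ₀) h4

end Pool.Agent.KBU
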