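import Pool.Agent.KBU.Dgp
import Pool.Agent.KBU.Ext
import Pool.Agent.KBZ.Defs

/-! Existence of a major subsection `(z, b)` with `z` of order `p`. -/

namespace Pool.Agent.KBU

open Pool.Agent.KB Pool.Agent.KB.ContrAux Pool.Agent.KBL Pool.Agent.KBZ

open Classical in
theorem MajA_cls {H : Type} [Group H] [Fintype H] (g x : H) :
    (clsum g).coeff x = if IsConj g x then (1 : AInt) else 0 := by
  unfold clsum
  rw [MonoidAlgebra.coeff_sum, Finsupp.finsetSum_apply]
  have h1 : ∀ h : H, (MonoidAlgebra.of AInt H h).coeff x = if h = x then (1 : AInt) else 0 := by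
    intro h
    rw [MonoidAlgebra.of_apply]
    exact Finsupp.single_apply
  simp only [h1]
  rw [Finset.sum_ite_eq']
  simp only [Finset.mem_filter, Finset.mem_univ, true_and]

/-- A central element with all coefficients in `𝔪` has its central character values in `𝔪`. -/
theorem MajA_small {H : Type} [Group H] [Fintype H] (𝔪 : Ideal AInt) (ζ : H → ℂ) (hζ : ζ ∈ Irr H)
    (δ : MonoidAlgebra AInt H) (hδ : Ctr δ) (h : ∀ x, δ.coeff x ∈ 𝔪) : InM 𝔪 (omg ζ δ) := by
  classical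
  rw [Alg_sum ζ hζ δ hδ]
  refine InM_sum _ _ fun K _ => ?_
  rw [mul_comm]
  exact InM_mul (irr_omega hζ _) ⟨_, h _, rfl⟩

/-- If `omg θ δ` is not zero then some coefficient is not zero. -/
theorem MajA_ne {H : Type} [Group H] [Fintype H] (θ : H → ℂ) (δ : MonoidAlgebra AInt H)
    (h : omg θ δ ≠ 0) : ∃ x, δ.coeff x ≠ 0 := by
  by_contra hcon
  push Not at hcon
  apply h
  unfold omg ev
  rw [Finset.sum_eq_zero, zero_div]
  intro g _
  rw [hcon g]
  simp

open Classical in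
/-- The value at the restriction of a class sum. -/
theorem MajA_trc {G : Type} [Group G] [Fintype G] (C : Subgroup G) (ζ : C → ℂ) (g : G) :
    omg ζ (trc C.subtype (clsum g)) =
      (∑ᶠ h : {h : C // IsConj g (h : G)}, ζ h) / ζ 1 := by
  unfold omg
  congr 1
  unfold ev
  rw [finsum_eq_sum_of_fintype, ← Finset.sum_subtype (Finset.univ.filter
    fun h : C => IsConj g (h : G)) (p := fun h : C => IsConj g (h : G))
    (fun x => by simp) (fun h : C => ζ h), Finset.sum_filter]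
  refine Finset.sum_congr rfl fun x _ => ?_
  rw [Br_coeff, MajA_cls]
  by_cases hx : IsConj g (x : G)
  · rw [if_pos hx, if_pos (by exact hx)]
    simp
  · rw [if_neg hx, if_neg (by exact hx)]
    simp

/-- The reduction of the central character pulled back by the Brauer homomorphism. -/
theorem MajA_lift {C H' : Type} [Group C] [Fintype C] [Group H'] [Fintype H'] (p : ℕ)
    (hp : p.Prime) (𝔪 : Ideal AInt) (h𝔪 : 𝔪.IsMaximal) (hp𝔪 : (p : AInt) ∈ 𝔪)
    (D : Subgroup C) (hD : IsPGroup p D) (ι : H' →* C) (hι : Function.Injective ι)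
    (hr : ∀ x : C, (∃ y, ι y = x) ↔ ∀ g ∈ D, g * x = x * g)
    (θ : H' → ℂ) (hθ : θ ∈ Irr H') :
    ∃ ζ ∈ Irr C, ∀ α : MonoidAlgebra AInt C, Ctr α → InM 𝔪 (omg ζ α - omg θ (trc ι α)) := by
  classical
  have hint : ∀ α : MonoidAlgebra AInt C, Ctr α → ∃ w : AInt, (w : ℂ) = omg θ (trc ι α) :=
    fun α hα => ⟨⟨_, Alg_int θ hθ _ (Br_ctr ι α hα)⟩, rfl⟩
  let W : MonoidAlgebra AInt C → AInt := fun α =>
    if h : ∃ w : AInt, (w : ℂ) = omg θ (trc ι α) then h.choose else 0
  have hW : ∀ α : MonoidAlgebra AInt C, Ctr α → (W α : ℂ) = omg θ (trc ι α) := by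
    intro α hα
    have h := hint α hα
    show (((if h : ∃ w : AInt, (w : ℂ) = omg θ (trc ι α) then h.choose else 0) : AInt) : ℂ) = _
    rw [dif_pos h]
    exact h.choose_spec
  have hmk : ∀ a b : AInt, InM 𝔪 ((a : ℂ) - b) → Ideal.Quotient.mk 𝔪 a = Ideal.Quotient.mk 𝔪 b := by
    intro a b h
    obtain ⟨c, hc, hc'⟩ := h
    rw [Ideal.Quotient.eq]
    have : a - b = c := by
      apply Subtype.ext
      rw [hc']
      rfl
    rw [this]
    exact hc
  have hS := Sep_main (H := C) 𝔪 h𝔪 (fun α => Ideal.Quotient.mk 𝔪 (W α)) ?_ ?_ ?_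
  · obtain ⟨ζ, hζ, h⟩ := hS
    refine ⟨ζ, hζ, fun α hα => ?_⟩
    have h1 := h α hα ⟨_, Alg_int ζ hζ α hα⟩ rfl
    have h2 := h1.symm
    rw [Ideal.Quotient.eq] at h2
    refine ⟨_, h2, ?_⟩
    rw [← hW α hα]
    rfl
  · intro c
    congr 1
    apply Subtype.ext
    rw [hW _ (Alg_ctr_const c), Br_const ι hι, Alg_const θ hθ]
  · intro α β hα hβ
    show _ = Ideal.Quotient.mk 𝔪 (W α) + Ideal.Quotient.mk 𝔪 (W β)
    rw [← map_add]
    congr 1
    apply Subtype.ext
    show (W (α + β) : ℂ) = (W α : ℂ) + (W β : ℂ)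
    rw [hW _ (Alg_ctr_add α β hα hβ), hW α hα, hW β hβ, Br_add, Alg_add]
  · intro α β hα hβ
    show _ = Ideal.Quotient.mk 𝔪 (W α) * Ideal.Quotient.mk 𝔪 (W β)
    rw [← map_mul]
    apply hmk
    have h1 : ((W α * W β : AInt) : ℂ) = (W α : ℂ) * (W β : ℂ) := rfl
    rw [h1, hW _ (Alg_ctr_mul α β hα hβ), hW α hα, hW β hβ,
      ← Alg_mul θ hθ _ _ (Br_ctr ι α hα), ← Alg_sub]
    apply MajA_small 𝔪 θ hθ
    · exact Alg_ctr_sub _ _ (Br_ctr ι _ (Alg_ctr_mul α β hα hβ))
        (Alg_ctr_mul _ _ (Br_ctr ι α hα) (Br_ctr ι β hβ))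
    · intro x
      obtain ⟨c, hc⟩ := Br_mul p hp D hD ι hι hr α β hα hβ x
      rw [MonoidAlgebra.coeff_sub, Finsupp.sub_apply, hc]
      exact 𝔪.mul_mem_right _ hp𝔪

/-- HINT: `D` by `Dgp_main`, `z` in the center of `D` of order `p` (`IsPGroup.center_nontrivial`, Cauchy),
`C = C_G(z)`, `H' = C_G(D)` (a subgroup of `G`, `H' ≤ C` because `z ∈ D`), `ι : H' → G` the inclusion,
`ι' : H' → C` (`Subgroup.inclusion`), `D' = D.subgroupOf C`. `θ` by `Ext_main` for `ι`. The map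
`Λ α = mk (omg θ (trc ι' α))` (choose the algebraic integer with this value when `α` is central, `0`
otherwise) satisfies the hypotheses of `Sep_main` for `C` (`Br_mul` for `D'`, `Alg_mul`, `Alg_sum`).
`ζ` by `Sep_main`. (1) `Induces`: `trc ι (clsum g) = trc ι' (trc (C.subtype) (clsum g))` and
`omg ζ (trc C.subtype (clsum g)) = (∑ over the conjugates of g in C of ζ) / ζ 1`. (2) if
`omega ζ y ∉ 𝔪` then `trc ι' (clsum y) ≠ 0`, so `y` is conjugate in `C` to an element of `C_G(D)`. -/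
theorem MajA_main {G : Type} [Group G] [Fintype G] (p : ℕ) (hp : p.Prime) (𝔪 : Ideal AInt)
    (h𝔪 : 𝔪.IsMaximal) (hp𝔪 : (p : AInt) ∈ 𝔪) (χ₀ : G → ℂ) (hχ₀ : χ₀ ∈ Irr G)
    (hd : 0 < defect p (block 𝔪 χ₀)) :
    ∃ (D : Subgroup G) (z : G), IsPGroup p D ∧ Nat.card D = p ^ defect p (block 𝔪 χ₀) ∧
      z ∈ D ∧ orderOf z = p ∧ D ≤ Subgroup.centralizer {z} ∧
      ∃ ζ ∈ Irr (Subgroup.centralizer {z} : Subgroup G),
        Induces 𝔪 (Subgroup.centralizer {z}) ζ χ₀ ∧
        ∀ y : (Subgroup.centralizer {z} : Subgroup G), ¬ InM 𝔪 (omega ζ y) →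
          ∃ a : (Subgroup.centralizer {z} : Subgroup G), IsConj y a ∧
            ∀ u ∈ D, u * (a : G) = a * u := by
  classical
  obtain ⟨D, hD, hcard, hD2⟩ := Dgp_main p hp 𝔪 h𝔪 hp𝔪 χ₀ hχ₀
  have : Fact p.Prime := ⟨hp⟩
  -- the element `z`
  have hnt : Nontrivial D := by
    rw [← Finite.one_lt_card_iff_nontrivial, hcard]
    exact Nat.one_lt_pow hd.ne' hp.one_lt
  have hcn : Nontrivial (Subgroup.center D) := hD.center_nontrivial
  have hcp : IsPGroup p (Subgroup.center D) := hD.to_subgroup _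
  obtain ⟨n, hn, hn'⟩ := (hcp.nontrivial_iff_card).1 hcn
  have hdvd : p ∣ Nat.card (Subgroup.center D) := by
    rw [hn']
    exact dvd_pow_self p hn.ne'
  obtain ⟨z', hz'⟩ := exists_prime_orderOf_dvd_card' p hdvd
  have hz1 : orderOf ((z' : D) : G) = p := by
    rw [Subgroup.orderOf_coe, Subgroup.orderOf_coe, hz']
  have hzc : ∀ u ∈ D, u * ((z' : D) : G) = ((z' : D) : G) * u := by
    intro u hu
    have h1 := Subgroup.mem_center_iff.1 z'.2 ⟨u, hu⟩
    exact congrArg Subtype.val h1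
  have hle : D ≤ Subgroup.centralizer {((z' : D) : G)} := by
    intro u hu
    rw [Subgroup.mem_centralizer_iff]
    intro h hh
    rw [Set.mem_singleton_iff] at hh
    rw [hh]
    exact (hzc u hu).symm
  obtain ⟨z, hzdef⟩ : ∃ z : G, z = ((z' : D) : G) := ⟨_, rfl⟩
  rw [← hzdef] at hz1 hzc hle
  have hzD : z ∈ D := by
    rw [hzdef]
    exact (z' : D).2
  -- the centralizers
  have hH'C : Subgroup.centralizer (D : Set G) ≤ Subgroup.centralizer {z} := by
    apply Subgroup.centralizer_le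
    intro x hx
    rw [Set.mem_singleton_iff] at hx
    rw [hx]
    exact hzD
  have hrG : ∀ x : G, (∃ y, (Subgroup.centralizer (D : Set G)).subtype y = x) ↔
      ∀ g ∈ D, g * x = x * g := by
    intro x
    constructor
    · rintro ⟨y, rfl⟩ g hg
      exact Subgroup.mem_centralizer_iff.1 y.2 g hg
    · intro h
      exact ⟨⟨x, Subgroup.mem_centralizer_iff.2 h⟩, rfl⟩
  obtain ⟨θ, hθ, hθ2⟩ := Ext_main p hp 𝔪 h𝔪 hp𝔪 D hD
    (Subgroup.centralizer (D : Set G)).subtype
    (Subgroup.subtype_injective _) hrG χ₀ hχ₀ hD2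
  have hrC : ∀ x : (Subgroup.centralizer {z} : Subgroup G),
      (∃ y, (Subgroup.inclusion hH'C) y = x) ↔
        ∀ g ∈ D.subgroupOf (Subgroup.centralizer {z}), g * x = x * g := by
    intro x
    constructor
    · rintro ⟨y, rfl⟩ g hg
      apply Subtype.ext
      exact Subgroup.mem_centralizer_iff.1 y.2 g (Subgroup.mem_subgroupOf.1 hg)
    · intro h
      refine ⟨⟨(x : G), Subgroup.mem_centralizer_iff.2 fun g hg => ?_⟩, ?_⟩
      · have h1 := h ⟨g, hle hg⟩ (Subgroup.mem_subgroupOf.2 hg)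
        exact congrArg Subtype.val h1
      · apply Subtype.ext
        rfl
  have hD' : IsPGroup p (D.subgroupOf (Subgroup.centralizer {z})) := by
    exact hD.of_injective (Subgroup.subgroupOfEquivOfLe hle).toMonoidHom
      (Subgroup.subgroupOfEquivOfLe hle).injective
  obtain ⟨ζ, hζ, hζ2⟩ := MajA_lift p hp 𝔪 h𝔪 hp𝔪 (D.subgroupOf (Subgroup.centralizer {z})) hD'
    (Subgroup.inclusion hH'C) (Subgroup.inclusion_injective hH'C) hrC θ hθ
  refine ⟨D, z, hD, hcard, hzD, hz1, hle, ζ, hζ, ?_, ?_⟩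
  · intro g
    rw [← MajA_trc]
    have h1 := hθ2 (clsum g) (Alg_ctr_clsum g)
    rw [Alg_clsum χ₀ hχ₀] at h1
    have h2 := hζ2 (trc (Subgroup.centralizer {z} : Subgroup G).subtype (clsum g))
      (Br_ctr _ _ (Alg_ctr_clsum g))
    have h3 : trc (Subgroup.inclusion hH'C)
        (trc (Subgroup.centralizer {z} : Subgroup G).subtype (clsum g)) =
        trc (Subgroup.centralizer (D : Set G)).subtype (clsum g) := by
      refine MonoidAlgebra.ext ?_
      ext x
      rw [Br_coeff, Br_coeff, Br_coeff]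
      rfl
    rw [h3] at h2
    have h4 := InM_sub h1 h2
    rw [sub_sub_sub_cancel_right] at h4
    exact h4
  · intro y hy
    have h1 := hζ2 (clsum y) (Alg_ctr_clsum y)
    rw [Alg_clsum ζ hζ] at h1
    have h2 : omg θ (trc (Subgroup.inclusion hH'C) (clsum y)) ≠ 0 := by
      intro h0
      rw [h0, sub_zero] at h1
      exact hy h1
    obtain ⟨x, hx⟩ := MajA_ne _ _ h2
    rw [Br_coeff, MajA_cls] at hx
    have h3 : IsConj y (Subgroup.inclusion hH'C x) := by
      by_contra h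
      rw [if_neg h] at hx
      exact hx rfl
    refine ⟨_, h3, fun u hu => ?_⟩
    exact Subgroup.mem_centralizer_iff.1 x.2 u hu

end Pool.Agent.KBU
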