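import Mathlib

/-! Sums of invariant functions over a finite set with an action of a `p`-group. -/

namespace Pool.Agent.KBU

open Classical in
private theorem Act_card {P X R : Type} [Group P] [Finite P] [Fintype X] [MulAction P X]
    (p : ℕ) (hp : p.Prime) (hP : IsPGroup p P) (f : X → R)
    (hf : ∀ (g : P) (x : X), f (g • x) = f x) (c : R) :
    (Finset.univ.filter (fun x => f x = c)).card ≡
      (Finset.univ.filter (fun x => (∀ g : P, g • x = x) ∧ f x = c)).card [MOD p] := by
  have : Fact p.Prime := ⟨hp⟩
  let S : SubMulAction P X := ⟨{x | f x = c}, fun g {x} hx => by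
    have h1 : f x = c := hx
    change f (g • x) = c
    rw [hf, h1]⟩
  have h1 := hP.card_modEq_card_fixedPoints S
  have h2 : Nat.card S = (Finset.univ.filter (fun x => f x = c)).card := by
    rw [Nat.card_eq_fintype_card, Fintype.card_of_subtype]
    intro x
    rw [Finset.mem_filter]
    exact ⟨fun h => h.2, fun h => ⟨Finset.mem_univ _, h⟩⟩
  have h3 : Nat.card (MulAction.fixedPoints P S) =
      (Finset.univ.filter (fun x => (∀ g : P, g • x = x) ∧ f x = c)).card := by
    have e : MulAction.fixedPoints P S ≃ {x : X // (∀ g : P, g • x = x) ∧ f x = c} :=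
      { toFun := fun y => ⟨y.1.1, fun g => by
          have h4 := y.2 g
          exact congrArg Subtype.val h4, y.1.2⟩
        invFun := fun x => ⟨⟨x.1, x.2.2⟩, fun g => Subtype.ext (x.2.1 g)⟩
        left_inv := fun y => rfl
        right_inv := fun x => rfl }
    rw [Nat.card_congr e, Nat.card_eq_fintype_card, Fintype.card_of_subtype]
    intro x
    rw [Finset.mem_filter]
    exact ⟨fun h => h.2, fun h => ⟨Finset.mem_univ _, h⟩⟩
  rw [h2, h3] at h1
  exact h1

open Classical in
/-- HINT: for every value `c` of `f` the set of the `x` with `f x = c` is invariant; the number of its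
elements is congruent to the number of its fixed points modulo `p`
(`IsPGroup.card_modEq_card_fixedPoints` for the action on the subtype), and both sums are
`∑ c ∈ image f, (number) * c` (`Finset.sum_comp` or `Finset.sum_fiberwise_of_maps_to`). -/
theorem Act_main {P X R : Type} [Group P] [Finite P] [Fintype X] [MulAction P X] [CommRing R]
    (p : ℕ) (hp : p.Prime) (hP : IsPGroup p P) (f : X → R)
    (hf : ∀ (g : P) (x : X), f (g • x) = f x) :
    (p : R) ∣ ∑ x, f x - ∑ x : X with (∀ g : P, g • x = x), f x := by
  have h1 : ∑ x, f x = ∑ c ∈ Finset.univ.image f,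
      ((Finset.univ.filter (fun x => f x = c)).card : R) * c := by
    rw [← Finset.sum_fiberwise_of_maps_to (s := Finset.univ) (t := Finset.univ.image f) (g := f)
      (fun x _ => Finset.mem_image_of_mem f (Finset.mem_univ x))]
    refine Finset.sum_congr rfl (fun c _ => ?_)
    rw [Finset.sum_congr rfl (g := fun _ => c) (fun x hx => by
      rw [Finset.mem_filter] at hx; exact hx.2), Finset.sum_const, nsmul_eq_mul]
  have h2 : ∑ x : X with (∀ g : P, g • x = x), f x = ∑ c ∈ Finset.univ.image f,
      ((Finset.univ.filter (fun x => (∀ g : P, g • x = x) ∧ f x = c)).card : R) * c := by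
    rw [← Finset.sum_fiberwise_of_maps_to (s := Finset.univ.filter (fun x => ∀ g : P, g • x = x))
      (t := Finset.univ.image f) (g := f)
      (fun x _ => Finset.mem_image_of_mem f (Finset.mem_univ x))]
    refine Finset.sum_congr rfl (fun c _ => ?_)
    rw [Finset.sum_congr rfl (g := fun _ => c) (fun x hx => by
      rw [Finset.mem_filter] at hx; exact hx.2), Finset.sum_const, nsmul_eq_mul,
      Finset.filter_filter]
  rw [h1, h2, ← Finset.sum_sub_distrib]
  refine Finset.dvd_sum (fun c _ => ?_)
  rw [← sub_mul]
  refine Dvd.dvd.mul_right ?_ c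
  have h3 := Act_card p hp hP f hf c
  have h4 : (p : ℤ) ∣ ((Finset.univ.filter (fun x => f x = c)).card : ℤ) -
      ((Finset.univ.filter (fun x => (∀ g : P, g • x = x) ∧ f x = c)).card : ℤ) :=
    (Nat.modEq_iff_dvd.1 h3.symm)
  obtain ⟨k, hk⟩ := h4
  refine ⟨(k : R), ?_⟩
  have h5 := congrArg (Int.cast : ℤ → R) hk
  push_cast at h5
  exact h5

end Pool.Agent.KBU
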