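import Pool.Agent.KB.Defs

/-! The characters of height zero. -/

namespace Pool.Agent.KBU

open Pool.Agent.KB

/-- The set of the characters of height zero of a block `B` of defect `d`: the characters `χ` in `B`
such that `p^d χ(1)` is not divisible by a higher power of `p` than `|G|`. -/
def zeroHeight {G : Type} [Group G] (p : ℕ) (B : Set (G → ℂ)) : Set (G → ℂ) :=
  {χ | χ ∈ B ∧ ∃ n : ℕ, χ 1 = n ∧
    ¬ p ^ (padicValNat p (Nat.card G) + 1) ∣ p ^ defect p B * n}

end Pool.Agent.KBU
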