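import Pool.Agent.KBU.Defs
import Pool.Agent.KBZ.AsmZ

/-! The vectors of the multiplicities for characters of positive height. -/

namespace Pool.Agent.KBU

open Pool.Agent.KB Pool.Agent.KB.ContrAux Pool.Agent.KBL Pool.Agent.KBL.CDAux Pool.Agent.KBZ

variable {G : Type} [Group G] [Fintype G] {p : ℕ} {𝔪 : Ideal AInt} {u : G} {C : Subgroup G}
  [Fintype C] {ζ₀ : C → ℂ}

open Classical in
/-- The transform as a combination of the sums for the single characters. -/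
private theorem HtB_H (L : Loc p 𝔪 u C ζ₀) (χ : G → ℂ) (hχ : χ ∈ Irr G) (j : ℕ)
    (x : Fin L.K → ℤ) :
    L.H j χ x = ∑ k, (x k : ℂ) * ((p : ℂ) ^ defect p (block 𝔪 ζ₀) / (Nat.card C : ℂ) *
      ∑ y : C with ¬ p ∣ orderOf y, χ (u ^ j * (y : G)) * L.X k y⁻¹) := by
  rw [HX_main L χ hχ j x]
  simp only [Finset.mul_sum]
  rw [Finset.sum_comm]
  exact Finset.sum_congr rfl fun k _ => Finset.sum_congr rfl fun y _ => by ring

/-- The analogue of `Com_one` for `u ^ j`. HINT: as in `Com_one`, with `SecW_main` for the element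
`u ^ j`, which has the same centralizer `C` (`p ∤ j`, so `u` is a power of `u ^ j`). -/
theorem Ht_com (L : Loc p 𝔪 u C ζ₀) (n' : ℕ) (cχ : ℕ) (j : ℕ) (hj : ¬ p ∣ j) (χ : G → ℂ)
    (hχ : χ ∈ Irr G)
    (hdeg : (p : ℂ) ^ defect p (block 𝔪 ζ₀) * χ 1 * n' = (Nat.card G : ℂ) * cχ)
    (x : Fin L.K → ℤ) :
    ∃ W : ℂ, IsIntegral ℤ W ∧ (n' : ℂ) * L.H j χ x = (cχ : ℂ) * W := by
  classical
  have hu1 : u ^ (p ^ (L.m + 1)) = 1 := by
    rw [← L.hord]
    exact pow_orderOf_eq_one u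
  have hu : (u ^ j) ^ (p ^ (L.m + 1)) = 1 := by
    rw [← pow_mul, mul_comm, pow_mul, hu1, one_pow]
  have hC : ∀ g : G, g ∈ C ↔ g * (u ^ j) = (u ^ j) * g := by
    intro g
    rw [L.hC g]
    constructor
    · intro h
      exact (Commute.pow_right (show Commute g u from h) j).eq
    · intro h
      have hco : j.Coprime (orderOf u) := by
        rw [L.hord]
        exact Nat.Coprime.pow_right _ ((L.hp.coprime_iff_not_dvd.2 hj).symm)
      obtain ⟨l, hl⟩ := exists_pow_eq_self_of_coprime hco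
      have h1 : Commute g ((u ^ j) ^ l) := Commute.pow_right (show Commute g (u ^ j) from h) l
      rw [hl] at h1
      exact h1.eq
  have hsec := fun k => SecW_main p (L.m + 1) L.hp 𝔪 (u ^ j) hu C hC (L.X k) (L.mem k).1
  choose W hW1 hW2 hW3 using hsec
  have hNC : (Nat.card C : ℂ) ≠ 0 := by
    have : 0 < Nat.card C := Nat.card_pos
    exact_mod_cast this.ne'
  have hNG : (Nat.card G : ℂ) ≠ 0 := by
    have : 0 < Nat.card G := Nat.card_pos
    exact_mod_cast this.ne'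
  refine ⟨∑ k, (x k : ℂ) * W k χ, ?_, ?_⟩
  · exact IsIntegral.sum _ fun k _ => (isIntegral_int _).mul (hW1 k χ hχ)
  · rw [HtB_H L χ hχ j x, Finset.mul_sum, Finset.mul_sum]
    refine Finset.sum_congr rfl fun k _ => ?_
    have h2 := hW3 k χ hχ
    have h3 : (∑ y : C with ¬ p ∣ orderOf y, χ (u ^ j * (y : G)) * L.X k y⁻¹) =
        (Nat.card C : ℂ) * (χ 1 * W k χ) / (Nat.card G : ℂ) := by
      rw [h2]
      field_simp
    rw [h3]
    have h4 : (p : ℂ) ^ defect p (block 𝔪 ζ₀) * χ 1 * n' / (Nat.card G : ℂ) = cχ := by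
      rw [hdeg]
      field_simp
    rw [← h4]
    field_simp

/-- A root of unity of order a power of `p` is `1` modulo `𝔪`. -/
private theorem HtB_root (L : Loc p 𝔪 u C ζ₀) (i : ℕ) : InM 𝔪 (L.η ^ i - 1) := by
  have hp := L.hp
  have : Fact p.Prime := ⟨hp⟩
  have hmax := L.hmax
  have hη1 : L.η ^ (p * p ^ L.m) = 1 := L.hη.pow_eq_one
  have hηint : IsIntegral ℤ L.η := by
    have hpos : 0 < p * p ^ L.m := Nat.mul_pos hp.pos (pow_pos hp.pos _)
    refine ⟨Polynomial.X ^ (p * p ^ L.m) - 1, Polynomial.monic_X_pow_sub_C 1 hpos.ne', ?_⟩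
    simp [hη1]
  let e : AInt := ⟨L.η ^ i, hηint.pow i⟩
  have he : e ^ (p ^ (L.m + 1)) = 1 := by
    apply Subtype.ext
    change (L.η ^ i) ^ (p ^ (L.m + 1)) = 1
    rw [← pow_mul, mul_comm i, pow_mul, pow_succ, mul_comm (p ^ L.m) p, hη1, one_pow]
  refine ⟨e - 1, ?_, by push_cast; rfl⟩
  rw [← Ideal.Quotient.eq_zero_iff_mem]
  have hnt : Nontrivial (AInt ⧸ 𝔪) := Ideal.Quotient.nontrivial_iff.mpr hmax.ne_top
  have hprime : 𝔪.IsPrime := hmax.isPrime
  have hdom : IsDomain (AInt ⧸ 𝔪) := Ideal.Quotient.isDomain 𝔪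
  have hp0 : ((p : ℕ) : AInt ⧸ 𝔪) = 0 := by
    have h1 : (Ideal.Quotient.mk 𝔪) ((p : ℕ) : AInt) = 0 := Ideal.Quotient.eq_zero_iff_mem.mpr L.hpm
    rw [map_natCast] at h1
    exact h1
  have hchar : CharP (AInt ⧸ 𝔪) p := (CharP.charP_iff_prime_eq_zero hp).mpr hp0
  have h2 : (Ideal.Quotient.mk 𝔪 (e - 1)) ^ (p ^ (L.m + 1)) = 0 := by
    rw [map_sub, map_one, sub_pow_char_pow, one_pow, ← map_pow, he, map_one, sub_self]
  exact pow_eq_zero_iff (pow_pos hp.pos _).ne' |>.mp h2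

/-- geometric sums of the powers of a primitive root of unity of prime order -/
private theorem HtB_geom (hp : p.Prime) {η : ℂ} (hη : IsPrimitiveRoot η p) (i : ℕ) :
    ∑ j ∈ Finset.range p, (η ^ i) ^ j = if p ∣ i then (p : ℂ) else 0 := by
  split_ifs with h
  · obtain ⟨l, rfl⟩ := h
    rw [pow_mul, hη.pow_eq_one, one_pow]
    simp
  · have h1 : i.Coprime p := (hp.coprime_iff_not_dvd.2 h).symm
    exact (hη.pow_of_coprime i h1).geom_sum_eq_zero hp.one_lt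

/-- inversion of the transform for `m = 0` -/
private theorem HtB_inv (L : Loc p 𝔪 u C ζ₀) (hm : L.m = 0) (χ : G → ℂ) (x : Fin L.K → ℤ)
    (r : Fin (p ^ L.m)) (t : Fin p) :
    ∑ j ∈ Finset.range p, L.H j χ x * L.η ^ (j * (p - (t : ℕ))) =
      (p : ℂ) * ((bil L.M (L.a χ r t) x : ℤ) : ℂ) := by
  have hp := L.hp
  have hη : IsPrimitiveRoot L.η p := by
    have h1 := L.hη
    rwa [hm, pow_zero, mul_one] at h1
  have hone : p ^ L.m = 1 := by rw [hm, pow_zero]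
  have hsub : ∀ r' : Fin (p ^ L.m), (r' : ℕ) = 0 := by
    intro r'
    have h1 : (r' : ℕ) < 1 := lt_of_lt_of_eq r'.2 hone
    omega
  have hH : ∀ j, L.H j χ x = ∑ s : Fin p, L.η ^ (j * (s : ℕ)) * ((bil L.M (L.a χ r s) x : ℤ) : ℂ) := by
    intro j
    unfold Loc.H
    rw [Fintype.sum_eq_single r (fun b hb => absurd (Fin.ext ((hsub b).trans (hsub r).symm)) hb)]
    refine Finset.sum_congr rfl fun s _ => ?_
    rw [hsub r, hone, zero_add, one_mul]
  have h1 : ∑ j ∈ Finset.range p, L.H j χ x * L.η ^ (j * (p - (t : ℕ))) =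
      ∑ s : Fin p, ((bil L.M (L.a χ r s) x : ℤ) : ℂ) *
        ∑ j ∈ Finset.range p, (L.η ^ ((s : ℕ) + (p - (t : ℕ)))) ^ j := by
    simp only [hH, Finset.sum_mul, Finset.mul_sum]
    rw [Finset.sum_comm]
    refine Finset.sum_congr rfl fun s _ => Finset.sum_congr rfl fun j _ => ?_
    rw [← pow_mul, add_mul, pow_add, mul_comm (s : ℕ) j, mul_comm (p - (t : ℕ)) j]
    ring
  rw [h1]
  simp only [HtB_geom hp hη]
  rw [Finset.sum_eq_single t]
  · rw [if_pos]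
    · ring
    · have h2 : (t : ℕ) + (p - (t : ℕ)) = p := by have := t.2; omega
      rw [h2]
  · intro s _ hs
    rw [if_neg, mul_zero]
    intro h2
    apply hs
    apply Fin.ext
    have h3 := s.2
    have h4 := t.2
    obtain ⟨l, hl⟩ := h2
    have h5 : l = 1 := by
      rcases Nat.lt_trichotomy l 1 with h6 | h6 | h6
      · interval_cases l
        omega
      · exact h6
      · have h7 : p * 2 ≤ p * l := Nat.mul_le_mul_left p h6
        omega
    rw [h5, mul_one] at hl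
    omega
  · intro h
    exact absurd (Finset.mem_univ _) h

/-- Positive height. HINT: `Cdeg_main` for `(G, χ₀)`: `p ∣ c χ`; `Ht_com`: `n' H j = p (c χ / p) W`,
`p ∤ n'`, so `H j χ x = p β j` with `β j` integral, for `j = 1, ..., p - 1`. For `L.m = 0` the index `r` is `0`
and `p (A_t - A_t') = ∑ j in 1..p-1, H j (η^(-jt) - η^(-jt'))` (`A_t = bil L.M (L.a χ r t) x`; the term
`j = 0` cancels), so `A_t - A_t' = ∑ j, β j (η^(-jt) - η^(-jt')) ∈ 𝔪` (`Com_root`: powers of `η` are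
congruent to `1`), and `InM_int`. -/
theorem Ht_pos (L : Loc p 𝔪 u C ζ₀) (hm : L.m = 0) (χ₀ : G → ℂ) (hχ₀ : χ₀ ∈ Irr G)
    (hmaj : defect p (block 𝔪 ζ₀) = defect p (block 𝔪 χ₀))
    (χ : G → ℂ) (hχ : χ ∈ block 𝔪 χ₀) (h1 : InM 𝔪 (A p χ χ₀)) (x : Fin L.K → ℤ)
    (r : Fin (p ^ L.m)) (t t' : Fin p) :
    (p : ℤ) ∣ bil L.M x (L.a χ r t) - bil L.M x (L.a χ r t') := by
  have hp := L.hp
  have hmax := L.hmax
  have hpm := L.hpm
  obtain ⟨n', c, c₀', hn', -, hpos, hdegG, -, hAG, -⟩ := Cdeg_main p hp 𝔪 hmax hpm χ₀ hχ₀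
  have hn'Z : ¬ (p : ℤ) ∣ (n' : ℤ) := fun h => hn' (by exact_mod_cast h)
  obtain ⟨w, hw⟩ := (hAG χ hχ).1 h1
  have hsymm : ∀ i j, L.M i j = L.M j i := by
    intro i j
    have h1 := L.hM i j
    rw [CDAux.T_symm, ← L.hM j i] at h1
    exact_mod_cast h1
  rw [TopA_bil_symm L.M hsymm x (L.a χ r t), TopA_bil_symm L.M hsymm x (L.a χ r t')]
  have hex : ∀ j : ℕ, ∃ W : ℂ, IsIntegral ℤ W ∧ (¬ p ∣ j → (n' : ℂ) * L.H j χ x = (c χ : ℂ) * W) := by
    intro j
    by_cases hj : p ∣ j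
    · exact ⟨0, isIntegral_zero, fun h => absurd hj h⟩
    · obtain ⟨W, hW1, hW2⟩ := Ht_com L n' (c χ) j hj χ hχ.1 (by rw [hmaj]; exact hdegG χ hχ) x
      exact ⟨W, hW1, fun _ => hW2⟩
  choose W hW1 hW2 using hex
  have hpC : (p : ℂ) ≠ 0 := by exact_mod_cast hp.pos.ne'
  have hkey : (n' : ℂ) * ((bil L.M (L.a χ r t) x - bil L.M (L.a χ r t') x : ℤ) : ℂ) =
      ∑ j ∈ Finset.range p, if p ∣ j then 0 else
        ((w : ℂ) * W j) * ((L.η ^ (j * (p - (t : ℕ))) - 1) - (L.η ^ (j * (p - (t' : ℕ))) - 1)) := by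
    apply mul_left_cancel₀ hpC
    have e1 := HtB_inv L hm χ x r t
    have e2 := HtB_inv L hm χ x r t'
    have e3 : (p : ℂ) * ((n' : ℂ) * ((bil L.M (L.a χ r t) x - bil L.M (L.a χ r t') x : ℤ) : ℂ)) =
        (n' : ℂ) * (∑ j ∈ Finset.range p, L.H j χ x * L.η ^ (j * (p - (t : ℕ))) -
          ∑ j ∈ Finset.range p, L.H j χ x * L.η ^ (j * (p - (t' : ℕ)))) := by
      rw [e1, e2]
      push_cast
      ring
    rw [e3, ← Finset.sum_sub_distrib, Finset.mul_sum, Finset.mul_sum]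
    refine Finset.sum_congr rfl fun j hj => ?_
    split_ifs with hpj
    · have hj0 : j = 0 := Nat.eq_zero_of_dvd_of_lt hpj (Finset.mem_range.1 hj)
      rw [hj0]
      simp
    · have h2 := hW2 j hpj
      rw [hw] at h2
      push_cast at h2
      linear_combination (L.η ^ (j * (p - (t : ℕ))) - L.η ^ (j * (p - (t' : ℕ)))) * h2
  have h3 : InM 𝔪 ((n' : ℂ) * ((bil L.M (L.a χ r t) x - bil L.M (L.a χ r t') x : ℤ) : ℂ)) := by
    rw [hkey]
    refine InM_sum _ _ fun j _ => ?_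
    split_ifs
    · exact InM_zero 𝔪
    · exact InM_mul ((isIntegral_nat w).mul (hW1 j)) (InM_sub (HtB_root L _) (HtB_root L _))
  have h4 : InM 𝔪 ((bil L.M (L.a χ r t) x - bil L.M (L.a χ r t') x : ℤ) : ℂ) :=
    InM_cancel hp hpm (n := (n' : ℤ)) hn'Z (isIntegral_int _) (by push_cast at h3 ⊢; exact h3)
  exact InM_int hp hmax hpm h4

end Pool.Agent.KBU
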