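import Pool.Agent.KBU.HtA
import Pool.Agent.KBU.HtB
import Pool.Agent.KBU.LTwo
import Pool.Agent.KBZ.TrW
import Pool.Agent.KBZ.CovZ
import Pool.Agent.KBZ.Cnt
import Pool.Agent.KBZ.MkLoc
import Pool.Agent.KBL.EmbB
import Pool.Agent.KB.LatA

/-! The inequalities for a major subsection: families of characters. -/

namespace Pool.Agent.KBU

open Pool.Agent.KB Pool.Agent.KB.ContrAux Pool.Agent.KBL Pool.Agent.KBL.CDAux Pool.Agent.KBZ

variable {G : Type} [Group G] [Fintype G] {p : ℕ} {𝔪 : Ideal AInt} {u : G} {C : Subgroup G}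
  [Fintype C] {ζ₀ : C → ℂ}

/-- The embedding of the local lattice. -/
theorem Jnt_emb (L : Loc p 𝔪 u C ζ₀) :
    ∃ w : Fin L.K → EuclideanSpace ℝ (C ⊕ C),
      (∀ i j, inner ℝ (w i) (w j) = (L.M i j : ℝ)) ∧
      Module.finrank ℝ (Submodule.span ℝ (Set.range w)) ≤ ell p (block 𝔪 ζ₀) := by
  obtain ⟨w, m', h1, h2, -, -, -, h6⟩ := EmbB_main p L.hp 𝔪 L.hmax L.hpm ζ₀ L.hζ L.X L.inj L.mem
  have hm' : ∀ i j, m' i j = L.M i j := by
    intro i j
    have e1 := h2 i j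
    have e2 := L.hM i j
    have e3 : (m' i j : ℂ) = (L.M i j : ℂ) := by
      rw [e2]
      exact e1
    exact_mod_cast e3
  exact ⟨w, fun i j => by rw [h1, hm'], h6⟩

/-- The trace inequality for the local data. -/
theorem Jnt_trace (L : Loc p 𝔪 u C ζ₀) {R : Type} [Fintype R] (y : R → Fin L.K → ℤ) (F : ℕ)
    (hcov : ∀ x : Fin L.K → ℤ, ∑ r, bil L.M x (y r) ^ 2 ≤ (F : ℤ) * bil L.M x x) :
    ∑ r, bil L.M (y r) (y r) ≤ ((F * ell p (block 𝔪 ζ₀) : ℕ) : ℤ) := by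
  obtain ⟨w, hw, hl⟩ := Jnt_emb L
  have h := TrW_main L.M w hw y F (ell p (block 𝔪 ζ₀)) hcov hl
  push_cast
  exact h

theorem Jnt_psd (L : Loc p 𝔪 u C ζ₀) :
    (∀ i j, L.M i j = L.M j i) ∧ ∀ x, 0 ≤ bil L.M x x := by
  obtain ⟨w, hw, -⟩ := Jnt_emb L
  refine ⟨?_, ?_⟩
  · intro i j
    have e1 := hw i j
    have e2 := hw j i
    rw [real_inner_comm, e2] at e1
    exact_mod_cast e1.symm
  · intro x
    have e2 : ‖∑ i, (x i : ℝ) • w i‖ ^ 2 = ((bil L.M x x : ℤ) : ℝ) := by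
      rw [← real_inner_self_eq_norm_sq, TrW_int L.M w hw]
    have e3 : (0 : ℝ) ≤ ((bil L.M x x : ℤ) : ℝ) := by
      rw [← e2]
      positivity
    exact_mod_cast e3

/-- The arithmetic at the end. -/
theorem Jnt_arith (P1 z D l N A' q : ℤ) (hP : 0 < P1) (hz : 0 ≤ z) (hl : 0 ≤ l)
    (hN : 2 * P1 * z ≤ N)
    (h : P1 * N ^ 2 + 2 * N * (2 * P1 * q) ≤ A' * N * (2 * P1 * D) +
      (2 * P1 * D) * ((2 * P1 * D) * l)) :
    P1 * z ^ 2 + 2 * q * z ≤ A' * D * z + D ^ 2 * l := by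
  have hD : 0 ≤ D ^ 2 * l := mul_nonneg (sq_nonneg D) hl
  have h1 : P1 * (N * (N + 4 * q - 2 * A' * D)) ≤ P1 * (4 * P1 * (D ^ 2 * l)) := by
    nlinarith
  have h2 : N * (N + 4 * q - 2 * A' * D) ≤ 4 * P1 * (D ^ 2 * l) := le_of_mul_le_mul_left h1 hP
  by_cases h0 : P1 * z + 2 * q - A' * D ≤ 0
  · have h3 : z * (P1 * z + 2 * q - A' * D) ≤ 0 := mul_nonpos_of_nonneg_of_nonpos hz h0
    nlinarith
  · push Not at h0
    have h4 : 2 * (P1 * z + 2 * q - A' * D) ≤ N + 4 * q - 2 * A' * D := by linarith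
    have hPz : 0 ≤ 2 * P1 * z := by positivity
    have h5 : (2 * P1 * z) * (2 * (P1 * z + 2 * q - A' * D)) ≤
        N * (N + 4 * q - 2 * A' * D) := by
      apply mul_le_mul hN h4 (by linarith) (by linarith)
    have h6 : (4 * P1) * (z * (P1 * z + 2 * q - A' * D)) ≤ (4 * P1) * (D ^ 2 * l) := by
      nlinarith
    have h7 := le_of_mul_le_mul_left h6 (by linarith)
    nlinarith

open Classical in
/-- The number of the unit differences of a character of height zero. -/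
theorem Jnt_count {K q : ℕ} (p : ℕ) (hp : p.Prime) (v : Fin K → ℤ)
    (a : Fin q → Fin p → Fin K → ℤ) (h : ¬ (p : ℤ) ∣ ∑ r, ∑ t, ∑ j, a r t j * v j) :
    2 * (p - 1) ≤ (Finset.univ.filter fun w : Fin q × Fin p × Fin p =>
      ¬ (p : ℤ) ∣ ∑ j, (a w.1 w.2.1 - a w.1 w.2.2) j * v j).card := by
  have hr : ∃ r, ¬ (p : ℤ) ∣ ∑ t, ∑ j, a r t j * v j := by
    by_contra hcon
    push Not at hcon
    exact h (Finset.dvd_sum fun r _ => hcon r)
  obtain ⟨r, hr⟩ := hr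
  have hne : ∃ t₁ t₂ : Fin p, ((∑ j, a r t₁ j * v j : ℤ) : ZMod p) ≠
      ((∑ j, a r t₂ j * v j : ℤ) : ZMod p) := by
    by_contra hcon
    push Not at hcon
    apply hr
    rw [← ZMod.intCast_zmod_eq_zero_iff_dvd]
    push_cast
    have t₀ : Fin p := ⟨0, hp.pos⟩
    have e1 : ∀ t : Fin p, (∑ j, (a r t j : ZMod p) * (v j : ZMod p)) =
        ∑ j, (a r t₀ j : ZMod p) * (v j : ZMod p) := by
      intro t
      have := hcon t t₀
      push_cast at this
      exact this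
    rw [Finset.sum_congr rfl fun t _ => e1 t, Finset.sum_const, Finset.card_univ,
      Fintype.card_fin, nsmul_eq_mul, ZMod.natCast_self, zero_mul]
  obtain ⟨t₁, t₂, ht⟩ := hne
  refine (Cnt_main (fun t => ((∑ j, a r t j * v j : ℤ) : ZMod p)) t₁ t₂ ht).trans ?_
  refine Finset.card_le_card_of_injOn (fun w => (r, w)) ?_ ?_
  · intro w hw
    simp only [Finset.coe_filter, Finset.mem_univ, true_and, Set.mem_ofPred_eq] at hw ⊢
    intro hd
    apply hw
    rw [← sub_eq_zero, ← Int.cast_sub, ZMod.intCast_zmod_eq_zero_iff_dvd]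
    have e1 : ∑ j, a r w.1 j * v j - ∑ j, a r w.2 j * v j =
        ∑ j, (a r w.1 - a r w.2) j * v j := by
      rw [← Finset.sum_sub_distrib]
      refine Finset.sum_congr rfl fun j _ => ?_
      rw [Pi.sub_apply]
      ring
    rw [e1]
    exact hd
  · intro w _ w' _ hww
    exact (Prod.mk.inj hww).2

open Classical in
/-- The contribution of a character of positive height. -/
theorem Jnt_pos_sum {q : ℕ} (p : ℕ) (f : Fin q → Fin p → ℤ)
    (hdiv : ∀ r t t', (p : ℤ) ∣ f r t - f r t')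
    (hne : ∃ r t t', f r t ≠ f r t') :
    ((2 * (p - 1) : ℕ) : ℤ) * (p : ℤ) ^ 2 ≤ ∑ r, ∑ t, ∑ t', (f r t - f r t') ^ 2 := by
  obtain ⟨r, t, t', hr⟩ := hne
  have h1 := Cnt_main (fun t => f r t) t t' hr
  have h2 : ∑ t, ∑ t', (f r t - f r t') ^ 2 ≤ ∑ r, ∑ t, ∑ t', (f r t - f r t') ^ 2 :=
    Finset.single_le_sum (f := fun r => ∑ t, ∑ t', (f r t - f r t') ^ 2)
      (fun r _ => Finset.sum_nonneg fun t _ => Finset.sum_nonneg fun t' _ => sq_nonneg _)
      (Finset.mem_univ r)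
  refine le_trans ?_ h2
  rw [← Fintype.sum_prod_type' (fun t t' => (f r t - f r t') ^ 2)]
  set Sf := Finset.univ.filter fun x : Fin p × Fin p => f r x.1 ≠ f r x.2 with hSf
  calc ((2 * (p - 1) : ℕ) : ℤ) * (p : ℤ) ^ 2 ≤ (Sf.card : ℤ) * (p : ℤ) ^ 2 := by
        refine mul_le_mul_of_nonneg_right ?_ (by positivity)
        exact_mod_cast h1
    _ = ∑ _x ∈ Sf, (p : ℤ) ^ 2 := by rw [Finset.sum_const, nsmul_eq_mul]
    _ ≤ ∑ x ∈ Sf, (f r x.1 - f r x.2) ^ 2 := by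
        refine Finset.sum_le_sum fun x hx => ?_
        rw [hSf, Finset.mem_filter] at hx
        have e1 : f r x.1 - f r x.2 ≠ 0 := sub_ne_zero.mpr hx.2
        exact sq_le_sq.mpr (Int.le_of_dvd (abs_pos.mpr e1) (by
          rw [dvd_abs, Nat.abs_cast]
          exact hdiv r x.1 x.2))
    _ ≤ ∑ x : Fin p × Fin p, (f r x.1 - f r x.2) ^ 2 :=
        Finset.sum_le_sum_of_subset_of_nonneg (Finset.subset_univ _) fun x _ _ => sq_nonneg _

open Classical in
theorem Jnt_main (L : Loc p 𝔪 u C ζ₀) (A : ℕ) (hA : 2 * A < p) (hA2 : p ≤ (A + 1) ^ 2 + 1)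
    (χ₀ : G → ℂ) (hχ₀ : χ₀ ∈ Irr G)
    (hind : ∀ g : G, InM 𝔪 (omega χ₀ g - (∑ h : {h : C // IsConj g (h : G)}, ζ₀ h) / ζ₀ 1))
    (hmaj : defect p (block 𝔪 ζ₀) = defect p (block 𝔪 χ₀))
    {k : ℕ} (χ : Fin k → G → ℂ) (hinj : Function.Injective χ) (hχ : ∀ i, χ i ∈ block 𝔪 χ₀)
    (Z : Finset (Fin k)) (hZ : ∀ i, i ∈ Z ↔ ¬ InM 𝔪 (ContrAux.A p (χ i) χ₀))
    (hm : L.m = 0 ∨ Z = Finset.univ) :
    ((p : ℤ) - 1) * (Z.card : ℤ) ^ 2 + 2 * (p : ℤ) ^ 2 * (Z.card : ℤ) * ((k : ℤ) - Z.card) ≤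
      ((A : ℤ) * ((p : ℤ) - 1 - A)) * (p : ℤ) ^ defect p (block 𝔪 χ₀) * (Z.card : ℤ) +
        (p : ℤ) ^ (2 * defect p (block 𝔪 χ₀)) * (ell p (block 𝔪 ζ₀) : ℤ) := by
  have hp := L.hp
  have hp2 := hp.two_le
  have hp1 : ((p - 1 : ℕ) : ℤ) = (p : ℤ) - 1 := by
    rw [Nat.cast_sub (by omega)]
    simp
  have hpP : (0 : ℤ) < (p : ℤ) - 1 := by
    have : (2 : ℤ) ≤ p := by exact_mod_cast hp2
    linarith
  obtain ⟨hsymm, hpsd⟩ := Jnt_psd L
  obtain ⟨c, v, hc, hv, -, hne, -⟩ := AsmZ_main L χ₀ hχ₀ hind hmaj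
  set d := defect p (block 𝔪 χ₀) with hd
  set l := ell p (block 𝔪 ζ₀) with hl
  set δ : Fin k × Fin (p ^ L.m) × Fin p × Fin p → Fin L.K → ℤ :=
    fun w => L.a (χ w.1) w.2.1 w.2.2.1 - L.a (χ w.1) w.2.1 w.2.2.2 with hδ
  set F : ℕ := 2 * (p - 1) * p ^ d with hF
  have hFZ : (F : ℤ) = 2 * ((p : ℤ) - 1) * (p : ℤ) ^ d := by
    rw [hF]
    push_cast
    rw [hp1]
  have hsum : ∀ g : Fin k → Fin (p ^ L.m) → Fin p → Fin p → ℤ,
      ∑ w : Fin k × Fin (p ^ L.m) × Fin p × Fin p, g w.1 w.2.1 w.2.2.1 w.2.2.2 =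
        ∑ i, ∑ r, ∑ t, ∑ t', g i r t t' := by
    intro g
    rw [Fintype.sum_prod_type]
    refine Finset.sum_congr rfl fun i _ => ?_
    rw [Fintype.sum_prod_type]
    refine Finset.sum_congr rfl fun r _ => ?_
    rw [Fintype.sum_prod_type]
  have hcovW : ∀ x : Fin L.K → ℤ, ∑ w, bil L.M x (δ w) ^ 2 ≤ (F : ℤ) * bil L.M x x := by
    intro x
    have e := hsum (fun i r t t' => (bil L.M x (L.a (χ i) r t) - bil L.M x (L.a (χ i) r t')) ^ 2)
    have e2 : ∑ w, bil L.M x (δ w) ^ 2 = ∑ w : Fin k × Fin (p ^ L.m) × Fin p × Fin p,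
        (bil L.M x (L.a (χ w.1) w.2.1 w.2.2.1) - bil L.M x (L.a (χ w.1) w.2.1 w.2.2.2)) ^ 2 :=
      Finset.sum_congr rfl fun w _ => by rw [hδ]; simp only [LatZ_bil_sub]
    rw [e2, e, hFZ]
    have := CovZ_main L χ hinj (fun i => (hχ i).1) x
    rw [hmaj] at this
    exact this
  have htrW : ∑ w, bil L.M (δ w) (δ w) ≤ (F : ℤ) * l := by
    have := Jnt_trace L δ F hcovW
    push_cast at this
    exact this
  set P : Fin k × Fin (p ^ L.m) × Fin p × Fin p → Prop :=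
    fun w => w.1 ∈ Z ∧ ¬ (p : ℤ) ∣ ∑ j, δ w j * v j with hP
  set Q : Fin k × Fin (p ^ L.m) × Fin p × Fin p → Prop := fun w => w.1 ∉ Z with hQ
  have hPQ : ∀ f : Fin k × Fin (p ^ L.m) × Fin p × Fin p → ℤ, (∀ w, 0 ≤ f w) →
      ∑ r : {w // P w}, f r.1 + ∑ s : {w // Q w}, f s.1 ≤ ∑ w, f w := by
    intro f hf
    have e1 : ∑ r : {w // P w}, f r.1 = ∑ w ∈ Finset.univ.filter P, f w :=
      (Finset.sum_subtype (Finset.univ.filter P) (by simp) f).symm
    have e2 : ∑ s : {w // Q w}, f s.1 = ∑ w ∈ Finset.univ.filter Q, f w :=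
      (Finset.sum_subtype (Finset.univ.filter Q) (by simp) f).symm
    rw [e1, e2, Finset.sum_filter, Finset.sum_filter, ← Finset.sum_add_distrib]
    refine Finset.sum_le_sum fun w _ => ?_
    by_cases h1 : w.1 ∈ Z
    · have h2 : ¬ Q w := fun h => h h1
      rw [if_neg h2, add_zero]
      split_ifs
      · exact le_rfl
      · exact hf w
    · have h2 : ¬ P w := fun h => h1 h.1
      have h3 : Q w := h1
      rw [if_neg h2, zero_add, if_pos h3]
  -- the number of units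
  have hN : 2 * (p - 1) * Z.card ≤ Fintype.card {w // P w} := by
    have h1 : ∀ i ∈ Z, 2 * (p - 1) ≤ (Finset.univ.filter
        fun w : Fin (p ^ L.m) × Fin p × Fin p => P (i, w)).card := by
      intro i hi
      have h2 := Ht_zero L χ₀ hχ₀ hind c v hv (χ i) (hχ i) ((hZ i).mp hi)
      refine (Jnt_count p hp v (L.a (χ i)) h2).trans (le_of_eq ?_)
      congr 1
      ext w
      simp only [Finset.mem_filter, Finset.mem_univ, true_and, hP, hδ]
      exact ⟨fun h => ⟨hi, h⟩, fun h => h.2⟩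
    have h2 : Fintype.card {w // P w} = ∑ i : Fin k, (Finset.univ.filter
        fun w : Fin (p ^ L.m) × Fin p × Fin p => P (i, w)).card := by
      rw [Fintype.card_subtype, Finset.card_filter, Fintype.sum_prod_type]
      refine Finset.sum_congr rfl fun i _ => ?_
      rw [Finset.card_filter]
    rw [h2]
    calc 2 * (p - 1) * Z.card = ∑ _i ∈ Z, 2 * (p - 1) := by
          rw [Finset.sum_const, smul_eq_mul]; ring
      _ ≤ ∑ i ∈ Z, (Finset.univ.filter
        fun w : Fin (p ^ L.m) × Fin p × Fin p => P (i, w)).card :=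
          Finset.sum_le_sum h1
      _ ≤ _ := Finset.sum_le_sum_of_subset (Finset.subset_univ _)
  -- the characters of positive height
  have hkZ : Z.card ≤ k := by
    have := Finset.card_le_univ Z
    rwa [Fintype.card_fin] at this
  have hZc : ((Finset.univ.filter fun i => i ∉ Z).card : ℤ) = (k : ℤ) - Z.card := by
    have h1 : (Finset.univ.filter fun i => i ∉ Z) = Zᶜ := by
      ext i
      simp
    rw [h1, Finset.card_compl, Fintype.card_fin, Nat.cast_sub hkZ]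
  have hS : ∀ x : Fin L.K → ℤ, ¬ (p : ℤ) ∣ ∑ i, x i * v i →
      2 * ((p : ℤ) - 1) * ((p : ℤ) ^ 2 * ((k : ℤ) - Z.card)) ≤
        ∑ s : {w // Q w}, bil L.M x (δ s.1) ^ 2 := by
    intro x hx
    have e1 : ∑ s : {w // Q w}, bil L.M x (δ s.1) ^ 2 =
        ∑ w ∈ Finset.univ.filter Q, bil L.M x (δ w) ^ 2 :=
      (Finset.sum_subtype (Finset.univ.filter Q) (by simp) (fun w => bil L.M x (δ w) ^ 2)).symm
    have e2 : ∑ w ∈ Finset.univ.filter Q, bil L.M x (δ w) ^ 2 =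
        ∑ i ∈ Finset.univ.filter (fun i => i ∉ Z), ∑ r, ∑ t, ∑ t',
          (bil L.M x (L.a (χ i) r t) - bil L.M x (L.a (χ i) r t')) ^ 2 := by
      rw [Finset.sum_filter, Finset.sum_filter]
      have e3 := hsum (fun i r t t' => if i ∉ Z then
        (bil L.M x (L.a (χ i) r t) - bil L.M x (L.a (χ i) r t')) ^ 2 else 0)
      have e4 : ∀ w : Fin k × Fin (p ^ L.m) × Fin p × Fin p,
          (if Q w then bil L.M x (δ w) ^ 2 else 0) = (if w.1 ∉ Z then
        (bil L.M x (L.a (χ w.1) w.2.1 w.2.2.1) - bil L.M x (L.a (χ w.1) w.2.1 w.2.2.2)) ^ 2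
          else 0) := by
        intro w
        by_cases hw : w.1 ∉ Z
        · have hw' : Q w := hw
          rw [if_pos hw', if_pos hw, hδ]
          simp only [LatZ_bil_sub]
        · have hw' : ¬ Q w := hw
          rw [if_neg hw', if_neg hw]
      rw [Finset.sum_congr rfl fun w _ => e4 w, e3]
      refine Finset.sum_congr rfl fun i _ => ?_
      by_cases hi : i ∉ Z
      · simp only [if_pos hi]
      · simp only [if_neg hi, Finset.sum_const_zero]
    rw [e1, e2]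
    calc 2 * ((p : ℤ) - 1) * ((p : ℤ) ^ 2 * ((k : ℤ) - Z.card))
        = ∑ _i ∈ Finset.univ.filter (fun i => i ∉ Z), ((2 * (p - 1) : ℕ) : ℤ) * (p : ℤ) ^ 2 := by
          rw [Finset.sum_const, nsmul_eq_mul, hZc]
          push_cast
          rw [hp1]
          ring
      _ ≤ _ := by
          refine Finset.sum_le_sum fun i hi => ?_
          rw [Finset.mem_filter] at hi
          have hm0 : L.m = 0 := by
            rcases hm with h | h
            · exact h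
            · exact absurd (by rw [h]; exact Finset.mem_univ i) hi.2
          have hA1 : InM 𝔪 (ContrAux.A p (χ i) χ₀) := by
            by_contra hcon
            exact hi.2 ((hZ i).mpr hcon)
          exact Jnt_pos_sum p (fun r t => bil L.M x (L.a (χ i) r t))
            (fun r t t' => Ht_pos L hm0 χ₀ hχ₀ hmaj (χ i) (hχ i) hA1 x r t t')
            (hne (χ i) (hχ i) x hx)
  have hFnn : (0 : ℤ) ≤ (F : ℤ) := Int.natCast_nonneg F
  have key := LTwo_joint p A hp hA hA2 L.M hsymm hpsd (F : ℤ) (l : ℤ)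
    (2 * ((p : ℤ) - 1) * ((p : ℤ) ^ 2 * ((k : ℤ) - Z.card))) hFnn
    (fun r : {w // P w} => δ r.1) (fun s : {w // Q w} => δ s.1)
    (fun x => (hPQ (fun w => bil L.M x (δ w) ^ 2) (fun w => sq_nonneg _)).trans (hcovW x))
    ((hPQ (fun w => bil L.M (δ w) (δ w)) (fun w => hpsd _)).trans htrW)
    c v hc hv (fun r => r.2.2) hS
  have hNZ : 2 * ((p : ℤ) - 1) * (Z.card : ℤ) ≤ (Fintype.card {w // P w} : ℤ) := by
    have : ((2 * (p - 1) * Z.card : ℕ) : ℤ) ≤ (Fintype.card {w // P w} : ℤ) := by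
      exact_mod_cast hN
    push_cast at this
    rw [hp1] at this
    exact this
  rw [hFZ] at key
  have fin := Jnt_arith ((p : ℤ) - 1) (Z.card : ℤ) ((p : ℤ) ^ d) (l : ℤ)
    (Fintype.card {w // P w} : ℤ) ((A : ℤ) * ((p : ℤ) - 1 - A))
    ((p : ℤ) ^ 2 * ((k : ℤ) - Z.card)) hpP (Int.natCast_nonneg _) (Int.natCast_nonneg _) hNZ key
  have e5 : (p : ℤ) ^ (2 * d) = ((p : ℤ) ^ d) ^ 2 := by
    rw [← pow_mul, mul_comm]
  rw [e5]
  nlinarith [fin]

end Pool.Agent.KBU
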