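import Pool.Agent.KBU.Act
import Pool.Agent.KBU.Alg

/-! The class multiplication step. -/

namespace Pool.Agent.KBU

open Pool.Agent.KB Pool.Agent.KB.ContrAux Pool.Agent.KBL

open Classical in
theorem Key_coeff {G : Type} [Group G] [Fintype G] (x : G) (α : MonoidAlgebra AInt G) (g : G) :
    (clsum x * α).coeff g = ∑ a : {a : G // IsConj x a}, α.coeff ((a : G)⁻¹ * g) := by
  unfold clsum
  rw [Finset.sum_mul, MonoidAlgebra.coeff_sum, Finsupp.finsetSum_apply]
  have h1 : ∀ h : G, (MonoidAlgebra.of AInt G h * α).coeff g = α.coeff (h⁻¹ * g) := by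
    intro h
    rw [MonoidAlgebra.of_apply, MonoidAlgebra.coeff_single_mul_apply, one_mul]
  simp only [h1]
  refine (Finset.sum_subtype _ ?_ _)
  intro y
  simp only [Finset.mem_filter, Finset.mem_univ, true_and]

/-- HINT: the coefficient of `clsum x * α` at `g` is the sum over the conjugates `a` of `x` of
`α.coeff (a⁻¹ * g)`. The `p`-group `P` acts by conjugation on the conjugates of `x`; the summand is
invariant as `P` centralises `g` and `α` is central. `Act_main`: modulo `p` only the `a` centralised by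
`P` count, so for some such `a` the coefficient `α.coeff (a⁻¹ * g)` is not in `𝔪`. -/
theorem Key_step {G : Type} [Group G] [Fintype G] (p : ℕ) (hp : p.Prime) (𝔪 : Ideal AInt)
    (hp𝔪 : (p : AInt) ∈ 𝔪) (P : Subgroup G) (hP : IsPGroup p P) (x : G)
    (α : MonoidAlgebra AInt G) (hα : Ctr α) (g : G) (hg : ∀ u ∈ P, u * g = g * u)
    (h : (clsum x * α).coeff g ∉ 𝔪) :
    ∃ a : G, IsConj x a ∧ (∀ u ∈ P, u * a = a * u) ∧ α.coeff (a⁻¹ * g) ∉ 𝔪 := by
  classical
  let act : MulAction P {a : G // IsConj x a} :=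
    { smul := fun u a => ⟨(u : G) * a * (u : G)⁻¹,
        a.2.trans (isConj_iff.2 ⟨(u : G), rfl⟩)⟩
      one_smul := by
        intro a
        apply Subtype.ext
        change ((1 : P) : G) * (a : G) * ((1 : P) : G)⁻¹ = a
        simp
      mul_smul := by
        intro u v a
        apply Subtype.ext
        change ((u * v : P) : G) * (a : G) * ((u * v : P) : G)⁻¹ =
          (u : G) * ((v : G) * a * (v : G)⁻¹) * (u : G)⁻¹
        rw [Subgroup.coe_mul]
        group }
  have hsm : ∀ (u : P) (a : {a : G // IsConj x a}), ((u • a : {a : G // IsConj x a}) : G) =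
      (u : G) * a * (u : G)⁻¹ := fun u a => rfl
  by_contra hcon
  push Not at hcon
  have key := Act_main (P := P) (X := {a : G // IsConj x a}) (R := AInt) p hp hP
    (fun a => α.coeff ((a : G)⁻¹ * g)) ?_
  · apply h
    rw [Key_coeff]
    obtain ⟨c, hc⟩ := key
    rw [sub_eq_iff_eq_add] at hc
    rw [hc]
    refine 𝔪.add_mem (𝔪.mul_mem_right _ hp𝔪) (𝔪.sum_mem fun a ha => ?_)
    have ha' : ∀ u : P, u • a = a :=
      (@Finset.mem_filter _ (fun a : {a : G // IsConj x a} => ∀ u : P, u • a = a)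
        (fun _ => Classical.propDecidable _) _ _).1 ha |>.2
    refine hcon a a.2 ?_
    intro u hu
    have h2 := congrArg Subtype.val (ha' ⟨u, hu⟩)
    rw [hsm] at h2
    exact mul_inv_eq_iff_eq_mul.1 h2
  · intro u a
    rw [hsm]
    have h2 := hg u u.2
    have h3 := hα (u : G) ((a : G)⁻¹ * g)
    rw [← h3]
    congr 1
    calc ((u : G) * a * (u : G)⁻¹)⁻¹ * g = (u : G) * (a : G)⁻¹ * (u : G)⁻¹ * g := by group
      _ = (u : G) * (a : G)⁻¹ * (u : G)⁻¹ * (g * u) * (u : G)⁻¹ := by group
      _ = (u : G) * (a : G)⁻¹ * (u : G)⁻¹ * (u * g) * (u : G)⁻¹ := by rw [h2]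
      _ = (u : G) * ((a : G)⁻¹ * g) * (u : G)⁻¹ := by group

theorem Key_ctr_prod {G : Type} [Group G] [Fintype G] (l : List G) :
    Ctr ((l.map fun x => clsum x).prod) := by
  induction l with
  | nil =>
    rw [List.map_nil, List.prod_nil]
    have := Alg_ctr_const (H := G) 1
    rwa [map_one] at this
  | cons x l ih =>
    rw [List.map_cons, List.prod_cons]
    exact Alg_ctr_mul _ _ (Alg_ctr_clsum x) ih

/-- HINT: induction on the list with `Key_step`; `P` also centralises `a⁻¹ * g`; the product of class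
sums is central (`Alg_ctr_mul`, `Alg_ctr_clsum`). -/
theorem Key_list {G : Type} [Group G] [Fintype G] (p : ℕ) (hp : p.Prime) (𝔪 : Ideal AInt)
    (hp𝔪 : (p : AInt) ∈ 𝔪) (P : Subgroup G) (hP : IsPGroup p P) (l : List G) (g : G)
    (hg : ∀ u ∈ P, u * g = g * u) (h : ((l.map fun x => clsum x).prod).coeff g ∉ 𝔪) :
    ∀ x ∈ l, ∃ a : G, IsConj x a ∧ ∀ u ∈ P, u * a = a * u := by
  induction l generalizing g with
  | nil => intro x hx; simp at hx
  | cons y l ih =>
    rw [List.map_cons, List.prod_cons] at h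
    obtain ⟨a, ha1, ha2, ha3⟩ := Key_step p hp 𝔪 hp𝔪 P hP y _ (Key_ctr_prod l) g hg h
    intro x hx
    rcases List.mem_cons.1 hx with rfl | hx
    · exact ⟨a, ha1, ha2⟩
    · refine ih (a⁻¹ * g) ?_ ha3 x hx
      intro u hu
      have h1 := ha2 u hu
      have h2 := hg u hu
      calc u * (a⁻¹ * g) = a⁻¹ * (a * u) * a⁻¹ * g := by group
        _ = a⁻¹ * (u * a) * a⁻¹ * g := by rw [h1]
        _ = a⁻¹ * (u * g) := by group
        _ = a⁻¹ * (g * u) := by rw [h2]
        _ = a⁻¹ * g * u := by group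

end Pool.Agent.KBU
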