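import Pool.Agent.KBL.TopA
import Pool.Agent.KBZ.LatZ

/-! The linear term. -/

namespace Pool.Agent.KBU

open Pool.Agent.KBL

/-- The weight: `p - 2 (n mod p)` if `n` is congruent to one of `-A, ..., A`, and `0` otherwise. -/
def lam (p A : ℕ) (n : ℤ) : ℤ :=
  if n % p ≤ A ∨ (p : ℤ) - A ≤ n % p then (p : ℤ) - 2 * (n % p) else 0

theorem Lin_sum_right {K : ℕ} {R : Type} [Fintype R] (M : Fin K → Fin K → ℤ)
    (y : R → Fin K → ℤ) (ε : R → ℤ) (x : Fin K → ℤ) :
    bil M x (∑ r, ε r • y r) = ∑ r, ε r * bil M x (y r) := by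
  classical
  unfold bil
  simp only [Finset.sum_apply, Pi.smul_apply, smul_eq_mul, Finset.mul_sum]
  rw [Finset.sum_comm]
  calc ∑ j, ∑ i, ∑ r, x i * M i j * (ε r * y r j)
      = ∑ j, ∑ r, ∑ i, x i * M i j * (ε r * y r j) :=
        Finset.sum_congr rfl fun j _ => Finset.sum_comm
    _ = ∑ r, ∑ j, ∑ i, x i * M i j * (ε r * y r j) := Finset.sum_comm
    _ = ∑ r, ∑ i, ∑ j, x i * M i j * (ε r * y r j) :=
        Finset.sum_congr rfl fun r _ => Finset.sum_comm
    _ = _ := by
        refine Finset.sum_congr rfl fun r _ => Finset.sum_congr rfl fun i _ =>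
          Finset.sum_congr rfl fun j _ => ?_
        ring

theorem Lin_norm {K : ℕ} {R : Type} [Fintype R]
    (M : Fin K → Fin K → ℤ) (hsymm : ∀ i j, M i j = M j i) (hpsd : ∀ x, 0 ≤ bil M x x)
    (F : ℤ) (hF : 0 ≤ F) (y : R → Fin K → ℤ)
    (hcov : ∀ x : Fin K → ℤ, ∑ r, bil M x (y r) ^ 2 ≤ F * bil M x x) (ε : R → ℤ) :
    bil M (∑ r, ε r • y r) (∑ r, ε r • y r) ≤ F * ∑ r, ε r ^ 2 := by
  set z := ∑ r, ε r • y r with hz
  have h1 : bil M z z = ∑ r, ε r * bil M z (y r) := by
    conv_lhs => rw [hz]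
    rw [← hz]
    exact Lin_sum_right M y ε z
  have h2 := Finset.sum_mul_sq_le_sq_mul_sq Finset.univ ε (fun r => bil M z (y r))
  have h3 := hcov z
  have h4 : 0 ≤ ∑ r, ε r ^ 2 := Finset.sum_nonneg fun r _ => sq_nonneg _
  rw [← h1] at h2
  have h5 : bil M z z ^ 2 ≤ (∑ r, ε r ^ 2) * (F * bil M z z) :=
    h2.trans (mul_le_mul_of_nonneg_left h3 h4)
  rcases eq_or_lt_of_le (hpsd z) with h6 | h6
  · rw [← h6]
    positivity
  · have h7 : bil M z z * bil M z z ≤ (F * ∑ r, ε r ^ 2) * bil M z z := by nlinarith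
    exact le_of_mul_le_mul_right h7 h6

/-- The decomposition of the weight. -/
theorem Lin_lam (p A : ℕ) [Fact p.Prime] (hA : 2 * A < p) (n : ℤ) (hn : ¬ (p : ℤ) ∣ n) :
    lam p A n = ∑ a ∈ Finset.Icc 1 A, ((p : ℤ) - 2 * a) *
      ((if (n : ZMod p) = (a : ZMod p) then (1 : ℤ) else 0) -
        (if (n : ZMod p) = -(a : ZMod p) then (1 : ℤ) else 0)) := by
  have hp : 0 < p := (Fact.out : p.Prime).pos
  have hpZ : (0 : ℤ) < p := by exact_mod_cast hp
  set n0 := n % p with hn0
  have h0 : 0 ≤ n0 := Int.emod_nonneg _ hpZ.ne'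
  have h1 : n0 < p := Int.emod_lt_of_pos _ hpZ
  have h2 : n0 ≠ 0 := fun h => hn (Int.dvd_of_emod_eq_zero h)
  have hcast : (n : ZMod p) = (n0 : ZMod p) := by
    rw [hn0, ZMod.intCast_mod]
  have hdiv : ∀ m m' : ℤ, ((m : ZMod p) = (m' : ZMod p)) ↔ (p : ℤ) ∣ m - m' := by
    intro m m'
    rw [← sub_eq_zero, ← Int.cast_sub, ZMod.intCast_zmod_eq_zero_iff_dvd]
  have hpos : ∀ a : ℕ, a ∈ Finset.Icc 1 A → ((n : ZMod p) = (a : ZMod p) ↔ n0 = a) := by
    intro a ha
    rw [Finset.mem_Icc] at ha
    constructor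
    · intro h
      have h3 : (p : ℤ) ∣ n0 - a := by
        rw [← hdiv]
        rw [← hcast, h]
        norm_cast
      obtain ⟨k, hk⟩ := h3
      have : k = 0 := by
        have ha2 : (a : ℤ) < p := by exact_mod_cast (by omega : a < p)
        have ha1 : (1 : ℤ) ≤ a := by exact_mod_cast ha.1
        have e1 : (p : ℤ) * k < p * 1 := by linarith
        have e2 : (p : ℤ) * (-1) < p * k := by linarith
        have e3 := lt_of_mul_lt_mul_left e1 hpZ.le
        have e4 := lt_of_mul_lt_mul_left e2 hpZ.le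
        omega
      rw [this, mul_zero] at hk
      linarith
    · intro h
      rw [hcast, h]
      norm_cast
  have hneg : ∀ a : ℕ, a ∈ Finset.Icc 1 A → ((n : ZMod p) = -(a : ZMod p) ↔ n0 = p - a) := by
    intro a ha
    rw [Finset.mem_Icc] at ha
    have hcc : -(a : ZMod p) = (((p : ℤ) - a : ℤ) : ZMod p) := by
      push_cast
      rw [ZMod.natCast_self]
      ring
    constructor
    · intro h
      have h3 : (p : ℤ) ∣ n0 - (p - a) := by
        rw [← hdiv]
        rw [← hcast, h, hcc]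
      obtain ⟨k, hk⟩ := h3
      have : k = 0 := by
        have ha2 : (a : ℤ) < p := by exact_mod_cast (by omega : a < p)
        have ha1 : (1 : ℤ) ≤ a := by exact_mod_cast ha.1
        have e1 : (p : ℤ) * k < p * 1 := by linarith
        have e2 : (p : ℤ) * (-1) < p * k := by
          have : (1 : ℤ) ≤ n0 := by omega
          linarith
        have e3 := lt_of_mul_lt_mul_left e1 hpZ.le
        have e4 := lt_of_mul_lt_mul_left e2 hpZ.le
        omega
      rw [this, mul_zero] at hk
      linarith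
    · intro h
      rw [hcast, h, hcc]
  have hA' : 2 * (A : ℤ) < p := by exact_mod_cast hA
  unfold lam
  rw [← hn0]
  have hsum : ∑ a ∈ Finset.Icc 1 A, ((p : ℤ) - 2 * a) *
      ((if (n : ZMod p) = (a : ZMod p) then (1 : ℤ) else 0) -
        (if (n : ZMod p) = -(a : ZMod p) then (1 : ℤ) else 0)) =
      ∑ a ∈ Finset.Icc 1 A, ((p : ℤ) - 2 * a) *
      ((if n0 = a then (1 : ℤ) else 0) - (if n0 = p - a then (1 : ℤ) else 0)) := by
    refine Finset.sum_congr rfl fun a ha => ?_
    simp only [hpos a ha, hneg a ha]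
  rw [hsum]
  by_cases c1 : n0 ≤ A
  · rw [if_pos (Or.inl c1)]
    obtain ⟨k, hk⟩ := Int.eq_ofNat_of_zero_le h0
    rw [Finset.sum_eq_single k]
    · rw [hk]
      have : ¬ ((k : ℤ) = p - k) := by
        intro h
        rw [hk] at c1
        omega
      rw [if_pos rfl, if_neg this]
      ring
    · intro b hb hbk
      rw [Finset.mem_Icc] at hb
      have e1 : ¬ (n0 = (b : ℤ)) := by
        intro h
        rw [hk] at h
        exact hbk (by exact_mod_cast h.symm)
      have e2 : ¬ (n0 = p - (b : ℤ)) := by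
        intro h
        have : (b : ℤ) ≤ A := by exact_mod_cast hb.2
        omega
      rw [if_neg e1, if_neg e2]
      ring
    · intro h
      exfalso
      apply h
      rw [Finset.mem_Icc]
      rw [hk] at c1 h2
      constructor
      · rcases Nat.eq_zero_or_pos k with h3 | h3
        · exact absurd (by rw [h3]; rfl) h2
        · exact h3
      · exact_mod_cast c1
  · by_cases c2 : (p : ℤ) - A ≤ n0
    · rw [if_pos (Or.inr c2)]
      obtain ⟨k, hk⟩ := Int.eq_ofNat_of_zero_le (by omega : (0 : ℤ) ≤ p - n0)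
      rw [Finset.sum_eq_single k]
      · have e0 : n0 = p - k := by omega
        have : ¬ (n0 = (k : ℤ)) := by omega
        rw [if_neg this, if_pos e0]
        omega
      · intro b hb hbk
        rw [Finset.mem_Icc] at hb
        have e1 : ¬ (n0 = (b : ℤ)) := by
          intro h
          have : (b : ℤ) ≤ A := by exact_mod_cast hb.2
          omega
        have e2 : ¬ (n0 = p - (b : ℤ)) := by
          intro h
          apply hbk
          omega
        rw [if_neg e1, if_neg e2]
        ring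
      · intro h
        exfalso
        apply h
        rw [Finset.mem_Icc]
        constructor
        · omega
        · omega
    · rw [if_neg (by tauto)]
      symm
      refine Finset.sum_eq_zero fun a ha => ?_
      rw [Finset.mem_Icc] at ha
      have haA : (a : ℤ) ≤ A := by exact_mod_cast ha.2
      have e1 : ¬ (n0 = (a : ℤ)) := by omega
      have e2 : ¬ (n0 = p - (a : ℤ)) := by omega
      rw [if_neg e1, if_neg e2]
      ring

/-- The inner sum for one residue. -/
theorem Lin_one (p : ℕ) [Fact p.Prime] {K : ℕ} {R : Type} [Fintype R]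
    (M : Fin K → Fin K → ℤ) (hsymm : ∀ i j, M i j = M j i) (hpsd : ∀ x, 0 ≤ bil M x x)
    (F : ℤ) (hF : 0 ≤ F) (y : R → Fin K → ℤ)
    (hcov : ∀ x : Fin K → ℤ, ∑ r, bil M x (y r) ^ 2 ≤ F * bil M x x)
    (c a : ZMod p) (hc : c ≠ 0) (ha : a ≠ 0) (V : R → ZMod p) (hV : ∀ r, V r ≠ 0) :
    ∑ r, ∑ s, ((if c * V r * V s = a then (1 : ℤ) else 0) -
      (if c * V r * V s = -a then (1 : ℤ) else 0)) * bil M (y r) (y s) ≤
      (Fintype.card R : ℤ) * F := by
  classical
  set e : ZMod p → R → ℤ := fun α r => (if V r = α then 1 else 0) - (if V r = -α then 1 else 0)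
    with he
  set Z : ZMod p → Fin K → ℤ := fun α => ∑ r, e α r • y r with hZ
  set β : ZMod p → ZMod p := fun α => a * (c * α)⁻¹ with hβ
  have hβinv : Function.Involutive β := by
    intro α
    rw [hβ]
    by_cases h : α = 0
    · simp [h]
    · simp only
      field_simp
  have hβneg : ∀ α, β (-α) = -β α := by
    intro α
    rw [hβ]
    simp only
    rw [mul_neg, inv_neg, mul_neg]
  have heneg : ∀ α r, e (-α) r = -e α r := by
    intro α r
    rw [he]
    simp only [neg_neg]
    ring
  have hZneg : ∀ α, Z (-α) = -Z α := by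
    intro α
    rw [hZ]
    simp only
    rw [← Finset.sum_neg_distrib]
    refine Finset.sum_congr rfl fun r _ => ?_
    rw [heneg, neg_smul]
  -- the inner sum over `s`
  have h1 : ∀ r, ∑ s, ((if c * V r * V s = a then (1 : ℤ) else 0) -
      (if c * V r * V s = -a then (1 : ℤ) else 0)) * bil M (y r) (y s) =
      bil M (y r) (Z (β (V r))) := by
    intro r
    rw [hZ]
    simp only
    rw [Lin_sum_right]
    refine Finset.sum_congr rfl fun s _ => ?_
    congr 1
    rw [he, hβ]
    simp only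
    have hr := hV r
    have hcr : c * V r ≠ 0 := mul_ne_zero hc hr
    have e1 : (c * V r * V s = a) ↔ (V s = a * (c * V r)⁻¹) := by
      constructor
      · intro h
        rw [← h]
        field_simp
      · intro h
        rw [h]
        field_simp
    have e2 : (c * V r * V s = -a) ↔ (V s = -(a * (c * V r)⁻¹)) := by
      constructor
      · intro h
        have h' : a = -(c * V r * V s) := by rw [h, neg_neg]
        rw [h']
        field_simp
      · intro h
        rw [h]
        field_simp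
    simp only [e1, e2]
  rw [Finset.sum_congr rfl fun r _ => h1 r]
  -- group by the residue
  have h2 : ∑ r, bil M (y r) (Z (β (V r))) =
      ∑ α : ZMod p, ∑ r, (if V r = α then (1 : ℤ) else 0) * bil M (y r) (Z (β α)) := by
    rw [Finset.sum_comm]
    refine Finset.sum_congr rfl fun r _ => ?_
    rw [Finset.sum_eq_single (V r)]
    · rw [if_pos rfl, one_mul]
    · intro b _ hb
      rw [if_neg (Ne.symm hb), zero_mul]
    · intro h
      exact absurd (Finset.mem_univ _) h
  have h3 : ∑ α : ZMod p, ∑ r, (if V r = α then (1 : ℤ) else 0) * bil M (y r) (Z (β α)) =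
      ∑ α : ZMod p, ∑ r, -((if V r = -α then (1 : ℤ) else 0)) * bil M (y r) (Z (β α)) := by
    rw [← Equiv.sum_comp (Equiv.neg (ZMod p))]
    refine Finset.sum_congr rfl fun α _ => Finset.sum_congr rfl fun r _ => ?_
    have e1 : (Equiv.neg (ZMod p)) α = -α := rfl
    rw [e1, hβneg, hZneg]
    have e2 : bil M (y r) (-Z (β α)) = -bil M (y r) (Z (β α)) := by
      have := TopA_bil_smul_right M (-1) (y r) (Z (β α))
      simpa using this
    rw [e2]
    ring
  have h4 : 2 * ∑ r, bil M (y r) (Z (β (V r))) = ∑ α : ZMod p, bil M (Z α) (Z (β α)) := by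
    have e1 : ∀ α : ZMod p, bil M (Z α) (Z (β α)) = ∑ r, e α r * bil M (y r) (Z (β α)) := by
      intro α
      rw [TopA_bil_symm M hsymm]
      conv_lhs => rw [show Z α = ∑ r, e α r • y r from rfl]
      rw [Lin_sum_right]
      refine Finset.sum_congr rfl fun r _ => ?_
      rw [TopA_bil_symm M hsymm]
    rw [two_mul]
    conv_lhs =>
      congr
      · rw [h2]
      · rw [h2, h3]
    rw [← Finset.sum_add_distrib]
    refine Finset.sum_congr rfl fun α _ => ?_
    rw [e1, ← Finset.sum_add_distrib]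
    refine Finset.sum_congr rfl fun r _ => ?_
    rw [he]
    simp only
    ring
  -- arithmetic-geometric mean
  have h5 : ∀ α : ZMod p, 2 * bil M (Z α) (Z (β α)) ≤
      bil M (Z α) (Z α) + bil M (Z (β α)) (Z (β α)) := by
    intro α
    have e1 := hpsd (Z α - Z (β α))
    have e2 : bil M (Z α - Z (β α)) (Z α - Z (β α)) =
        bil M (Z α) (Z α) + bil M (Z (β α)) (Z (β α)) - 2 * bil M (Z α) (Z (β α)) := by
      rw [Pool.Agent.KBZ.LatZ_bil_sub, TopA_bil_symm M hsymm, TopA_bil_symm M hsymm (Z α - Z (β α)),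
        Pool.Agent.KBZ.LatZ_bil_sub, Pool.Agent.KBZ.LatZ_bil_sub, TopA_bil_symm M hsymm (Z (β α)) (Z α)]
      ring
    linarith
  have h6 : ∑ α : ZMod p, bil M (Z (β α)) (Z (β α)) = ∑ α : ZMod p, bil M (Z α) (Z α) :=
    Function.Bijective.sum_comp hβinv.bijective (fun α => bil M (Z α) (Z α))
  have h7 : ∑ α : ZMod p, bil M (Z α) (Z α) ≤ F * (2 * (Fintype.card R : ℤ)) := by
    calc ∑ α : ZMod p, bil M (Z α) (Z α) ≤ ∑ α : ZMod p, F * ∑ r, e α r ^ 2 :=
          Finset.sum_le_sum fun α _ => Lin_norm M hsymm hpsd F hF y hcov (e α)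
      _ = F * ∑ r, ∑ α : ZMod p, e α r ^ 2 := by
          rw [← Finset.mul_sum, Finset.sum_comm]
      _ ≤ F * ∑ r : R, (2 : ℤ) := by
          refine mul_le_mul_of_nonneg_left (Finset.sum_le_sum fun r _ => ?_) hF
          have e1 : ∀ α : ZMod p, e α r ^ 2 ≤ (if V r = α then (1 : ℤ) else 0) +
              (if V r = -α then (1 : ℤ) else 0) := by
            intro α
            rw [he]
            simp only
            split_ifs <;> norm_num
          refine (Finset.sum_le_sum fun α _ => e1 α).trans (le_of_eq ?_)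
          rw [Finset.sum_add_distrib]
          have e2 : ∑ α : ZMod p, (if V r = α then (1 : ℤ) else 0) = 1 := by
            rw [Finset.sum_ite_eq]
            simp
          have e3 : ∑ α : ZMod p, (if V r = -α then (1 : ℤ) else 0) = 1 := by
            rw [← Equiv.sum_comp (Equiv.neg (ZMod p))]
            have : ∀ α : ZMod p, (if V r = -((Equiv.neg (ZMod p)) α) then (1 : ℤ) else 0) =
                (if V r = α then (1 : ℤ) else 0) := by
              intro α
              have e1 : (Equiv.neg (ZMod p)) α = -α := rfl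
              rw [e1, neg_neg]
            rw [Finset.sum_congr rfl fun α _ => this α, e2]
          rw [e2, e3]
          norm_num
      _ = F * (2 * (Fintype.card R : ℤ)) := by
          rw [Finset.sum_const, Finset.card_univ, nsmul_eq_mul]
          ring
  have h8 : ∑ α : ZMod p, 2 * bil M (Z α) (Z (β α)) ≤
      ∑ α : ZMod p, (bil M (Z α) (Z α) + bil M (Z (β α)) (Z (β α))) :=
    Finset.sum_le_sum fun α _ => h5 α
  rw [← Finset.mul_sum, ← h4, Finset.sum_add_distrib, h6] at h8
  nlinarith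

theorem Lin_gauss (p A : ℕ) : ∑ a ∈ Finset.Icc 1 A, ((p : ℤ) - 2 * a) =
    (A : ℤ) * ((p : ℤ) - 1 - A) := by
  induction A with
  | zero => simp
  | succ n ih =>
    rw [Finset.sum_Icc_succ_top (by omega), ih]
    push_cast
    ring

theorem Lin_main (p A : ℕ) (hp : p.Prime) (hA : 2 * A < p) {K : ℕ} {R : Type} [Fintype R]
    (M : Fin K → Fin K → ℤ) (hsymm : ∀ i j, M i j = M j i) (hpsd : ∀ x, 0 ≤ bil M x x)
    (F : ℤ) (hF : 0 ≤ F) (y : R → Fin K → ℤ)
    (hcov : ∀ x : Fin K → ℤ, ∑ r, bil M x (y r) ^ 2 ≤ F * bil M x x)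
    (c : ℤ) (hc : ¬ (p : ℤ) ∣ c) (v : R → ℤ) (hv : ∀ r, ¬ (p : ℤ) ∣ v r) :
    ∑ r, ∑ s, lam p A (c * v r * v s) * bil M (y r) (y s) ≤
      ((A : ℤ) * ((p : ℤ) - 1 - A)) * (Fintype.card R : ℤ) * F := by
  classical
  have : Fact p.Prime := ⟨hp⟩
  have hpP : Prime (p : ℤ) := Nat.prime_iff_prime_int.mp hp
  have hcz : (c : ZMod p) ≠ 0 := by
    rw [Ne, ZMod.intCast_zmod_eq_zero_iff_dvd]
    exact hc
  have hvz : ∀ r, (v r : ZMod p) ≠ 0 := by
    intro r
    rw [Ne, ZMod.intCast_zmod_eq_zero_iff_dvd]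
    exact hv r
  have hn : ∀ r s, ¬ (p : ℤ) ∣ c * v r * v s := by
    intro r s h
    rcases hpP.dvd_or_dvd h with h | h
    · rcases hpP.dvd_or_dvd h with h | h
      · exact hc h
      · exact hv r h
    · exact hv s h
  have e1 : ∑ r, ∑ s, lam p A (c * v r * v s) * bil M (y r) (y s) =
      ∑ a ∈ Finset.Icc 1 A, ((p : ℤ) - 2 * a) * ∑ r, ∑ s,
        ((if (c : ZMod p) * (v r : ZMod p) * (v s : ZMod p) = (a : ZMod p) then (1 : ℤ) else 0) -
        (if (c : ZMod p) * (v r : ZMod p) * (v s : ZMod p) = -(a : ZMod p) then (1 : ℤ) else 0)) *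
          bil M (y r) (y s) := by
    have e2 : ∀ r s, lam p A (c * v r * v s) * bil M (y r) (y s) =
        ∑ a ∈ Finset.Icc 1 A, ((p : ℤ) - 2 * a) *
        (((if (c : ZMod p) * (v r : ZMod p) * (v s : ZMod p) = (a : ZMod p) then (1 : ℤ) else 0) -
        (if (c : ZMod p) * (v r : ZMod p) * (v s : ZMod p) = -(a : ZMod p) then (1 : ℤ) else 0)) *
          bil M (y r) (y s)) := by
      intro r s
      rw [Lin_lam p A hA _ (hn r s), Finset.sum_mul]
      refine Finset.sum_congr rfl fun a _ => ?_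
      push_cast
      ring
    calc ∑ r, ∑ s, lam p A (c * v r * v s) * bil M (y r) (y s)
        = ∑ r, ∑ s, ∑ a ∈ Finset.Icc 1 A, ((p : ℤ) - 2 * a) *
        (((if (c : ZMod p) * (v r : ZMod p) * (v s : ZMod p) = (a : ZMod p) then (1 : ℤ) else 0) -
        (if (c : ZMod p) * (v r : ZMod p) * (v s : ZMod p) = -(a : ZMod p) then (1 : ℤ) else 0)) *
          bil M (y r) (y s)) :=
          Finset.sum_congr rfl fun r _ => Finset.sum_congr rfl fun s _ => e2 r s
      _ = ∑ r, ∑ a ∈ Finset.Icc 1 A, ∑ s, ((p : ℤ) - 2 * a) *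
        (((if (c : ZMod p) * (v r : ZMod p) * (v s : ZMod p) = (a : ZMod p) then (1 : ℤ) else 0) -
        (if (c : ZMod p) * (v r : ZMod p) * (v s : ZMod p) = -(a : ZMod p) then (1 : ℤ) else 0)) *
          bil M (y r) (y s)) := Finset.sum_congr rfl fun r _ => Finset.sum_comm
      _ = ∑ a ∈ Finset.Icc 1 A, ∑ r, ∑ s, ((p : ℤ) - 2 * a) *
        (((if (c : ZMod p) * (v r : ZMod p) * (v s : ZMod p) = (a : ZMod p) then (1 : ℤ) else 0) -
        (if (c : ZMod p) * (v r : ZMod p) * (v s : ZMod p) = -(a : ZMod p) then (1 : ℤ) else 0)) *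
          bil M (y r) (y s)) := Finset.sum_comm
      _ = _ := by
          refine Finset.sum_congr rfl fun a _ => ?_
          rw [Finset.mul_sum]
          refine Finset.sum_congr rfl fun r _ => ?_
          rw [Finset.mul_sum]
  rw [e1]
  calc _ ≤ ∑ a ∈ Finset.Icc 1 A, ((p : ℤ) - 2 * a) * ((Fintype.card R : ℤ) * F) := by
        refine Finset.sum_le_sum fun a ha => ?_
        rw [Finset.mem_Icc] at ha
        have ha0 : (a : ZMod p) ≠ 0 := by
          rw [Ne, ZMod.natCast_eq_zero_iff]
          intro h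
          have := Nat.le_of_dvd ha.1 h
          omega
        have hpa : (0 : ℤ) ≤ (p : ℤ) - 2 * a := by
          have : 2 * a < p := by omega
          have : 2 * (a : ℤ) < p := by exact_mod_cast this
          linarith
        exact mul_le_mul_of_nonneg_left
          (Lin_one p M hsymm hpsd F hF y hcov (c : ZMod p) (a : ZMod p) hcz ha0
            (fun r => (v r : ZMod p)) hvz) hpa
    _ = ((A : ℤ) * ((p : ℤ) - 1 - A)) * (Fintype.card R : ℤ) * F := by
        rw [← Finset.sum_mul, Lin_gauss]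
        ring

end Pool.Agent.KBU
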