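import Pool.Agent.KBU.MajA

/-! The defect of the block of the major subsection. -/

namespace Pool.Agent.KBU

open Pool.Agent.KB Pool.Agent.KB.ContrAux Pool.Agent.KBL Pool.Agent.KBZ

/-- a sum over a union of classes on which the central character vanishes modulo `𝔪` -/
theorem MajB_sum {C : Type} [Group C] [Fintype C] (𝔪 : Ideal AInt) (ζ : C → ℂ) (hζ : ζ ∈ Irr C)
    (S : Finset C) (hS : ∀ g h : C, IsConj g h → g ∈ S → h ∈ S)
    (h0 : ∀ y ∈ S, InM 𝔪 (omega ζ y)) : InM 𝔪 ((∑ h ∈ S, ζ h) / ζ 1) := by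
  classical
  rw [← Finset.sum_fiberwise S (fun g => (ConjClasses.mk g : ConjClasses C)), Finset.sum_div]
  refine InM_sum _ _ fun K _ => ?_
  set k := Quotient.out K with hk
  have hmk : ConjClasses.mk k = K := Quotient.out_eq K
  have hiff : ∀ g : C, ConjClasses.mk g = K ↔ IsConj k g := fun g => by
    rw [← hmk, ConjClasses.mk_eq_mk_iff_isConj]
    exact ⟨fun h => h.symm, fun h => h.symm⟩
  by_cases hkS : k ∈ S
  · have hterm : ∀ g ∈ S.filter (fun g => (ConjClasses.mk g : ConjClasses C) = K),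
        ζ g = ζ k := by
      intro g hg
      exact (irr_conj hζ ((hiff g).mp (Finset.mem_filter.1 hg).2)).symm
    have hcard : (S.filter (fun g => (ConjClasses.mk g : ConjClasses C) = K)).card =
        Nat.card {h : C // IsConj k h} := by
      rw [Nat.card_eq_fintype_card, Fintype.card_subtype]
      congr 1
      ext g
      rw [Finset.mem_filter, Finset.mem_filter, hiff]
      exact ⟨fun h => ⟨Finset.mem_univ _, h.2⟩, fun h => ⟨hS k g h.2 hkS, h.2⟩⟩
    rw [Finset.sum_congr rfl hterm, Finset.sum_const, nsmul_eq_mul, hcard]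
    exact h0 k hkS
  · have he : S.filter (fun g => (ConjClasses.mk g : ConjClasses C) = K) = ∅ := by
      refine Finset.filter_eq_empty_iff.2 fun g hg h => hkS ?_
      exact hS g k ((hiff g).mp h).symm hg
    rw [he, Finset.sum_empty, zero_div]
    exact InM_zero 𝔪

/-- conjugate elements have centralizers of the same order -/
theorem MajB_conj {C : Type} [Group C] [Fintype C] {y a : C} (h : IsConj y a) :
    Nat.card (Subgroup.centralizer {y} : Subgroup C) =
      Nat.card (Subgroup.centralizer {a} : Subgroup C) := by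
  have h1 := Dfc_orbit y
  have h2 := Dfc_orbit a
  have h3 : Nat.card {h : C // IsConj y h} = Nat.card {h : C // IsConj a h} :=
    Nat.card_congr (Equiv.subtypeEquivRight fun g => ⟨fun h' => h.symm.trans h', fun h' =>
      h.trans h'⟩)
  have h4 : 0 < Nat.card {h : C // IsConj a h} := by
    have : Nonempty {h : C // IsConj a h} := ⟨⟨a, IsConj.refl a⟩⟩
    exact Nat.card_pos
  rw [h3] at h1
  exact Nat.eq_of_mul_eq_mul_left h4 (h1.trans h2.symm)

theorem MajB_main {G : Type} [Group G] [Fintype G] (p : ℕ) (hp : p.Prime) (𝔪 : Ideal AInt)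
    (h𝔪 : 𝔪.IsMaximal) (hp𝔪 : (p : AInt) ∈ 𝔪) (χ₀ : G → ℂ) (hχ₀ : χ₀ ∈ Irr G)
    (hd : 0 < defect p (block 𝔪 χ₀)) :
    ∃ z : G, orderOf z = p ∧ ∃ ζ ∈ Irr (Subgroup.centralizer {z} : Subgroup G),
      Induces 𝔪 (Subgroup.centralizer {z}) ζ χ₀ ∧
      defect p (block 𝔪 ζ) = defect p (block 𝔪 χ₀) := by
  classical
  have : Fact p.Prime := ⟨hp⟩
  obtain ⟨D, z, hDp, hDc, hzD, hz, hDC, ζ, hζ, hind, hζ2⟩ :=
    MajA_main p hp 𝔪 h𝔪 hp𝔪 χ₀ hχ₀ hd
  refine ⟨z, hz, ζ, hζ, hind, le_antisymm ?_ ?_⟩
  · -- upper bound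
    obtain ⟨x, -, hx, hxd⟩ := Dfc_ex p hp 𝔪 h𝔪 hp𝔪 χ₀ hχ₀
    obtain ⟨y, hxy, hy⟩ : ∃ y : (Subgroup.centralizer {z} : Subgroup G),
        IsConj x (y : G) ∧ ¬ InM 𝔪 (omega ζ y) := by
      by_contra hcon
      push Not at hcon
      apply hx
      have h1 : InM 𝔪 (omega χ₀ x - (∑ᶠ h : {h : (Subgroup.centralizer {z} : Subgroup G) //
          IsConj x (h : G)}, ζ h) / ζ 1) := hind x
      have h2 : InM 𝔪 ((∑ᶠ h : {h : (Subgroup.centralizer {z} : Subgroup G) //
          IsConj x (h : G)}, ζ h) / ζ 1) := by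
        have h3 : (∑ᶠ h : {h : (Subgroup.centralizer {z} : Subgroup G) // IsConj x (h : G)},
            ζ h) = ∑ h ∈ Finset.univ.filter
              (fun h : (Subgroup.centralizer {z} : Subgroup G) => IsConj x (h : G)), ζ h := by
          rw [finsum_eq_sum_of_fintype]
          exact (Finset.sum_subtype _ (fun h => by simp) ζ).symm
        rw [h3]
        refine MajB_sum 𝔪 ζ hζ _ ?_ ?_
        · intro g h hgh hg
          rw [Finset.mem_filter] at hg ⊢
          refine ⟨Finset.mem_univ _, hg.2.trans ?_⟩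
          obtain ⟨c, hc⟩ := isConj_iff.mp hgh
          refine isConj_iff.mpr ⟨(c : G), ?_⟩
          rw [← hc]
          simp
        · intro y hy
          exact hcon y (Finset.mem_filter.1 hy).2
      have h4 := InM_add h1 h2
      rwa [sub_add_cancel] at h4
    have h1 := Dfc_le p hp 𝔪 h𝔪 hp𝔪 ζ hζ y hy
    refine h1.trans (le_trans ?_ hxd)
    rw [MajB_conj hxy]
    -- the centralizer in `C` embeds in the centralizer in `G`
    have h2 : Nat.card (Subgroup.centralizer {y} :
        Subgroup (Subgroup.centralizer {z} : Subgroup G)) ∣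
        Nat.card (Subgroup.centralizer {(y : G)} : Subgroup G) := by
      have h3 : Nat.card ((Subgroup.centralizer {y} :
          Subgroup (Subgroup.centralizer {z} : Subgroup G)).map
            (Subgroup.centralizer {z} : Subgroup G).subtype) =
          Nat.card (Subgroup.centralizer {y} :
            Subgroup (Subgroup.centralizer {z} : Subgroup G)) :=
        Nat.card_congr (Subgroup.equivMapOfInjective _ _
          (Subgroup.subtype_injective _)).symm.toEquiv
      rw [← h3]
      refine Subgroup.card_dvd_of_le ?_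
      rintro g ⟨c, hc, rfl⟩
      rw [SetLike.mem_coe, Subgroup.mem_centralizer_singleton_iff] at hc
      rw [Subgroup.mem_centralizer_singleton_iff]
      have h4 := congrArg (Subtype.val) hc
      simpa using h4
    exact (padicValNat_dvd_iff_le (p := p) Nat.card_pos.ne').1
      ((pow_padicValNat_dvd (p := p)).trans h2)
  · -- lower bound
    obtain ⟨y, -, hy, hyd⟩ := Dfc_ex p hp 𝔪 h𝔪 hp𝔪 ζ hζ
    obtain ⟨a, hya, ha⟩ := hζ2 y hy
    rw [MajB_conj hya] at hyd
    refine le_trans ?_ hyd
    refine (padicValNat_dvd_iff_le (p := p) Nat.card_pos.ne').1 ?_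
    rw [← hDc, ← Nat.card_congr (Subgroup.subgroupOfEquivOfLe hDC).toEquiv]
    refine Subgroup.card_dvd_of_le ?_
    intro g hg
    rw [Subgroup.mem_subgroupOf] at hg
    rw [Subgroup.mem_centralizer_singleton_iff]
    apply Subtype.ext
    simpa using ha g hg

end Pool.Agent.KBU
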