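import Pool.Agent.KBU.Gam
import Pool.Agent.KBZ.CovZ

/-! The norm of a character on the regular elements and on the section of `u`. -/

namespace Pool.Agent.KBU

open Pool.Agent.KB Pool.Agent.KB.ContrAux Pool.Agent.KBL Pool.Agent.KBZ

open Classical in
theorem SecT_norm {G : Type} [Group G] [Fintype G] (p m : ℕ) (hp : p.Prime) (u : G)
    (hu : orderOf u = p ^ (m + 1)) (C : Subgroup G) [Fintype C]
    (hC : ∀ g : G, g ∈ C ↔ g * u = u * g) (χ : G → ℂ) (hχ : χ ∈ Irr G) :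
    (Nat.card G : ℝ) * ∑ y : C with ¬ p ∣ orderOf y, ‖χ (u ^ 1 * (y : G))‖ ^ 2 +
      (Nat.card C : ℝ) * ∑ g : G with ¬ p ∣ orderOf g, ‖χ g‖ ^ 2 ≤
      (Nat.card C : ℝ) * (Nat.card G : ℝ) := by
  have hu1 : u ^ (p ^ (m + 1)) = 1 := by
    rw [← hu]
    exact pow_orderOf_eq_one u
  have hj : ¬ p ∣ 1 := hp.one_lt.ne' ∘ Nat.dvd_one.mp
  set s : C → ℂ := fun y => χ (u ^ 1 * (y : G)) with hs
  have hsc : ∀ y z : C, IsConj y z → s y = s z := by
    intro y z hyz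
    obtain ⟨c, hc⟩ := isConj_iff.1 hyz
    rw [hs]
    apply irr_conj hχ
    refine isConj_iff.2 ⟨(c : G), ?_⟩
    have h1 : (c : G) * u = u * (c : G) := (hC c).1 c.2
    rw [← hc]
    simp only [pow_one, Subgroup.coe_mul, InvMemClass.coe_inv]
    calc (c : G) * (u * (y : G)) * (c : G)⁻¹ = ((c : G) * u) * ((y : G) * (c : G)⁻¹) := by group
      _ = (u * (c : G)) * ((y : G) * (c : G)⁻¹) := by rw [h1]
      _ = u * ((c : G) * (y : G) * (c : G)⁻¹) := by group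
  set Θ := Bess_th p u C 1 s with hΘ
  have h1 : ∑ g, χ g * (starRingEnd ℂ) (Θ g) = (((Nat.card G : ℝ) *
      ∑ y : C with ¬ p ∣ orderOf y, ‖χ (u ^ 1 * (y : G))‖ ^ 2 : ℝ) : ℂ) := by
    rw [hΘ, Bess_pair]
    have h2 : ∀ h : G, (∑ y : C with ¬ p ∣ orderOf y, χ (h * (u ^ 1 * (y : G)) * h⁻¹) *
        (starRingEnd ℂ) (s y)) =
        ((∑ y : C with ¬ p ∣ orderOf y, ‖χ (u ^ 1 * (y : G))‖ ^ 2 : ℝ) : ℂ) := by
      intro h
      rw [Complex.ofReal_sum]
      refine Finset.sum_congr rfl fun y _ => ?_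
      rw [irr_conj hχ (g := u ^ 1 * (y : G)) (h := h * (u ^ 1 * (y : G)) * h⁻¹)
        (isConj_iff.2 ⟨h, rfl⟩)]
      rw [hs]
      simp only
      rw [irr_conj hχ (g := u ^ 1 * (y : G)) (h := h * (u ^ 1 * (y : G)) * h⁻¹)
        (isConj_iff.2 ⟨h, rfl⟩)]
      rw [Complex.mul_conj, Complex.normSq_eq_norm_sq]
    rw [Finset.sum_congr rfl fun h _ => h2 h, Finset.sum_const, Finset.card_univ,
      ← Nat.card_eq_fintype_card, nsmul_eq_mul]
    push_cast
    rfl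
  -- the values of Θ
  have h3 : ∀ g, (χ g * (starRingEnd ℂ) (Θ g)).re ≤
      (Nat.card C : ℝ) * (if p ∣ orderOf g then ‖χ g‖ ^ 2 else 0) := by
    intro g
    by_cases hex : ∃ (h : G) (y : C), ¬ p ∣ orderOf y ∧ h * (u ^ 1 * (y : G)) * h⁻¹ = g
    · obtain ⟨h, y, hy, hg⟩ := hex
      have hv := Bess_val p (m + 1) hp u hu1 C hC 1 hj s hsc h y hy
      rw [← hΘ, hg] at hv
      have hsy : s y = χ g := by
        rw [hs, ← hg]
        exact irr_conj hχ (isConj_iff.2 ⟨h, rfl⟩)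
      have hord : p ∣ orderOf g := by
        by_contra hcon
        have e1 : orderOf g = orderOf (u * (y : G)) := by
          rw [← hg, pow_one]
          exact orderOf_injective (MulAut.conj h).toMonoidHom (MulAut.conj h).injective _
        rw [e1] at hcon
        have hcomm : Commute u (y : G) := ((hC y).1 y.2).symm
        have h5 : (u * (y : G)) ^ (orderOf (u * (y : G)) * orderOf y) = 1 := by
          rw [pow_mul, pow_orderOf_eq_one, one_pow]
        rw [hcomm.mul_pow] at h5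
        have h6 : (y : G) ^ (orderOf (u * (y : G)) * orderOf y) = 1 := by
          rw [mul_comm, pow_mul]
          have : (y : G) ^ orderOf y = 1 := by
            rw [← Subgroup.coe_pow, pow_orderOf_eq_one, Subgroup.coe_one]
          rw [this, one_pow]
        rw [h6, mul_one] at h5
        have h7 := orderOf_dvd_of_pow_eq_one h5
        rw [hu] at h7
        have h8 : p ∣ orderOf (u * (y : G)) * orderOf y := (dvd_pow_self p (by omega)).trans h7
        rcases hp.dvd_mul.mp h8 with h9 | h9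
        · exact hcon h9
        · exact hy h9
      rw [if_pos hord, hv, hsy, map_mul, Complex.conj_natCast]
      have e2 : χ g * ((Nat.card C : ℂ) * (starRingEnd ℂ) (χ g)) =
          (((Nat.card C : ℝ) * ‖χ g‖ ^ 2 : ℝ) : ℂ) := by
        have := Complex.mul_conj (χ g)
        rw [Complex.normSq_eq_norm_sq] at this
        push_cast
        rw [mul_left_comm, this]
        push_cast
        rfl
      rw [e2, Complex.ofReal_re]
    · have h0 : Θ g = 0 := by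
        rw [hΘ]
        unfold Bess_th
        refine Finset.sum_eq_zero fun h _ => Finset.sum_eq_zero fun y hy => ?_
        rw [Finset.mem_filter] at hy
        rw [if_neg]
        intro hh
        exact hex ⟨h, y, hy.2, hh⟩
      rw [h0, map_zero, mul_zero, Complex.zero_re]
      split_ifs <;> positivity
  have h4 : (∑ g, χ g * (starRingEnd ℂ) (Θ g)).re ≤
      (Nat.card C : ℝ) * ∑ g : G, (if p ∣ orderOf g then ‖χ g‖ ^ 2 else 0) := by
    rw [Complex.re_sum, Finset.mul_sum]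
    exact Finset.sum_le_sum fun g _ => h3 g
  rw [h1, Complex.ofReal_re] at h4
  have h5 : ∑ g : G, ‖χ g‖ ^ 2 = (Nat.card G : ℝ) := by
    have h6 := (Col_row χ χ hχ hχ).1 rfl
    have h7 : ((∑ g : G, ‖χ g‖ ^ 2 : ℝ) : ℂ) = ∑ g, χ g * χ g⁻¹ := by
      rw [Complex.ofReal_sum]
      refine Finset.sum_congr rfl fun g _ => ?_
      rw [irr_inv hχ, Complex.mul_conj, Complex.normSq_eq_norm_sq]
    rw [h6] at h7
    exact_mod_cast h7
  have h8 : ∑ g : G with ¬ p ∣ orderOf g, ‖χ g‖ ^ 2 +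
      ∑ g : G, (if p ∣ orderOf g then ‖χ g‖ ^ 2 else 0) = (Nat.card G : ℝ) := by
    rw [← h5, Finset.sum_filter, ← Finset.sum_add_distrib]
    refine Finset.sum_congr rfl fun g _ => ?_
    by_cases h : p ∣ orderOf g <;> simp [h]
  have h9 : (Nat.card C : ℝ) * ∑ g : G with ¬ p ∣ orderOf g, ‖χ g‖ ^ 2 +
      (Nat.card C : ℝ) * ∑ g : G, (if p ∣ orderOf g then ‖χ g‖ ^ 2 else 0) =
      (Nat.card C : ℝ) * (Nat.card G : ℝ) := by
    rw [← mul_add, h8]
  linarith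

open Classical in
/-- The contribution of the section is at most the norm. -/
theorem SecT_H {G : Type} [Group G] [Fintype G] {p : ℕ} {𝔪 : Ideal AInt} {u : G} {C : Subgroup G}
    [Fintype C] {ζ₀ : C → ℂ} (L : Loc p 𝔪 u C ζ₀) (χ : G → ℂ) (hχ : χ ∈ Irr G)
    (x : Fin L.K → ℤ) :
    ‖L.H 1 χ x‖ ^ 2 ≤ ((p : ℝ) ^ defect p (block 𝔪 ζ₀) / (Nat.card C : ℝ) *
      ∑ y : C with ¬ p ∣ orderOf y, ‖χ (u ^ 1 * (y : G))‖ ^ 2) * ((bil L.M x x : ℤ) : ℝ) := by
  set s : C → ℂ := fun y => ∑ k, (x k : ℂ) * L.X k y with hs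
  set c : ℝ := (p : ℝ) ^ defect p (block 𝔪 ζ₀) / (Nat.card C : ℝ) with hc
  have hCpos : (0 : ℝ) < (Nat.card C : ℝ) := by
    exact_mod_cast Nat.card_pos
  have hc0 : 0 ≤ c := by positivity
  have h1 := HX_main L χ hχ 1 x
  have h2 : ∀ y : C, ∑ k, (x k : ℂ) * L.X k y⁻¹ = (starRingEnd ℂ) (s y) := by
    intro y
    rw [hs]
    simp only
    rw [map_sum]
    refine Finset.sum_congr rfl fun k _ => ?_
    rw [map_mul, irr_inv (L.mem k).1]
    congr 1
    exact (map_intCast (starRingEnd ℂ) _).symm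
  simp only [h2] at h1
  have h3 : ‖L.H 1 χ x‖ ≤ c * ∑ y : C with ¬ p ∣ orderOf y, ‖χ (u ^ 1 * (y : G))‖ * ‖s y‖ := by
    have e1 : L.H 1 χ x = (c : ℂ) *
        ∑ y : C with ¬ p ∣ orderOf y, χ (u ^ 1 * (y : G)) * (starRingEnd ℂ) (s y) := by
      rw [h1, hc]
      push_cast
      rfl
    rw [e1, norm_mul, Complex.norm_real, Real.norm_of_nonneg hc0]
    apply mul_le_mul_of_nonneg_left _ hc0
    refine (norm_sum_le _ _).trans (le_of_eq ?_)
    refine Finset.sum_congr rfl fun y _ => ?_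
    rw [norm_mul, RCLike.norm_conj]
  have h4 := Finset.sum_mul_sq_le_sq_mul_sq (Finset.univ.filter fun y : C => ¬ p ∣ orderOf y)
    (fun y => ‖χ (u ^ 1 * (y : G))‖) (fun y => ‖s y‖)
  have hN := CovZ_norm L x
  rw [← hc] at hN
  have h5 : (0 : ℝ) ≤ ∑ y : C with ¬ p ∣ orderOf y, ‖χ (u ^ 1 * (y : G))‖ * ‖s y‖ :=
    Finset.sum_nonneg fun y _ => by positivity
  calc ‖L.H 1 χ x‖ ^ 2 ≤
      (c * ∑ y : C with ¬ p ∣ orderOf y, ‖χ (u ^ 1 * (y : G))‖ * ‖s y‖) ^ 2 :=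
        pow_le_pow_left₀ (norm_nonneg _) h3 2
    _ = c ^ 2 * (∑ y : C with ¬ p ∣ orderOf y, ‖χ (u ^ 1 * (y : G))‖ * ‖s y‖) ^ 2 := by ring
    _ ≤ c ^ 2 * ((∑ y : C with ¬ p ∣ orderOf y, ‖χ (u ^ 1 * (y : G))‖ ^ 2) *
        ∑ y : C with ¬ p ∣ orderOf y, ‖s y‖ ^ 2) :=
        mul_le_mul_of_nonneg_left h4 (sq_nonneg c)
    _ = (c * ∑ y : C with ¬ p ∣ orderOf y, ‖χ (u ^ 1 * (y : G))‖ ^ 2) *
        (c * ∑ y : C with ¬ p ∣ orderOf y, ‖s y‖ ^ 2) := by ring
    _ = _ := by rw [hN]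

end Pool.Agent.KBU
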