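import Pool.Agent.KBU.JntB
import Pool.Agent.KBU.FinA

/-! The prime `2`: the inequality which takes the diagonal into account, and the recursion. -/

namespace Pool.Agent.KBU

open Pool.Agent.KB Pool.Agent.KB.ContrAux Pool.Agent.KBL Pool.Agent.KBL.CDAux Pool.Agent.KBZ

/-- The arithmetic. -/
theorem Two_arith {k : ℕ} (Z : Finset (Fin k)) (X : Fin k → ℤ) (D l : ℤ) (hD : 1 ≤ D)
    (h0 : ∀ i ∈ Z, (Z.card : ℤ) - 1 + 4 * ((k : ℤ) - Z.card) + X i ^ 2 ≤ D * X i)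
    (h1 : ∀ i ∉ Z, 4 * (Z.card : ℤ) + X i ^ 2 ≤ D * X i)
    (h2 : 2 * ((Z.card : ℤ) + 4 * ((k : ℤ) - Z.card)) ≤ D ^ 2)
    (htr : ∑ i, X i ≤ D * l) :
    16 * (k : ℤ) < 3 * D ^ 2 + 16 ∨ (k : ℤ) ≤ 4 * l := by
  by_cases hk : 16 * (k : ℤ) < 3 * D ^ 2 + 16
  · exact Or.inl hk
  · right
    have hk' : 3 * D ^ 2 ≤ 16 * ((k : ℤ) - 1) := by linarith [not_lt.mp hk]
    have hZk : (Z.card : ℤ) ≤ k := by
      have := Finset.card_le_univ Z
      rw [Fintype.card_fin] at this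
      exact_mod_cast this
    have hZ3 : 3 * D ^ 2 ≤ 64 * (Z.card : ℤ) := by
      by_contra hcon
      push Not at hcon
      nlinarith
    have hroot : ∀ x : ℤ, 3 * D ^ 2 ≤ 16 * (x * (D - x)) → D ≤ 4 * x := by
      intro x hx
      by_contra hcon
      push Not at hcon
      nlinarith [mul_pos (by linarith : (0 : ℤ) < D - 4 * x) (by linarith : (0 : ℤ) < 3 * D - 4 * x)]
    have hX : ∀ i, D ≤ 4 * X i := by
      intro i
      apply hroot
      by_cases hi : i ∈ Z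
      · have := h0 i hi
        nlinarith
      · have := h1 i hi
        nlinarith
    have hsum : (k : ℤ) * D ≤ 4 * ∑ i, X i := by
      rw [Finset.mul_sum]
      calc (k : ℤ) * D = ∑ _i : Fin k, D := by
            rw [Finset.sum_const, Finset.card_univ, Fintype.card_fin, nsmul_eq_mul]
        _ ≤ _ := Finset.sum_le_sum fun i _ => hX i
    have : (k : ℤ) * D ≤ (4 * l) * D := by nlinarith
    exact le_of_mul_le_mul_right this (by linarith)

/-- The rows. -/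
theorem Two_lat {K k : ℕ} (M : Fin K → Fin K → ℤ) (D : ℤ) (y : Fin k → Fin K → ℤ)
    (hcov : ∀ x : Fin K → ℤ, ∑ i, bil M x (y i) ^ 2 ≤ D * bil M x x)
    (Z : Finset (Fin k))
    (h00 : ∀ i ∈ Z, ∀ j ∈ Z, bil M (y i) (y j) ≠ 0)
    (h01 : ∀ i ∈ Z, ∀ j ∉ Z, (2 : ℤ) ∣ bil M (y i) (y j) ∧ bil M (y i) (y j) ≠ 0)
    (hsymm : ∀ i j, M i j = M j i) :
    (∀ i ∈ Z, (Z.card : ℤ) - 1 + 4 * ((k : ℤ) - Z.card) + bil M (y i) (y i) ^ 2 ≤
      D * bil M (y i) (y i)) ∧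
    (∀ i ∉ Z, 4 * (Z.card : ℤ) + bil M (y i) (y i) ^ 2 ≤ D * bil M (y i) (y i)) := by
  classical
  have hb : ∀ a b : Fin K → ℤ, bil M a b = bil M b a := by
    intro a b
    unfold bil
    rw [Finset.sum_comm]
    refine Finset.sum_congr rfl fun i _ => Finset.sum_congr rfl fun j _ => ?_
    rw [hsymm j i]
    ring
  have one_le : ∀ m : ℤ, m ≠ 0 → 1 ≤ m ^ 2 := by
    intro m hm
    have : 0 < m ^ 2 := by positivity
    linarith
  have four_le : ∀ m : ℤ, (2 : ℤ) ∣ m → m ≠ 0 → 4 ≤ m ^ 2 := by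
    rintro m ⟨n, rfl⟩ hm
    have hn : n ≠ 0 := fun h => hm (by rw [h]; ring)
    have := one_le n hn
    nlinarith
  have hkZ : Z.card ≤ k := by
    have := Finset.card_le_univ Z
    rwa [Fintype.card_fin] at this
  have hcompl : ((Zᶜ).card : ℤ) = (k : ℤ) - Z.card := by
    rw [Finset.card_compl, Fintype.card_fin, Nat.cast_sub hkZ]
  constructor
  · intro i hi
    refine le_trans ?_ (hcov (y i))
    have e1 : ∑ j, bil M (y i) (y j) ^ 2 = bil M (y i) (y i) ^ 2 +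
        (∑ j ∈ Z.erase i, bil M (y i) (y j) ^ 2 + ∑ j ∈ Zᶜ, bil M (y i) (y j) ^ 2) := by
      rw [← Finset.sum_add_sum_compl Z, ← Finset.add_sum_erase Z _ hi]
      ring
    have e2 : ((Z.card : ℤ) - 1) ≤ ∑ j ∈ Z.erase i, bil M (y i) (y j) ^ 2 := by
      have hc : ((Z.erase i).card : ℤ) = (Z.card : ℤ) - 1 := by
        have hpos : 1 ≤ Z.card := Finset.card_pos.mpr ⟨i, hi⟩
        rw [Finset.card_erase_of_mem hi, Nat.cast_sub hpos]
        simp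
      calc ((Z.card : ℤ) - 1) = ∑ _j ∈ Z.erase i, (1 : ℤ) := by
            rw [Finset.sum_const, nsmul_eq_mul, mul_one, hc]
        _ ≤ _ := Finset.sum_le_sum fun j hj =>
            one_le _ (h00 i hi j (Finset.mem_of_mem_erase hj))
    have e3 : 4 * ((k : ℤ) - Z.card) ≤ ∑ j ∈ Zᶜ, bil M (y i) (y j) ^ 2 := by
      calc 4 * ((k : ℤ) - Z.card) = ∑ _j ∈ Zᶜ, (4 : ℤ) := by
            rw [Finset.sum_const, nsmul_eq_mul, hcompl]
            ring
        _ ≤ _ := Finset.sum_le_sum fun j hj => by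
            have hj' : j ∉ Z := Finset.mem_compl.mp hj
            obtain ⟨g1, g2⟩ := h01 i hi j hj'
            exact four_le _ g1 g2
    rw [e1]
    linarith
  · intro i hi
    refine le_trans ?_ (hcov (y i))
    have hi' : i ∈ Zᶜ := Finset.mem_compl.mpr hi
    have e1 : ∑ j, bil M (y i) (y j) ^ 2 = ∑ j ∈ Z, bil M (y i) (y j) ^ 2 +
        (bil M (y i) (y i) ^ 2 + ∑ j ∈ (Zᶜ).erase i, bil M (y i) (y j) ^ 2) := by
      rw [← Finset.sum_add_sum_compl Z, ← Finset.add_sum_erase (Zᶜ) _ hi']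
    have e2 : 4 * (Z.card : ℤ) ≤ ∑ j ∈ Z, bil M (y i) (y j) ^ 2 := by
      calc 4 * (Z.card : ℤ) = ∑ _j ∈ Z, (4 : ℤ) := by
            rw [Finset.sum_const, nsmul_eq_mul]
            ring
        _ ≤ _ := Finset.sum_le_sum fun j hj => by
            obtain ⟨g1, g2⟩ := h01 j hj i hi
            rw [hb (y i) (y j)]
            exact four_le _ g1 g2
    have e3 : 0 ≤ ∑ j ∈ (Zᶜ).erase i, bil M (y i) (y j) ^ 2 :=
      Finset.sum_nonneg fun _ _ => sq_nonneg _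
    rw [e1]
    linarith

section loc

variable {G : Type} [Group G] [Fintype G] {𝔪 : Ideal AInt} {u : G} {C : Subgroup G}
  [Fintype C] {ζ₀ : C → ℂ}

open Classical in
theorem Two_loc (L : Loc 2 𝔪 u C ζ₀) (χ₀ : G → ℂ) (hχ₀ : χ₀ ∈ Irr G)
    (hind : ∀ g : G, InM 𝔪 (omega χ₀ g - (∑ h : {h : C // IsConj g (h : G)}, ζ₀ h) / ζ₀ 1))
    (hmaj : defect 2 (block 𝔪 ζ₀) = defect 2 (block 𝔪 χ₀))
    {k : ℕ} (χ : Fin k → G → ℂ) (hinj : Function.Injective χ) (hχ : ∀ i, χ i ∈ block 𝔪 χ₀)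
    (hm : L.m = 0) :
    16 * (k : ℤ) < 3 * ((2 : ℤ) ^ defect 2 (block 𝔪 χ₀)) ^ 2 + 16 ∨
      (k : ℤ) ≤ 4 * (ell 2 (block 𝔪 ζ₀) : ℤ) := by
  set Z : Finset (Fin k) := Finset.univ.filter (fun i => ¬ InM 𝔪 (ContrAux.A 2 (χ i) χ₀)) with hZd
  have hZ : ∀ i, i ∈ Z ↔ ¬ InM 𝔪 (ContrAux.A 2 (χ i) χ₀) := by
    intro i
    rw [hZd, Finset.mem_filter]
    simp
  obtain ⟨hsymm, hpsd⟩ := Jnt_psd L
  obtain ⟨c, v, hc, hv, -, hne, -⟩ := AsmZ_main L χ₀ hχ₀ hind hmaj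
  set d := defect 2 (block 𝔪 χ₀) with hd
  set l := ell 2 (block 𝔪 ζ₀) with hl
  have hsub : Subsingleton (Fin (2 ^ L.m)) := by
    rw [hm, pow_zero]
    infer_instance
  set r₀ : Fin (2 ^ L.m) := ⟨0, by positivity⟩ with hr₀
  set y : Fin k → Fin L.K → ℤ := fun i => L.a (χ i) r₀ 0 - L.a (χ i) r₀ 1 with hy
  have hyb : ∀ x i, bil L.M x (y i) = bil L.M x (L.a (χ i) r₀ 0) - bil L.M x (L.a (χ i) r₀ 1) := by
    intro x i
    rw [hy]
    simp only [LatZ_bil_sub]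
  have hcov : ∀ x : Fin L.K → ℤ, ∑ i, bil L.M x (y i) ^ 2 ≤ (2 : ℤ) ^ d * bil L.M x x := by
    intro x
    have h := CovZ_main L χ hinj (fun i => (hχ i).1) x
    rw [hmaj] at h
    have e : ∀ i, ∑ r, ∑ t, ∑ t', (bil L.M x (L.a (χ i) r t) - bil L.M x (L.a (χ i) r t')) ^ 2 =
        2 * bil L.M x (y i) ^ 2 := by
      intro i
      rw [Fintype.sum_subsingleton _ r₀, hyb]
      simp only [Fin.sum_univ_two]
      ring
    rw [Finset.sum_congr rfl fun i _ => e i, ← Finset.mul_sum] at h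
    push_cast at h
    linarith
  have htr : ∑ i, bil L.M (y i) (y i) ≤ (2 : ℤ) ^ d * l := by
    have h := Jnt_trace L y (2 ^ d) (by
      intro x
      have := hcov x
      push_cast
      exact this)
    push_cast at h
    exact h
  have hunit : ∀ i ∈ Z, ¬ (2 : ℤ) ∣ ∑ j, y i j * v j := by
    intro i hi
    have h := Ht_zero L χ₀ hχ₀ hind c v hv (χ i) (hχ i) ((hZ i).mp hi)
    rw [Fintype.sum_subsingleton _ r₀] at h
    simp only [Fin.sum_univ_two] at h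
    intro hcon
    apply h
    have e : ∑ j, y i j * v j = ∑ j, L.a (χ i) r₀ 0 j * v j - ∑ j, L.a (χ i) r₀ 1 j * v j := by
      rw [← Finset.sum_sub_distrib]
      refine Finset.sum_congr rfl fun j _ => ?_
      rw [hy]
      simp only [Pi.sub_apply]
      ring
    rw [e] at hcon
    push_cast
    omega
  have hodd : ∀ i ∈ Z, ∀ j ∈ Z, bil L.M (y i) (y j) ≠ 0 := by
    intro i hi j hj h0
    have h := TopA_bil_mod 2 L.M c v (by exact_mod_cast hv) (y i) (y j)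
    rw [h0] at h
    have hpr : Prime (2 : ℤ) := Int.prime_two
    have h2 : (2 : ℤ) ∣ c * (∑ a, y i a * v a) * (∑ a, y j a * v a) := by
      have h3 : (2 : ℤ) ∣ 0 - c * (∑ a, y i a * v a) * (∑ a, y j a * v a) := by exact_mod_cast h
      have h4 := (Int.dvd_neg (a := 2) (b := c * (∑ a, y i a * v a) * (∑ a, y j a * v a))).mp
        (by rw [← zero_sub]; exact h3)
      exact h4
    rcases hpr.dvd_or_dvd h2 with h3 | h3
    · rcases hpr.dvd_or_dvd h3 with h4 | h4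
      · exact hc (by exact_mod_cast h4)
      · exact hunit i hi h4
    · exact hunit j hj h3
  have hpos : ∀ i ∈ Z, ∀ j ∉ Z, (2 : ℤ) ∣ bil L.M (y i) (y j) ∧ bil L.M (y i) (y j) ≠ 0 := by
    intro i hi j hj
    have hA1 : InM 𝔪 (ContrAux.A 2 (χ j) χ₀) := by
      by_contra hcon
      exact hj ((hZ j).mpr hcon)
    rw [hyb]
    refine ⟨?_, ?_⟩
    · have := Ht_pos L hm χ₀ hχ₀ hmaj (χ j) (hχ j) hA1 (y i) r₀ 0 1
      exact_mod_cast this
    · obtain ⟨r, t, t', h⟩ := hne (χ j) (hχ j) (y i) (by exact_mod_cast hunit i hi)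
      have hr : r = r₀ := Subsingleton.elim _ _
      rw [hr] at h
      intro h0
      apply h
      have h5 : bil L.M (y i) (L.a (χ j) r₀ 0) = bil L.M (y i) (L.a (χ j) r₀ 1) := by linarith
      have ht : ∀ s : Fin 2, s = 0 ∨ s = 1 := by decide
      rcases ht t with rfl | rfl <;> rcases ht t' with rfl | rfl
      · rfl
      · exact h5
      · exact h5.symm
      · rfl
  obtain ⟨g0, g1⟩ := Two_lat L.M ((2 : ℤ) ^ d) y hcov Z hodd hpos hsymm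
  have g2 := Jnt_second L χ₀ hχ₀ hind hmaj χ hinj hχ Z hZ hm
  refine Two_arith Z (fun i => bil L.M (y i) (y i)) ((2 : ℤ) ^ d) l (one_le_pow₀ (by norm_num))
    g0 g1 ?_ htr
  have e5 : ((2 : ℤ) ^ d) ^ 2 = (2 : ℤ) ^ (2 * d) := by
    rw [← pow_mul, mul_comm]
  rw [e5]
  push_cast at g2
  linarith

end loc

theorem Two_main {G : Type} [Group G] [Fintype G] (𝔪 : Ideal AInt)
    (h𝔪 : 𝔪.IsMaximal) (hp𝔪 : ((2 : ℕ) : AInt) ∈ 𝔪) (χ₀ : G → ℂ) (hχ₀ : χ₀ ∈ Irr G)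
    (z : G) (hz : orderOf z = 2) (ζ₀ : (Subgroup.centralizer {z} : Subgroup G) → ℂ)
    (hζ₀ : ζ₀ ∈ Irr (Subgroup.centralizer {z} : Subgroup G))
    (hind : Induces 𝔪 (Subgroup.centralizer {z}) ζ₀ χ₀)
    (hmaj : defect 2 (block 𝔪 ζ₀) = defect 2 (block 𝔪 χ₀)) :
    16 * ((block 𝔪 χ₀).ncard : ℤ) < 3 * ((2 : ℤ) ^ defect 2 (block 𝔪 χ₀)) ^ 2 + 16 ∨
      ((block 𝔪 χ₀).ncard : ℤ) ≤ 4 * (ell 2 (block 𝔪 ζ₀) : ℤ) := by
  classical
  have : Fintype (Subgroup.centralizer {z} : Subgroup G) := Fintype.ofFinite _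
  have hfin := JntB_fin 𝔪 χ₀
  obtain ⟨χ, hinj, hχ, hsurj⟩ := JntB_enum (block 𝔪 χ₀) hfin
  obtain ⟨L⟩ := MkLoc_main 2 Nat.prime_two 𝔪 h𝔪 hp𝔪 z 0 (by simpa using hz) _ (JntB_cent z) ζ₀ hζ₀
  have hm : L.m = 0 := by
    have h1 := L.hord
    rw [hz] at h1
    have h2 : 2 ^ 1 = 2 ^ (L.m + 1) := by simpa using h1
    have h3 := Nat.pow_right_injective le_rfl h2
    omega
  have hind' := JntB_ind 𝔪 _ ζ₀ χ₀ hind
  exact Two_loc L χ₀ hχ₀ hind' hmaj χ hinj hχ hm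

theorem Two_rec (𝔪 : Ideal AInt) (h𝔪 : 𝔪.IsMaximal)
    (hp𝔪 : ((2 : ℕ) : AInt) ∈ 𝔪) (d : ℕ) : ∀ {G : Type} [Group G] [Fintype G] (χ₀ : G → ℂ),
      χ₀ ∈ Irr G → defect 2 (block 𝔪 χ₀) = d → 3 ≤ d →
      (block 𝔪 χ₀).ncard ≤ 3 * 4 ^ (d - 2) := by
  induction d using Nat.strong_induction_on with
  | _ d IH =>
    intro G _ _ χ₀ hχ₀ hdef hd3
    rcases eq_or_lt_of_le hd3 with hd | hd
    · subst hd
      have h1 := FinA_three 2 Nat.prime_two 𝔪 h𝔪 hp𝔪 χ₀ hχ₀ hdef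
      omega
    · obtain ⟨z, hz, ζ, hζ, hind, hdef', Q, iQ, fQ, χ, hχ, hl, hdd⟩ :=
        FINA_step 2 Nat.prime_two 𝔪 h𝔪 hp𝔪 χ₀ hχ₀ (by omega)
      obtain ⟨e, rfl⟩ : ∃ e, d = e + 4 := ⟨d - 4, by omega⟩
      rw [hdef] at hdd
      have hk : (block 𝔪 χ).ncard ≤ 3 * 4 ^ (e + 1) := by
        by_cases hdq : defect 2 (block 𝔪 χ) ≤ 2
        · refine (FinA_small 2 Nat.prime_two 𝔪 h𝔪 hp𝔪 χ hχ hdq).trans ?_
          calc 2 ^ defect 2 (block 𝔪 χ) ≤ 2 ^ 2 := Nat.pow_le_pow_right (by norm_num) hdq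
            _ ≤ 3 * 4 ^ 1 := by norm_num
            _ ≤ 3 * 4 ^ (e + 1) := by
              apply Nat.mul_le_mul_left
              exact Nat.pow_le_pow_right (by norm_num) (by omega)
        · refine (IH (defect 2 (block 𝔪 χ)) (by omega) χ hχ rfl (by omega)).trans ?_
          apply Nat.mul_le_mul_left
          exact Nat.pow_le_pow_right (by norm_num) (by omega)
      have hl2 : ell 2 (block 𝔪 ζ) ≤ 3 * 4 ^ (e + 1) := hl.trans ((Gam_le 2 𝔪 χ).2.trans hk)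
      rcases Two_main 𝔪 h𝔪 hp𝔪 χ₀ hχ₀ z hz ζ hζ hind hdef' with h | h
      · rw [hdef] at h
        have e1 : ((2 : ℤ) ^ (e + 4)) ^ 2 = 16 * 4 ^ (e + 2) := by
          rw [← pow_mul, show (4 : ℤ) = 2 ^ 2 by norm_num, ← pow_mul,
            show (16 : ℤ) = 2 ^ 4 by norm_num, ← pow_add]
          congr 1
          ring
        rw [e1] at h
        have e2 : e + 4 - 2 = e + 2 := by omega
        rw [e2]
        have h' : ((block 𝔪 χ₀).ncard : ℤ) < 3 * 4 ^ (e + 2) + 1 := by linarith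
        have h'' : ((block 𝔪 χ₀).ncard : ℤ) ≤ 3 * 4 ^ (e + 2) := by omega
        exact_mod_cast h''
      · have h' : (block 𝔪 χ₀).ncard ≤ 4 * ell 2 (block 𝔪 ζ) := by exact_mod_cast h
        have e2 : e + 4 - 2 = e + 2 := by omega
        rw [e2, pow_succ]
        omega

end Pool.Agent.KBU
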