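import Pool.Agent.KBU.Two
import Pool.Agent.KBU.TrE
import Pool.Agent.KBU.SecT

/-! The prime `2`: the data of a block and a major subsection of order `2`. -/

namespace Pool.Agent.KBU

open Pool.Agent.KB Pool.Agent.KB.ContrAux Pool.Agent.KBL Pool.Agent.KBL.CDAux Pool.Agent.KBZ

theorem TwoB_height {G : Type} [Group G] [Fintype G] (p : ℕ) (hp : p.Prime) (𝔪 : Ideal AInt)
    (χ₀ : G → ℂ) (hd : 0 < defect p (block 𝔪 χ₀)) :
    ∃ χ, χ ∈ zeroHeight p (block 𝔪 χ₀) := by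
  by_contra hcon
  push Not at hcon
  have h1 : defect p (block 𝔪 χ₀) - 1 ∈ {d : ℕ | ∀ χ ∈ block 𝔪 χ₀, ∃ n : ℕ, χ 1 = n ∧
      p ^ padicValNat p (Nat.card G) ∣ p ^ d * n} := by
    intro χ hχ
    obtain ⟨n, hn⟩ : ∃ n : ℕ, χ 1 = n := by
      obtain ⟨⟨n, ρ, hρ, rfl⟩, -⟩ := hχ
      exact ⟨n, by simp⟩
    refine ⟨n, hn, ?_⟩
    have h2 := hcon χ
    unfold zeroHeight at h2
    simp only [Set.mem_ofPred_eq, not_and, not_exists, not_not] at h2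
    have h3 := h2 hχ n hn
    have e : p ^ defect p (block 𝔪 χ₀) * n = p * (p ^ (defect p (block 𝔪 χ₀) - 1) * n) := by
      obtain ⟨e, he⟩ : ∃ e, defect p (block 𝔪 χ₀) = e + 1 :=
        ⟨defect p (block 𝔪 χ₀) - 1, by omega⟩
      rw [he, Nat.add_sub_cancel, pow_succ]
      ring
    rw [e, pow_succ, mul_comm _ p] at h3
    exact Nat.dvd_of_mul_dvd_mul_left hp.pos h3
  have h2 : defect p (block 𝔪 χ₀) ≤ defect p (block 𝔪 χ₀) - 1 := Nat.sInf_le h1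
  omega

section loc

variable {G : Type} [Group G] [Fintype G] {𝔪 : Ideal AInt} {u : G} {C : Subgroup G}
  [Fintype C] {ζ₀ : C → ℂ}

open Classical in
theorem TwoB_loc (L : Loc 2 𝔪 u C ζ₀) (χ₀ : G → ℂ) (hχ₀ : χ₀ ∈ Irr G)
    (hind : ∀ g : G, InM 𝔪 (omega χ₀ g - (∑ h : {h : C // IsConj g (h : G)}, ζ₀ h) / ζ₀ 1))
    (hmaj : defect 2 (block 𝔪 ζ₀) = defect 2 (block 𝔪 χ₀))
    {k : ℕ} (χ : Fin k → G → ℂ) (hinj : Function.Injective χ) (hχ : ∀ i, χ i ∈ block 𝔪 χ₀)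
    (hsurj : ∀ ψ ∈ block 𝔪 χ₀, ∃ i, χ i = ψ)
    (hm : L.m = 0) (Z : Finset (Fin k)) (hZ : ∀ i, i ∈ Z ↔ ¬ InM 𝔪 (ContrAux.A 2 (χ i) χ₀)) :
    ∃ X : Fin k → ℤ, (∀ i ∈ Z, ¬ (2 : ℤ) ∣ X i) ∧
      (∀ i ∈ Z, (Z.card : ℤ) - 1 + 4 * ((k : ℤ) - Z.card) + X i ^ 2 ≤
        (2 : ℤ) ^ defect 2 (block 𝔪 χ₀) * X i) ∧
      (∀ i ∉ Z, 4 * (Z.card : ℤ) + X i ^ 2 ≤ (2 : ℤ) ^ defect 2 (block 𝔪 χ₀) * X i) ∧
      ∑ i, X i ≤ (2 : ℤ) ^ defect 2 (block 𝔪 χ₀) * ell 2 (block 𝔪 ζ₀) ∧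
      ∑ i, X i + (2 : ℤ) ^ defect 2 (block 𝔪 χ₀) * ell 2 (block 𝔪 χ₀) ≤
        (2 : ℤ) ^ defect 2 (block 𝔪 χ₀) * k := by
  obtain ⟨hsymm, hpsd⟩ := Jnt_psd L
  obtain ⟨c, v, hc, hv, -, hne, -⟩ := AsmZ_main L χ₀ hχ₀ hind hmaj
  set d := defect 2 (block 𝔪 χ₀) with hd
  set l := ell 2 (block 𝔪 ζ₀) with hl
  have hsub : Subsingleton (Fin (2 ^ L.m)) := by
    rw [hm, pow_zero]
    infer_instance
  set r₀ : Fin (2 ^ L.m) := ⟨0, by positivity⟩ with hr₀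
  set y : Fin k → Fin L.K → ℤ := fun i => L.a (χ i) r₀ 0 - L.a (χ i) r₀ 1 with hy
  have hyb : ∀ x i, bil L.M x (y i) = bil L.M x (L.a (χ i) r₀ 0) - bil L.M x (L.a (χ i) r₀ 1) := by
    intro x i
    rw [hy]
    simp only [LatZ_bil_sub]
  have hcov : ∀ x : Fin L.K → ℤ, ∑ i, bil L.M x (y i) ^ 2 ≤ (2 : ℤ) ^ d * bil L.M x x := by
    intro x
    have h := CovZ_main L χ hinj (fun i => (hχ i).1) x
    rw [hmaj] at h
    have e : ∀ i, ∑ r, ∑ t, ∑ t', (bil L.M x (L.a (χ i) r t) - bil L.M x (L.a (χ i) r t')) ^ 2 =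
        2 * bil L.M x (y i) ^ 2 := by
      intro i
      rw [Fintype.sum_subsingleton _ r₀, hyb]
      simp only [Fin.sum_univ_two]
      ring
    rw [Finset.sum_congr rfl fun i _ => e i, ← Finset.mul_sum] at h
    push_cast at h
    linarith
  have htr : ∑ i, bil L.M (y i) (y i) ≤ (2 : ℤ) ^ d * l := by
    have h := Jnt_trace L y (2 ^ d) (by
      intro x
      have := hcov x
      push_cast
      exact this)
    push_cast at h
    exact h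
  have hunit : ∀ i ∈ Z, ¬ (2 : ℤ) ∣ ∑ j, y i j * v j := by
    intro i hi
    have h := Ht_zero L χ₀ hχ₀ hind c v hv (χ i) (hχ i) ((hZ i).mp hi)
    rw [Fintype.sum_subsingleton _ r₀] at h
    simp only [Fin.sum_univ_two] at h
    intro hcon
    apply h
    have e : ∑ j, y i j * v j = ∑ j, L.a (χ i) r₀ 0 j * v j - ∑ j, L.a (χ i) r₀ 1 j * v j := by
      rw [← Finset.sum_sub_distrib]
      refine Finset.sum_congr rfl fun j _ => ?_
      rw [hy]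
      simp only [Pi.sub_apply]
      ring
    rw [e] at hcon
    push_cast
    omega
  have hodd : ∀ i ∈ Z, ∀ j ∈ Z, ¬ (2 : ℤ) ∣ bil L.M (y i) (y j) := by
    intro i hi j hj h0
    have h := TopA_bil_mod 2 L.M c v (by exact_mod_cast hv) (y i) (y j)
    have hpr : Prime (2 : ℤ) := Int.prime_two
    have h2 : (2 : ℤ) ∣ c * (∑ a, y i a * v a) * (∑ a, y j a * v a) := by
      exact (dvd_sub_right h0).mp (by exact_mod_cast h)
    rcases hpr.dvd_or_dvd h2 with h3 | h3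
    · rcases hpr.dvd_or_dvd h3 with h4 | h4
      · exact hc (by exact_mod_cast h4)
      · exact hunit i hi h4
    · exact hunit j hj h3
  have hne0 : ∀ i ∈ Z, ∀ j ∈ Z, bil L.M (y i) (y j) ≠ 0 := by
    intro i hi j hj h0
    exact hodd i hi j hj (by rw [h0]; exact dvd_zero _)
  have hpos : ∀ i ∈ Z, ∀ j ∉ Z, (2 : ℤ) ∣ bil L.M (y i) (y j) ∧ bil L.M (y i) (y j) ≠ 0 := by
    intro i hi j hj
    have hA1 : InM 𝔪 (ContrAux.A 2 (χ j) χ₀) := by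
      by_contra hcon
      exact hj ((hZ j).mpr hcon)
    rw [hyb]
    refine ⟨?_, ?_⟩
    · have := Ht_pos L hm χ₀ hχ₀ hmaj (χ j) (hχ j) hA1 (y i) r₀ 0 1
      exact_mod_cast this
    · obtain ⟨r, t, t', h⟩ := hne (χ j) (hχ j) (y i) (by exact_mod_cast hunit i hi)
      have hr : r = r₀ := Subsingleton.elim _ _
      rw [hr] at h
      intro h0
      apply h
      have h5 : bil L.M (y i) (L.a (χ j) r₀ 0) = bil L.M (y i) (L.a (χ j) r₀ 1) := by linarith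
      have ht : ∀ s : Fin 2, s = 0 ∨ s = 1 := by decide
      rcases ht t with rfl | rfl <;> rcases ht t' with rfl | rfl
      · rfl
      · exact h5
      · exact h5.symm
      · rfl
  obtain ⟨g0, g1⟩ := Two_lat L.M ((2 : ℤ) ^ d) y hcov Z hne0 hpos hsymm
  refine ⟨fun i => bil L.M (y i) (y i), fun i hi => hodd i hi i hi, g0, g1, htr, ?_⟩
  -- the last inequality
  have hb : ∀ a b : Fin L.K → ℤ, bil L.M a b = bil L.M b a := by
    intro a b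
    unfold bil
    rw [Finset.sum_comm]
    refine Finset.sum_congr rfl fun i _ => Finset.sum_congr rfl fun j _ => ?_
    rw [hsymm j i]
    ring
  have hη : L.η = -1 := by
    have h := L.hη
    have e : 2 * 2 ^ L.m = 2 := by rw [hm]; norm_num
    rw [e] at h
    exact IsPrimitiveRoot.eq_neg_one_of_two_right h
  have hH : ∀ i, L.H 1 (χ i) (y i) = ((bil L.M (y i) (y i) : ℤ) : ℂ) := by
    intro i
    have e0 : L.η ^ (1 * ((r₀ : ℕ) + 2 ^ L.m * ((0 : Fin 2) : ℕ))) = 1 := by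
      rw [hr₀]
      simp
    have e1 : L.η ^ (1 * ((r₀ : ℕ) + 2 ^ L.m * ((1 : Fin 2) : ℕ))) = -1 := by
      rw [hr₀, hη, hm]
      simp
    have e2 := hyb (y i) i
    unfold Loc.H
    rw [Fintype.sum_subsingleton _ r₀, Fin.sum_univ_two, e0, e1, hb (L.a (χ i) r₀ 0) (y i),
      hb (L.a (χ i) r₀ 1) (y i), e2]
    push_cast
    ring
  have hC0 : (0 : ℝ) < (Nat.card C : ℝ) := by exact_mod_cast Nat.card_pos
  have hG0 : (0 : ℝ) < (Nat.card G : ℝ) := by exact_mod_cast Nat.card_pos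
  set R : Fin k → ℝ := fun i => ∑ g : G with ¬ 2 ∣ orderOf g, ‖χ i g‖ ^ 2 with hR
  have hpt : ∀ i, ((bil L.M (y i) (y i) : ℤ) : ℝ) ≤ (2 : ℝ) ^ d * (1 - R i / (Nat.card G : ℝ)) := by
    intro i
    have h1 := SecT_H L (χ i) (hχ i).1 (y i)
    have h2 := SecT_norm 2 L.m L.hp u L.hord C L.hC (χ i) (hχ i).1
    rw [hH, hmaj] at h1
    set S : ℝ := ∑ y : C with ¬ 2 ∣ orderOf y, ‖χ i (u ^ 1 * (y : G))‖ ^ 2 with hS
    set x : ℝ := ((bil L.M (y i) (y i) : ℤ) : ℝ) with hx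
    have hx0 : 0 ≤ x := by
      rw [hx]
      exact_mod_cast hpsd (y i)
    have hS0 : 0 ≤ S := Finset.sum_nonneg fun _ _ => by positivity
    have h1' : x ^ 2 ≤ ((2 : ℝ) ^ d / (Nat.card C : ℝ) * S) * x := by
      have e : ‖((bil L.M (y i) (y i) : ℤ) : ℂ)‖ ^ 2 = x ^ 2 := by
        rw [Complex.norm_intCast, sq_abs]
      rw [e] at h1
      push_cast at h1
      exact h1
    have h3 : x ≤ (2 : ℝ) ^ d / (Nat.card C : ℝ) * S := by
      rcases eq_or_lt_of_le hx0 with h | h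
      · rw [← h]
        positivity
      · have : x * x ≤ ((2 : ℝ) ^ d / (Nat.card C : ℝ) * S) * x := by nlinarith
        exact le_of_mul_le_mul_right this h
    have h4 : S ≤ (Nat.card C : ℝ) * (1 - R i / (Nat.card G : ℝ)) := by
      have h5 : (Nat.card G : ℝ) * S + (Nat.card C : ℝ) * R i ≤
          (Nat.card C : ℝ) * (Nat.card G : ℝ) := h2
      have h6 : (Nat.card G : ℝ) * S ≤
          (Nat.card G : ℝ) * ((Nat.card C : ℝ) * (1 - R i / (Nat.card G : ℝ))) := by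
        have e : (Nat.card G : ℝ) * ((Nat.card C : ℝ) * (1 - R i / (Nat.card G : ℝ))) =
            (Nat.card C : ℝ) * (Nat.card G : ℝ) - (Nat.card C : ℝ) * R i := by
          field_simp
        rw [e]
        linarith
      exact le_of_mul_le_mul_left h6 hG0
    refine h3.trans ?_
    calc (2 : ℝ) ^ d / (Nat.card C : ℝ) * S ≤ (2 : ℝ) ^ d / (Nat.card C : ℝ) *
        ((Nat.card C : ℝ) * (1 - R i / (Nat.card G : ℝ))) :=
          mul_le_mul_of_nonneg_left h4 (by positivity)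
      _ = _ := by field_simp
  have hRs : ∑ i, R i = (Nat.card G : ℝ) * ell 2 (block 𝔪 χ₀) := by
    have h := TrE_main 2 L.hp 𝔪 L.hmax L.hpm χ₀ χ hinj hχ hsurj
    have e : ((∑ i, R i : ℝ) : ℂ) = ∑ i, T 2 (χ i) (χ i) := by
      rw [Complex.ofReal_sum]
      refine Finset.sum_congr rfl fun i _ => ?_
      rw [hR]
      unfold T
      simp only
      rw [Complex.ofReal_sum]
      refine Finset.sum_congr rfl fun g _ => ?_
      rw [irr_inv (hχ i).1, Complex.mul_conj, Complex.normSq_eq_norm_sq]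
    rw [h] at e
    exact_mod_cast e
  have hfin : ((∑ i, bil L.M (y i) (y i) : ℤ) : ℝ) + (2 : ℝ) ^ d * ell 2 (block 𝔪 χ₀) ≤
      (2 : ℝ) ^ d * k := by
    push_cast
    have h1 : ∑ i, ((bil L.M (y i) (y i) : ℤ) : ℝ) ≤
        ∑ i, (2 : ℝ) ^ d * (1 - R i / (Nat.card G : ℝ)) := Finset.sum_le_sum fun i _ => hpt i
    have h2 : ∑ i, (2 : ℝ) ^ d * (1 - R i / (Nat.card G : ℝ)) =
        (2 : ℝ) ^ d * (k - ell 2 (block 𝔪 χ₀)) := by
      rw [← Finset.mul_sum, Finset.sum_sub_distrib, ← Finset.sum_div, hRs, Finset.sum_const,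
        Finset.card_univ, Fintype.card_fin]
      field_simp
      simp
    rw [h2] at h1
    linarith
  exact_mod_cast hfin

end loc

/-- The data at the level of blocks. -/
theorem TwoB_main {G : Type} [Group G] [Fintype G] (𝔪 : Ideal AInt)
    (h𝔪 : 𝔪.IsMaximal) (hp𝔪 : ((2 : ℕ) : AInt) ∈ 𝔪) (χ₀ : G → ℂ) (hχ₀ : χ₀ ∈ Irr G)
    (z : G) (hz : orderOf z = 2) (ζ₀ : (Subgroup.centralizer {z} : Subgroup G) → ℂ)
    (hζ₀ : ζ₀ ∈ Irr (Subgroup.centralizer {z} : Subgroup G))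
    (hind : Induces 𝔪 (Subgroup.centralizer {z}) ζ₀ χ₀)
    (hmaj : defect 2 (block 𝔪 ζ₀) = defect 2 (block 𝔪 χ₀))
    (hd : 0 < defect 2 (block 𝔪 χ₀)) :
    ∃ (Z : Finset (Fin (block 𝔪 χ₀).ncard)) (X : Fin (block 𝔪 χ₀).ncard → ℤ),
      Z.Nonempty ∧ (∀ i ∈ Z, ¬ (2 : ℤ) ∣ X i) ∧
      (∀ i ∈ Z, (Z.card : ℤ) - 1 + 4 * (((block 𝔪 χ₀).ncard : ℤ) - Z.card) + X i ^ 2 ≤
        (2 : ℤ) ^ defect 2 (block 𝔪 χ₀) * X i) ∧
      (∀ i ∉ Z, 4 * (Z.card : ℤ) + X i ^ 2 ≤ (2 : ℤ) ^ defect 2 (block 𝔪 χ₀) * X i) ∧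
      ∑ i, X i ≤ (2 : ℤ) ^ defect 2 (block 𝔪 χ₀) * ell 2 (block 𝔪 ζ₀) ∧
      ∑ i, X i + (2 : ℤ) ^ defect 2 (block 𝔪 χ₀) * ell 2 (block 𝔪 χ₀) ≤
        (2 : ℤ) ^ defect 2 (block 𝔪 χ₀) * ((block 𝔪 χ₀).ncard : ℕ) := by
  classical
  have : Fintype (Subgroup.centralizer {z} : Subgroup G) := Fintype.ofFinite _
  have hfin := JntB_fin 𝔪 χ₀
  obtain ⟨χ, hinj, hχ, hsurj⟩ := JntB_enum (block 𝔪 χ₀) hfin
  obtain ⟨L⟩ := MkLoc_main 2 Nat.prime_two 𝔪 h𝔪 hp𝔪 z 0 (by simpa using hz) _ (JntB_cent z) ζ₀ hζ₀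
  have hm : L.m = 0 := by
    have h1 := L.hord
    rw [hz] at h1
    have h2 : 2 ^ 1 = 2 ^ (L.m + 1) := by simpa using h1
    have h3 := Nat.pow_right_injective le_rfl h2
    omega
  have hind' := JntB_ind 𝔪 _ ζ₀ χ₀ hind
  set Z : Finset (Fin (block 𝔪 χ₀).ncard) :=
    Finset.univ.filter (fun i => ¬ InM 𝔪 (ContrAux.A 2 (χ i) χ₀)) with hZd
  have hZ : ∀ i, i ∈ Z ↔ ¬ InM 𝔪 (ContrAux.A 2 (χ i) χ₀) := by
    intro i
    rw [hZd, Finset.mem_filter]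
    simp
  obtain ⟨X, h1, h2, h3, h4, h5⟩ :=
    TwoB_loc L χ₀ hχ₀ hind' hmaj χ hinj hχ hsurj hm Z hZ
  refine ⟨Z, X, ?_, h1, h2, h3, h4, h5⟩
  obtain ⟨ψ, hψ⟩ := TwoB_height 2 Nat.prime_two 𝔪 χ₀ hd
  obtain ⟨i, hi⟩ := hsurj ψ hψ.1
  refine ⟨i, (hZ i).mpr ?_⟩
  rw [hi]
  exact (Ht_iff 2 Nat.prime_two 𝔪 h𝔪 hp𝔪 χ₀ hχ₀ ψ hψ.1).mp hψ

end Pool.Agent.KBU
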